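import Pool.Agent.Y123.ST.Full3
import Pool.Agent.Y118.HP.Fin
import Pool.Agent.H340R2.LW

/-!
# The criterion, in terms of polynomials over `K`
-/

set_option autoImplicit false
set_option linter.unusedSectionVars false

open Matrix

namespace Pool.Agent.Y123.ST

open Pool.Agent.TH127.PT Pool.Agent.Y118.HP

variable {n N : ℕ}

/-- `K`-subtorsors, defined by polynomials over `K` -/
def SubT (K : Subfield ℂ) {B : Type} [Fintype B] [DecidableEq B] (T : Set (Matrix B B ℂ)) : Prop :=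
  (∀ x ∈ T, ∀ y ∈ T, ∀ z ∈ T, x * y⁻¹ * z ∈ T) ∧ ∃ I : Set (MvPolynomial (B × B) K), ∀ x : Matrix B B ℂ, x ∈ T ↔
    IsUnit x ∧ ∀ p ∈ I, MvPolynomial.eval (fun b => x b.1 b.2) (MvPolynomial.map (algebraMap K ℂ) p) = 0

theorem subT_iff {K : Subfield ℂ} {B : Type} [Fintype B] [DecidableEq B] {T : Set (Matrix B B ℂ)} :
    SubT K T ↔ IsSubtorsor K T := by
  constructor
  · rintro ⟨h1, I, h2⟩
    refine ⟨fun x hx => ((h2 x).1 hx).1, h1, (MvPolynomial.map (algebraMap K ℂ)) '' I, ?_, fun x => ?_⟩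
    · rintro _ ⟨p, -, rfl⟩ m
      rw [MvPolynomial.coeff_map]
      exact (p.coeff m).2
    · rw [h2]
      refine and_congr_right fun _ => ⟨?_, ?_⟩
      · rintro h _ ⟨p, hp, rfl⟩
        exact h p hp
      · intro h p hp
        exact h _ ⟨p, hp, rfl⟩
  · intro h
    obtain ⟨I, h1, h2⟩ := h.algebraic
    refine ⟨h.torsor, {p | MvPolynomial.map (algebraMap K ℂ) p ∈ I}, fun x => ?_⟩
    rw [h2]
    refine and_congr_right fun _ => ⟨?_, ?_⟩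
    · intro h3 p hp
      exact h3 _ hp
    · intro h3 p hp
      obtain ⟨P0, hP0⟩ := exists_map p (h1 p hp)
      rw [← hP0]
      exact h3 P0 (by rw [Set.mem_ofPred_eq, hP0]; exact hp)

/-- the torsor with the form `bm` -/
def TB (Q : Fin N → Matrix (Fin n) (Fin n) ℂ) : Set (Matrix (Fin n × Fin N) (Fin n × Fin N) ℂ) :=
  {x | ∃ (X : Fin N → Matrix (Fin n) (Fin n) ℂ) (μ : ℂ), μ ≠ 0 ∧ x = blockDiagonal X ∧
    ∀ j, X j * Q j * (X j)ᵀ = μ • (bm ℚ n).map (algebraMap ℚ ℂ)}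

theorem rel_iff {Q X : Matrix (Fin n) (Fin n) ℂ} {μ : ℂ} :
    X * Q * Xᵀ = μ • (bm ℚ n).map (algebraMap ℚ ℂ) ↔ X * ((-1 / 2 : ℂ) • Q) * Xᵀ = μ • jm ℂ n := by
  rw [bm_eq, Matrix.mul_smul, Matrix.smul_mul]
  constructor
  · intro h
    rw [h, smul_smul, smul_smul]
    congr 1
    ring
  · intro h
    calc X * Q * Xᵀ = (-2 : ℂ) • ((-1 / 2 : ℂ) • (X * Q * Xᵀ)) := by
          rw [smul_smul]; norm_num
      _ = μ • (-2 : ℂ) • jm ℂ n := by rw [h, smul_comm]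

theorem TB_eq (Q : Fin N → Matrix (Fin n) (Fin n) ℂ) :
    TB Q = {x | ∃ X mu, x = bd X ∧ (X, mu) ∈ Tor (fun j => (-1 / 2 : ℂ) • Q j)} := by
  ext x
  constructor
  · rintro ⟨X, μ, h1, h2, h3⟩
    exact ⟨X, μ, h2, h1, fun j => rel_iff.1 (h3 j)⟩
  · rintro ⟨X, μ, h2, h1, h3⟩
    exact ⟨X, μ, h1, h2, fun j => rel_iff.2 (h3 j)⟩

/-- relations over `K` -/
def NR (K : Subfield ℂ) (Q c : Fin N → Matrix (Fin n) (Fin n) ℂ) (d : ℕ) : Prop :=
  ∀ P : MvPolynomial (Fin N × Fin n × Fin n) K, P.totalDegree ≤ d →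
    MvPolynomial.eval (fun s => c s.1 s.2.1 s.2.2) (MvPolynomial.map (algebraMap K ℂ) P) = 0 →
    ∀ (X : Fin N → Matrix (Fin n) (Fin n) ℂ) (μ : ℂ), μ ≠ 0 →
      (∀ j, X j * Q j * (X j)ᵀ = μ • (bm ℚ n).map (algebraMap ℚ ℂ)) →
      MvPolynomial.eval (fun s => X s.1 s.2.1 s.2.2) (MvPolynomial.map (algebraMap K ℂ) P) = 0

theorem norel_of_NR {K : Subfield ℂ} {Q c : Fin N → Matrix (Fin n) (Fin n) ℂ} {d : ℕ} (h : NR K Q c d) :
    NoRel K (fun j => (-1 / 2 : ℂ) • Q j) c d := by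
  intro P hP hd h0 x hx
  obtain ⟨P0, rfl⟩ := exists_map P hP
  refine h P0 ?_ h0 x.1 x.2 hx.1 fun j => rel_iff.2 (hx.2 j)
  have h1 : (MvPolynomial.map (algebraMap K ℂ) P0).totalDegree = P0.totalDegree := by
    unfold MvPolynomial.totalDegree
    rw [MvPolynomial.support_map_of_injective P0 (algebraMap K ℂ).injective]
  rwa [h1] at hd

theorem half_mem {K : Subfield ℂ} {Q : Fin N → Matrix (Fin n) (Fin n) ℂ} (hQ : ∀ j a b, Q j a b ∈ K) (j : Fin N)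
    (a b : Fin n) : ((-1 / 2 : ℂ) • Q j) a b ∈ K := by
  rw [Matrix.smul_apply, smul_eq_mul]
  refine K.mul_mem ?_ (hQ j a b)
  have : (-1 / 2 : ℂ) = ((-1 / 2 : ℚ) : ℂ) := by push_cast; ring
  rw [this]
  exact SubfieldClass.ratCast_mem K _

/-- `Ω` is the smallest `K`-subtorsor containing `c` -/
def Om (K : Subfield ℂ) {B : Type} [Fintype B] [DecidableEq B] (c : Matrix B B ℂ) (Ω : Set (Matrix B B ℂ)) : Prop :=
  SubT K Ω ∧ c ∈ Ω ∧ ∀ T, SubT K T → c ∈ T → Ω ⊆ T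

theorem crit_out (n : ℕ) (hn : Even n) (hn0 : 0 < n) : ∃ d : ℕ, ∀ (N : ℕ) (K : Subfield ℂ)
    (Q c : Fin N → Matrix (Fin n) (Fin n) ℂ) (lam : ℂ), 0 < N →
    (∀ x ∈ K, IsAlgebraic ℚ x) → (∀ j a b, Q j a b ∈ K) → Transcendental ℚ lam →
    (∀ j, c j * Q j * (c j)ᵀ = lam • (bm ℚ n).map (algebraMap ℚ ℂ)) → NR K Q c d →
    Om K (blockDiagonal c) (TB Q) := by
  obtain ⟨d, hd⟩ := crit n hn hn0
  refine ⟨d, ?_⟩
  intro N K Q c lam hN hK hQ hlam hc hr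
  have hlam0 : lam ≠ 0 := by
    rintro rfl
    exact hlam isAlgebraic_zero
  have hc' : (c, lam) ∈ Tor (fun j => (-1 / 2 : ℂ) • Q j) := ⟨hlam0, fun j => rel_iff.1 (hc j)⟩
  refine ⟨?_, ⟨c, lam, hlam0, rfl, hc⟩, fun T hT hcT => ?_⟩
  · rw [subT_iff, TB_eq]
    exact tor_sub hn hn0 hN (half_mem hQ) hc'
  · rintro _ ⟨X, μ, hμ, rfl, hX⟩
    exact hd N K T _ c lam hN hK (subT_iff.1 hT) (half_mem hQ) hc' hcT hlam (norel_of_NR hr) (X, μ)
      ⟨hμ, fun j => rel_iff.1 (hX j)⟩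

theorem transc_two_pi_I : Transcendental ℚ (2 * Real.pi * Complex.I : ℂ) := by
  intro h
  apply Pool.Agent.H340R2.LW.transcendental_pi_complex
  have hI : IsAlgebraic ℚ Complex.I := by
    refine ⟨Polynomial.X ^ 2 + 1, ?_, ?_⟩
    · exact (Polynomial.monic_X_pow_add_C (1 : ℚ) two_ne_zero).ne_zero
    · simp
  have h2 : IsAlgebraic ℚ (2 : ℂ) := isAlgebraic_natCast (R := ℚ) (A := ℂ) 2
  have h3 : (Real.pi : ℂ) = (2 * Real.pi * Complex.I) * (2 * Complex.I)⁻¹ := by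
    have := Complex.I_ne_zero
    field_simp
  rw [h3]
  exact h.mul (h2.mul hI).inv

/-- the products of the forms `bm` -/
def prB (n : ℕ) {N : ℕ} {κ : Type} {m : ℕ} (e : Fin m × Fin 2 ≃ κ) (b : Fin m → Fin N) : (κ → Fin n × Fin N) → ℚ :=
  fun I => ∏ l, if (I (e (l, 0))).2 = b l ∧ (I (e (l, 1))).2 = b l then
    bm ℚ n (I (e (l, 0))).1 (I (e (l, 1))).1 else 0

theorem bm_jm (a b : Fin n) : bm ℚ n a b = -2 * jm ℚ n a b := by
  unfold bm jm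
  simp only [Matrix.of_apply]
  split_ifs <;> ring

theorem prB_eq {κ : Type} {m : ℕ} (e : Fin m × Fin 2 ≃ κ) (b : Fin m → Fin N) : prB n e b = (-2 : ℚ) ^ m • pr n e b := by
  funext I
  rw [Pi.smul_apply, smul_eq_mul]
  unfold prB pr WJ
  have h1 : ((-2 : ℚ)) ^ m = ∏ _l : Fin m, (-2 : ℚ) := by
    rw [Finset.prod_const, Finset.card_univ, Fintype.card_fin]
  rw [h1, ← Finset.prod_mul_distrib]
  refine Finset.prod_congr rfl fun l _ => ?_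
  rw [Matrix.of_apply]
  split_ifs
  · exact bm_jm _ _
  · rw [mul_zero]

theorem cls_out (n : ℕ) (hn : Even n) (hn0 : 0 < n) : ∃ d : ℕ, ∀ (N : ℕ) (K : Subfield ℂ)
    (Q c : Fin N → Matrix (Fin n) (Fin n) ℂ) (lam : ℂ), 0 < N →
    (∀ x ∈ K, IsAlgebraic ℚ x) → (∀ j a b, Q j a b ∈ K) → Transcendental ℚ lam →
    (∀ j, c j * Q j * (c j)ᵀ = lam • (bm ℚ n).map (algebraMap ℚ ℂ)) → NR K Q c d →
    ∀ (κ : Type) [Fintype κ] [DecidableEq κ] (m : ℕ) (F : (κ → Fin n × Fin N) → ℚ),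
    (∃ a : (κ → Fin n × Fin N) → K, ∀ I, lam ^ m * (F I : ℂ) = ∑ I', (∏ k, blockDiagonal c (I k) (I' k)) * (a I' : ℂ)) ↔
      F ∈ Submodule.span ℚ {G | ∃ (e : Fin m × Fin 2 ≃ κ) (b : Fin m → Fin N), G = prB n e b} := by
  obtain ⟨d, hd⟩ := cls_crit n hn hn0
  refine ⟨d, ?_⟩
  intro N K Q c lam hN hK hQ hlam hc hr κ _ _ m F
  have hlam0 : lam ≠ 0 := by
    rintro rfl
    exact hlam isAlgebraic_zero
  have hc' : (c, lam) ∈ Tor (fun j => (-1 / 2 : ℂ) • Q j) := ⟨hlam0, fun j => rel_iff.1 (hc j)⟩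
  have h1 := hd N K _ c lam hN hK (half_mem hQ) hc' hlam (norel_of_NR hr) κ m F
  have h2 : Submodule.span ℚ {G : (κ → Fin n × Fin N) → ℚ | ∃ (e : Fin m × Fin 2 ≃ κ) (b : Fin m → Fin N), G = prB n e b} =
      Submodule.span ℚ {G | ∃ (e : Fin m × Fin 2 ≃ κ) (b : Fin m → Fin N), G = pr n e b} := by
    apply le_antisymm
    · rw [Submodule.span_le]
      rintro _ ⟨e, b, rfl⟩
      rw [prB_eq]
      exact Submodule.smul_mem _ _ (Submodule.subset_span ⟨e, b, rfl⟩)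
    · rw [Submodule.span_le]
      rintro _ ⟨e, b, rfl⟩
      have h3 : pr n e b = ((-2 : ℚ) ^ m)⁻¹ • prB n e b := by
        rw [prB_eq, smul_smul, inv_mul_cancel₀ (pow_ne_zero _ (by norm_num)), one_smul]
      rw [h3]
      exact Submodule.smul_mem _ _ (Submodule.subset_span ⟨e, b, rfl⟩)
  rw [h2, ← h1]
  constructor
  · rintro ⟨a, ha⟩
    exact ⟨fun I => (a I : ℂ), fun I => (a I).2, ha⟩
  · rintro ⟨a, ha, h3⟩
    exact ⟨fun I => ⟨a I, ha I⟩, h3⟩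

end Pool.Agent.Y123.ST
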