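import Pool.Agent.Y123.ST.Exp
import Pool.Agent.Y118.HP.Tor

/-!
# Subtorsors of the torsor of products of symplectic similitudes
-/

set_option autoImplicit false
set_option linter.unusedSectionVars false

open Matrix

namespace Pool.Agent.Y123.ST

open Pool.Agent.TH127.PT Pool.Agent.Y118.HP

variable {n N : ℕ}

/-- the block diagonal matrix -/
noncomputable abbrev bd (X : Fin N → Matrix (Fin n) (Fin n) ℂ) : Matrix (Fin n × Fin N) (Fin n × Fin N) ℂ :=
  blockDiagonal X

/-- one block, the others are `1` -/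
noncomputable def sg (j : Fin N) (A : Matrix (Fin n) (Fin n) ℂ) : Fin N → Matrix (Fin n) (Fin n) ℂ :=
  Function.update (fun _ => 1) j A

theorem sg_same (j : Fin N) (A : Matrix (Fin n) (Fin n) ℂ) : sg j A j = A := Function.update_self ..

theorem sg_ne {j k : Fin N} (h : k ≠ j) (A : Matrix (Fin n) (Fin n) ℂ) : sg j A k = 1 :=
  Function.update_of_ne h ..

theorem sg_conj (j : Fin N) (A B : Matrix (Fin n) (Fin n) ℂ) (β : Fin N → Matrix (Fin n) (Fin n) ℂ)
    (hAB : A * B = 1) :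
    bd (sg j A) * bd β * bd (sg j B) = bd β + bd (Pi.single j (A * β j * B - β j)) := by
  have _ := hAB
  rw [← blockDiagonal_mul, ← blockDiagonal_mul, ← blockDiagonal_add]
  congr 1
  funext k
  by_cases h : k = j
  · subst h
    rw [sg_same, sg_same, Pi.add_apply, Pi.single_eq_same]
    abel
  · rw [sg_ne h, sg_ne h, Pi.add_apply, Pi.single_eq_of_ne h, one_mul, mul_one, add_zero]

theorem sg_conj_single (j : Fin N) (A B X : Matrix (Fin n) (Fin n) ℂ) :
    bd (sg j A) * bd (Pi.single j X) * bd (sg j B) = bd (Pi.single j (A * X * B)) := by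
  rw [← blockDiagonal_mul, ← blockDiagonal_mul]
  congr 1
  funext k
  by_cases h : k = j
  · subst h
    rw [sg_same, sg_same, Pi.single_eq_same, Pi.single_eq_same]
  · rw [sg_ne h, sg_ne h, Pi.single_eq_of_ne h, Pi.single_eq_of_ne h, one_mul, mul_one]

/-- the block `j` of the Lie algebra -/
def LJ (T : Set (Matrix (Fin n × Fin N) (Fin n × Fin N) ℂ)) (j : Fin N) : Submodule ℂ (Matrix (Fin n) (Fin n) ℂ) where
  carrier := {X | fl (bd (Pi.single j X)) ∈ LL T}
  zero_mem' := by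
    show fl (bd (Pi.single j 0)) ∈ LL T
    rw [Pi.single_zero]
    show fl (blockDiagonal 0) ∈ LL T
    rw [blockDiagonal_zero, fl_zero]
    exact Submodule.zero_mem _
  add_mem' := by
    intro X Y hX hY
    show fl (bd (Pi.single j (X + Y))) ∈ LL T
    rw [Pi.single_add, show bd (Pi.single j X + Pi.single j Y) = bd (Pi.single j X) + bd (Pi.single j Y) from
      blockDiagonal_add _ _, fl_add]
    exact Submodule.add_mem _ hX hY
  smul_mem' := by
    intro z X hX
    show fl (bd (Pi.single j (z • X))) ∈ LL T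
    rw [Pi.single_smul, show bd (z • Pi.single j X) = z • bd (Pi.single j X) from blockDiagonal_smul _ _, fl_smul]
    exact Submodule.smul_mem _ _ hX

theorem mem_LJ {T : Set (Matrix (Fin n × Fin N) (Fin n × Fin N) ℂ)} {j : Fin N} {X : Matrix (Fin n) (Fin n) ℂ} :
    X ∈ LJ T j ↔ fl (bd (Pi.single j X)) ∈ LL T := Iff.rfl

/-- the nilpotent matrix -/
noncomputable def EE (v : Fin n → ℂ) : Matrix (Fin n) (Fin n) ℂ := vecMulVec (jm ℂ n *ᵥ v) v

theorem TV_EE (v : Fin n → ℂ) (s : ℂ) : TV v s = 1 + s • EE v := rfl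

theorem EE_sq (v : Fin n → ℂ) : EE v * EE v = 0 := by
  unfold EE
  rw [vecMulVec_mul_vecMulVec]
  have := om_self v
  unfold om at this
  rw [this]
  simp

theorem EE_mid (v : Fin n → ℂ) (M : Matrix (Fin n) (Fin n) ℂ) :
    EE v * M * EE v = (v ⬝ᵥ (M *ᵥ (jm ℂ n *ᵥ v))) • EE v := by
  unfold EE
  rw [vecMulVec_mul, vecMulVec_mul_vecMulVec, ← dotProduct_mulVec, vecMulVec_smul]

theorem TV_mem (v : Fin n → ℂ) (s : ℂ) : TV v s ∈ SpS ℂ n := by
  rw [TV_eq]
  exact TVK_mem (by norm_num) v s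

theorem EE_conj (u v : Fin n → ℂ) (s : ℂ) : TV u s * EE v * TV u (-s) = EE (v + (s * om u v) • u) := by
  have h1 := TV_conj u v s 1
  rw [TV_EE v, TV_EE (v + _), one_smul, one_smul, mul_add, mul_one, add_mul, TV_mul_neg] at h1
  exact add_left_cancel h1

/-- stability under conjugation by block diagonal symplectic matrices -/
def CStab (T : Set (Matrix (Fin n × Fin N) (Fin n × Fin N) ℂ)) : Prop :=
  ∀ g h : Fin N → Matrix (Fin n) (Fin n) ℂ, (∀ j, g j ∈ SpS ℂ n) → (∀ j, h j ∈ SpS ℂ n) → (∀ j, g j * h j = 1) →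
    ∀ w, fl w ∈ LL T → fl (bd g * w * bd h) ∈ LL T

variable {T : Set (Matrix (Fin n × Fin N) (Fin n × Fin N) ℂ)}

theorem sg_mem (j : Fin N) (v : Fin n → ℂ) (s : ℂ) : ∀ k, sg j (TV v s) k ∈ SpS ℂ n := by
  intro k
  by_cases h : k = j
  · subst h
    rw [sg_same]
    exact TV_mem v s
  · rw [sg_ne h]
    exact SpS_one

theorem sg_inv (j : Fin N) (v : Fin n → ℂ) (s : ℂ) : ∀ k, sg j (TV v s) k * sg j (TV v (-s)) k = 1 := by
  intro k
  by_cases h : k = j
  · subst h
    rw [sg_same, sg_same]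
    exact TV_mul_neg v s
  · rw [sg_ne h, sg_ne h, one_mul]

/-- one nilpotent element -/
theorem EE_mem_of (hC : CStab T) {β : Fin N → Matrix (Fin n) (Fin n) ℂ} (hβ : fl (bd β) ∈ LL T) (j : Fin N)
    {v : Fin n → ℂ} (hv : v ⬝ᵥ (β j *ᵥ (jm ℂ n *ᵥ v)) ≠ 0) : EE v ∈ LJ T j := by
  have h1 : ∀ s : ℂ, TV v s * β j * TV v (-s) - β j ∈ LJ T j := by
    intro s
    have h2 := hC _ _ (sg_mem j v s) (sg_mem j v (-s)) (sg_inv j v s) _ hβ
    rw [sg_conj j _ _ β (TV_mul_neg v s), fl_add] at h2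
    exact (Submodule.add_mem_iff_right _ hβ).1 h2
  have h3 := Submodule.add_mem _ (h1 1) (h1 (-1))
  have h4 : TV v 1 * β j * TV v (-1) - β j + (TV v (-1) * β j * TV v (- -1) - β j) =
      (-2 * (v ⬝ᵥ (β j *ᵥ (jm ℂ n *ᵥ v)))) • EE v := by
    rw [mul_smul, ← EE_mid]
    simp only [TV_EE, neg_neg, one_smul, neg_smul]
    rw [two_smul]
    noncomm_ring
  rw [h4] at h3
  exact (Submodule.smul_mem_iff _ (mul_ne_zero (by norm_num) hv)).1 h3

theorem om_nondeg (hn : Even n) {u : Fin n → ℂ} (h : ∀ x, om u x = 0) : u = 0 := by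
  have hdet : IsUnit (jm ℂ n).det := (jm_det hn).isUnit
  funext i
  have h1 := h ((jm ℂ n)⁻¹ *ᵥ Pi.single i 1)
  unfold om at h1
  rw [mulVec_mulVec, mul_nonsing_inv _ hdet, one_mulVec, dotProduct_single_one] at h1
  exact h1

theorem om_add (u v w : Fin n → ℂ) : om u (v + w) = om u v + om u w := by
  unfold om
  rw [mulVec_add, dotProduct_add]

theorem om_sub_left (u v w : Fin n → ℂ) : om (u - v) w = om u w - om v w := by
  unfold om
  rw [sub_dotProduct]

/-- all nilpotent elements -/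
theorem EE_all (hn : Even n) (hC : CStab T) (j : Fin N) {v : Fin n → ℂ} (hv0 : v ≠ 0) (hv : EE v ∈ LJ T j)
    (u : Fin n → ℂ) : EE u ∈ LJ T j := by
  have hS : ∀ (x w : Fin n → ℂ) (s : ℂ), EE x ∈ LJ T j → EE (x + (s * om w x) • w) ∈ LJ T j := by
    intro x w s hx
    have h2 := hC _ _ (sg_mem j w s) (sg_mem j w (-s)) (sg_inv j w s) _ (mem_LJ.1 hx)
    rw [sg_conj_single, EE_conj] at h2
    exact h2
  have step : ∀ x y : Fin n → ℂ, om y x ≠ 0 → EE x ∈ LJ T j → EE y ∈ LJ T j := by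
    intro x y hxy hx
    have h1 := hS x (y - x) (om y x)⁻¹ hx
    have h2 : om (y - x) x = om y x := by rw [om_sub_left, om_self, sub_zero]
    rw [h2, inv_mul_cancel₀ hxy, one_smul, add_sub_cancel] at h1
    exact h1
  by_cases hu : u = 0
  · rw [hu]
    have : EE (0 : Fin n → ℂ) = 0 := by unfold EE; simp
    rw [this]
    exact Submodule.zero_mem _
  obtain ⟨z, hz1, hz2⟩ : ∃ z, om v z ≠ 0 ∧ om u z ≠ 0 := by
    obtain ⟨z1, h1⟩ : ∃ z, om v z ≠ 0 := by
      by_contra hcon
      push Not at hcon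
      exact hv0 (om_nondeg hn hcon)
    obtain ⟨z2, h2⟩ : ∃ z, om u z ≠ 0 := by
      by_contra hcon
      push Not at hcon
      exact hu (om_nondeg hn hcon)
    by_cases h3 : om u z1 = 0
    · by_cases h4 : om v z2 = 0
      · refine ⟨z1 + z2, ?_, ?_⟩
        · rw [om_add, h4, add_zero]; exact h1
        · rw [om_add, h3, zero_add]; exact h2
      · exact ⟨z2, h4, h2⟩
    · exact ⟨z1, h1, h3⟩
  refine step z u hz2 (step v z ?_ hv)
  rw [om_skew]
  exact neg_ne_zero.2 hz1

/-- a similitude which is not a scalar detects a nilpotent element -/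
theorem exists_vec {β : Matrix (Fin n) (Fin n) ℂ} {κ : ℂ} (hn : Even n)
    (hβ : β * jm ℂ n + jm ℂ n * βᵀ = κ • jm ℂ n) (hs : β ≠ (κ / 2) • (1 : Matrix (Fin n) (Fin n) ℂ)) :
    ∃ v, v ⬝ᵥ (β *ᵥ (jm ℂ n *ᵥ v)) ≠ 0 := by
  by_contra hcon
  push Not at hcon
  apply hs
  have hdet : IsUnit (jm ℂ n).det := (jm_det hn).isUnit
  have hq : ∀ v, v ⬝ᵥ ((β * jm ℂ n) *ᵥ v) = 0 := by
    intro v
    rw [← mulVec_mulVec]
    exact hcon v
  have hanti : ∀ i k, (β * jm ℂ n) i k = -(β * jm ℂ n) k i := by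
    intro i k
    have e : ∀ a b : Fin n, (Pi.single a (1 : ℂ)) ⬝ᵥ ((β * jm ℂ n) *ᵥ Pi.single b 1) = (β * jm ℂ n) a b := by
      intro a b
      rw [single_one_dotProduct, mulVec_single_one]
      rfl
    have h1 := hq (Pi.single i 1 + Pi.single k 1)
    rw [mulVec_add, dotProduct_add, add_dotProduct, add_dotProduct, e, e, e, e] at h1
    have h2 := hq (Pi.single i 1)
    have h3 := hq (Pi.single k 1)
    rw [e] at h2 h3
    linear_combination h1 - h2 - h3
  have h4 : (β * jm ℂ n)ᵀ = -(β * jm ℂ n) := by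
    ext i k
    rw [transpose_apply, Matrix.neg_apply]
    exact hanti k i
  rw [transpose_mul, jm_transpose, neg_mul, neg_inj] at h4
  rw [h4] at hβ
  have h5 : β * jm ℂ n = (κ / 2) • jm ℂ n := by
    have h6 : (2 : ℂ) • (β * jm ℂ n) = κ • jm ℂ n := by rw [two_smul]; exact hβ
    have h7 := congrArg (fun M => (1 / 2 : ℂ) • M) h6
    simp only [smul_smul] at h7
    rw [show (1 / 2 : ℂ) * 2 = 1 by norm_num, one_smul] at h7
    rw [h7]
    congr 1
    ring
  calc β = β * jm ℂ n * (jm ℂ n)⁻¹ := by rw [Matrix.mul_assoc, mul_nonsing_inv _ hdet, Matrix.mul_one]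
    _ = (κ / 2) • (1 : Matrix (Fin n) (Fin n) ℂ) := by
      rw [h5, Matrix.smul_mul, mul_nonsing_inv _ hdet]

/-- the symplectic Lie algebra is in the block -/
theorem sp_LJ (hn : Even n) (j : Fin N) (hE : ∀ u, EE u ∈ LJ T j) {β : Matrix (Fin n) (Fin n) ℂ}
    (hβ : β * jm ℂ n + jm ℂ n * βᵀ = 0) : β ∈ LJ T j := by
  have hdet : IsUnit (jm ℂ n).det := (jm_det hn).isUnit
  set S := (jm ℂ n)⁻¹ * β with hS
  have hβS : β = jm ℂ n * S := by
    rw [hS, ← Matrix.mul_assoc, mul_nonsing_inv _ hdet, Matrix.one_mul]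
  have hJT : ((jm ℂ n)⁻¹)ᵀ = -(jm ℂ n)⁻¹ := by
    rw [transpose_nonsing_inv, jm_transpose]
    apply inv_eq_left_inv
    rw [neg_mul_neg, nonsing_inv_mul _ hdet]
  have hsym : Sᵀ = S := by
    rw [hS, transpose_mul, hJT]
    have h1 : jm ℂ n * βᵀ = -(β * jm ℂ n) := by
      rw [eq_neg_iff_add_eq_zero, add_comm]; exact hβ
    have h2 : βᵀ = -((jm ℂ n)⁻¹ * β * jm ℂ n) := by
      calc βᵀ = (jm ℂ n)⁻¹ * (jm ℂ n * βᵀ) := by
            rw [← Matrix.mul_assoc, nonsing_inv_mul _ hdet, Matrix.one_mul]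
        _ = -((jm ℂ n)⁻¹ * β * jm ℂ n) := by rw [h1, Matrix.mul_neg, Matrix.mul_assoc]
    rw [h2, neg_mul_neg, Matrix.mul_assoc, mul_nonsing_inv _ hdet, Matrix.mul_one]
  -- matrices jm * (e_i e_k^T + e_k e_i^T)
  have hik : ∀ i k : Fin n, jm ℂ n * (Matrix.single i k (1 : ℂ) + Matrix.single k i 1) ∈ LJ T j := by
    intro i k
    have h1 : ∀ u : Fin n → ℂ, EE u = jm ℂ n * vecMulVec u u := by
      intro u
      unfold EE
      rw [mul_vecMulVec]
    have h2 := Submodule.sub_mem _ (Submodule.sub_mem _ (hE (Pi.single i 1 + Pi.single k 1)) (hE (Pi.single i 1)))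
      (hE (Pi.single k 1))
    rw [h1, h1, h1, ← Matrix.mul_sub, ← Matrix.mul_sub] at h2
    convert h2 using 2
    rw [add_vecMulVec, vecMulVec_add, vecMulVec_add, ← Matrix.single_eq_single_vecMulVec_single,
      ← Matrix.single_eq_single_vecMulVec_single, ← Matrix.single_eq_single_vecMulVec_single,
      ← Matrix.single_eq_single_vecMulVec_single]
    abel
  have hsum : β = ∑ i, ∑ k, (S i k / 2) • (jm ℂ n * (Matrix.single i k (1 : ℂ) + Matrix.single k i 1)) := by
    have h3 : S = ∑ i, ∑ k, (S i k / 2) • (Matrix.single i k (1 : ℂ) + Matrix.single k i 1) := by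
      ext a b
      simp only [Matrix.sum_apply, Matrix.smul_apply, Matrix.add_apply, smul_eq_mul, Matrix.single_apply]
      simp only [mul_add, Finset.sum_add_distrib, mul_ite, mul_one, mul_zero]
      have e1 : ∑ x, ∑ x_1, (if x = a ∧ x_1 = b then S x x_1 / 2 else 0) = S a b / 2 := by
        rw [Finset.sum_eq_single a]
        · rw [Finset.sum_eq_single b]
          · simp
          · intro y _ hy; simp [hy]
          · intro h; exact absurd (Finset.mem_univ _) h
        · intro x _ hx; simp [hx]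
        · intro h; exact absurd (Finset.mem_univ _) h
      have e2 : ∑ x, ∑ x_1, (if x_1 = a ∧ x = b then S x x_1 / 2 else 0) = S b a / 2 := by
        rw [Finset.sum_eq_single b]
        · rw [Finset.sum_eq_single a]
          · simp
          · intro y _ hy; simp [hy]
          · intro h; exact absurd (Finset.mem_univ _) h
        · intro x _ hx; simp [hx]
        · intro h; exact absurd (Finset.mem_univ _) h
      rw [e1, e2]
      have h4 : S b a = S a b := by
        have := congrFun (congrFun hsym a) b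
        rw [transpose_apply] at this
        exact this
      rw [h4]
      ring
    conv_lhs => rw [hβS, h3, Matrix.mul_sum]
    refine Finset.sum_congr rfl fun i _ => ?_
    rw [Matrix.mul_sum]
    refine Finset.sum_congr rfl fun k _ => ?_
    rw [Matrix.mul_smul]
  rw [hsum]
  exact Submodule.sum_mem _ fun i _ => Submodule.sum_mem _ fun k _ => Submodule.smul_mem _ _ (hik i k)

end Pool.Agent.Y123.ST
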