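import Pool.Agent.Y123.ST.Tens
import Pool.Agent.TH125.Nod.Fft2

/-!
# de Rham-Betti classes are combinations of products of the polarisations
-/

set_option autoImplicit false
set_option linter.unusedSectionVars false

open Matrix

namespace Pool.Agent.Y123.ST

open Pool.Agent.TH127.PT Pool.Agent.Y118.HP

section deriv

variable {B κ : Type} [Fintype B] [Fintype κ] [DecidableEq κ] [DecidableEq B]

theorem sum_update (I : κ → B) (k : κ) (g : (κ → B) → ℂ) :
    ∑ I', (∏ j ∈ Finset.univ.erase k, (1 : Matrix B B ℂ) (I j) (I' j)) * g I' =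
      ∑ p, g (Function.update I k p) := by
  symm
  refine Finset.sum_of_injOn (fun p => Function.update I k p) ?_ (fun _ _ => Finset.mem_coe.2 (Finset.mem_univ _)) ?_ ?_
  · intro p _ q _ h
    have := congrFun h k
    simpa using this
  · intro I' _ hI'
    have : ∃ j, j ≠ k ∧ I j ≠ I' j := by
      by_contra hcon
      push Not at hcon
      apply hI'
      refine ⟨I' k, Finset.mem_coe.2 (Finset.mem_univ _), ?_⟩
      funext j
      by_cases h : j = k
      · subst h
        simp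
      · show Function.update I k (I' k) j = I' j
        rw [Function.update_of_ne h, hcon j h]
    obtain ⟨j, hj, hne⟩ := this
    rw [Finset.prod_eq_zero (Finset.mem_erase.2 ⟨hj, Finset.mem_univ _⟩) (by rw [Matrix.one_apply_ne hne]), zero_mul]
  · intro p _
    have : ∏ j ∈ Finset.univ.erase k, (1 : Matrix B B ℂ) (I j) (Function.update I k p j) = 1 := by
      refine Finset.prod_eq_one fun j hj => ?_
      rw [Function.update_of_ne (Finset.mem_erase.1 hj).1, Matrix.one_apply_eq]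
    rw [this, one_mul]

/-- derivative of the tensor power -/
theorem tp_deriv (E : Matrix B B ℂ) (F : (κ → B) → ℂ)
    (h : ∀ s : ℂ, tp κ (1 + s • E) *ᵥ F = F) (I : κ → B) :
    ∑ k, ∑ p, E (I k) p * F (Function.update I k p) = 0 := by
  have h1 : ∀ s : ℂ, ∑ I', (∏ k, (1 + s • E) (I k) (I' k)) * F I' = F I := fun s => congrFun (h s) I
  have h2 : HasDerivAt (fun s : ℂ => ∑ I', (∏ k, (1 + s • E) (I k) (I' k)) * F I')
      (∑ I', (∑ k, (∏ j ∈ Finset.univ.erase k, (1 : Matrix B B ℂ) (I j) (I' j)) * E (I k) (I' k)) * F I') 0 := by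
    refine HasDerivAt.fun_sum fun I' _ => ?_
    refine HasDerivAt.mul_const ?_ _
    have h3 : HasDerivAt (fun s : ℂ => ∏ k, (1 + s • E) (I k) (I' k))
        (∑ k, (∏ j ∈ Finset.univ.erase k, (1 + (0 : ℂ) • E) (I j) (I' j)) • E (I k) (I' k)) 0 := by
      refine HasDerivAt.fun_finset_prod fun k _ => ?_
      have h4 : (fun s : ℂ => (1 + s • E) (I k) (I' k)) = fun s : ℂ => (1 : Matrix B B ℂ) (I k) (I' k) + s * E (I k) (I' k) := by
        funext s
        rw [Matrix.add_apply, Matrix.smul_apply, smul_eq_mul]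
      rw [h4]
      have h5 := ((hasDerivAt_id (0 : ℂ)).mul_const (E (I k) (I' k))).const_add ((1 : Matrix B B ℂ) (I k) (I' k))
      simpa using h5
    simpa using h3
  have h3 : HasDerivAt (fun s : ℂ => ∑ I', (∏ k, (1 + s • E) (I k) (I' k)) * F I') 0 0 := by
    have : (fun s : ℂ => ∑ I', (∏ k, (1 + s • E) (I k) (I' k)) * F I') = fun _ => F I := funext h1
    rw [this]
    exact hasDerivAt_const _ _
  have h4 := h2.unique h3
  rw [← h4]
  simp only [Finset.sum_mul]
  conv_rhs => rw [Finset.sum_comm]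
  apply Finset.sum_congr rfl
  intro k _
  have h5 := sum_update I k (fun I' => E (I k) (I' k) * F I')
  simp only [Function.update_self] at h5
  rw [← h5]
  refine Finset.sum_congr rfl fun I' _ => ?_
  ring

end deriv

variable {n N : ℕ} {K : Subfield ℂ} {Q c : Fin N → Matrix (Fin n) (Fin n) ℂ} {lam : ℂ}
  {κ : Type} [Fintype κ] [DecidableEq κ]

theorem bd_sg (j : Fin N) (v : Fin n → ℂ) (s : ℂ) : bd (sg j (TV v s)) = 1 + s • bd (Pi.single j (EE v)) := by
  have h2 : (1 : Matrix (Fin n × Fin N) (Fin n × Fin N) ℂ) = bd (1 : Fin N → Matrix (Fin n) (Fin n) ℂ) :=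
    blockDiagonal_one.symm
  have h3 : s • bd (Pi.single j (EE v)) = bd (s • (Pi.single j (EE v) : Fin N → Matrix (Fin n) (Fin n) ℂ)) :=
    (blockDiagonal_smul _ _).symm
  rw [h2, h3]
  show blockDiagonal _ = blockDiagonal _ + blockDiagonal _
  rw [← blockDiagonal_add]
  congr 1
  funext k
  by_cases h : k = j
  · subst h
    rw [sg_same, Pi.add_apply, Pi.smul_apply, Pi.single_eq_same]
    rfl
  · rw [sg_ne h, Pi.add_apply, Pi.smul_apply, Pi.single_eq_of_ne h, smul_zero, add_zero]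
    rfl

/-- the class is defined on the whole torsor -/
theorem cls_all (hn : Even n) (hn0 : 0 < n) (hN : 0 < N) (hK : ∀ x ∈ K, IsAlgebraic ℚ x)
    (hQ : ∀ j a b, Q j a b ∈ K) (hc : (c, lam) ∈ Tor Q) (hlam : Transcendental ℚ lam)
    (hnon : ∀ j, ¬ ∃ (ν : ℂ) (a : Matrix (Fin n) (Fin n) ℂ), (∀ i k, IsAlgebraic ℚ (a i k)) ∧ c j = ν • a)
    (hq : NoQuad K Q c) {m : ℕ} {a : (κ → Fin n × Fin N) → ℂ} (ha : ∀ I, a I ∈ K) {F : (κ → Fin n × Fin N) → ℚ}
    (hF : Cls c lam m a F) : ∀ x ∈ Tor Q, Cls x.1 x.2 m a F := by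
  intro x hx
  obtain ⟨X, mu, h1, h2, h3⟩ := full hn hK (TF_sub hn hn0 hN hQ hc ha F) hQ hc ⟨c, lam, rfl, hc, hF⟩ hlam hnon hq x hx
  have h4 : x.1 = X := bd_inj h1
  subst h4
  have h5 : x.2 = mu := tor_lam hn hn0 hN (show (x.1, x.2) ∈ Tor Q from hx) h2
  rw [h5]
  exact h3

theorem inv_of (hc : (c, lam) ∈ Tor Q) {m : ℕ} {a : (κ → Fin n × Fin N) → ℂ} {F : (κ → Fin n × Fin N) → ℚ}
    (hall : ∀ x ∈ Tor Q, Cls x.1 x.2 m a F) {g : Fin N → Matrix (Fin n) (Fin n) ℂ} (hg : ∀ j, g j ∈ SpS ℂ n) :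
    tp κ (bd g) *ᵥ (fun I => (F I : ℂ)) = fun I => (F I : ℂ) := by
  have hx : ((fun j => g j * c j), lam) ∈ Tor Q := by
    refine ⟨hc.1, fun j => ?_⟩
    have h1 := hc.2 j
    have h2 : g j * jm ℂ n * (g j)ᵀ = jm ℂ n := hg j
    simp only at h1 ⊢
    rw [transpose_mul]
    calc g j * c j * Q j * ((c j)ᵀ * (g j)ᵀ) = g j * (c j * Q j * (c j)ᵀ) * (g j)ᵀ := by simp only [Matrix.mul_assoc]
      _ = lam • jm ℂ n := by rw [h1, Matrix.mul_smul, Matrix.smul_mul, h2]
  have h1 := hall _ hx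
  have h2 := hall _ hc
  rw [cls_iff] at h1 h2
  simp only at h1 h2
  rw [← bd_mul, tp_mul, ← mulVec_mulVec, h2, mulVec_smul] at h1
  have h3 : (lam ^ m)⁻¹ • lam ^ m • (tp κ (bd g) *ᵥ fun I => (F I : ℂ)) =
      (lam ^ m)⁻¹ • lam ^ m • fun I => (F I : ℂ) := by rw [h1]
  rwa [smul_smul, smul_smul, inv_mul_cancel₀ (pow_ne_zero _ hc.1), one_smul, one_smul] at h3

theorem deg_of (hc : (c, lam) ∈ Tor Q) {m : ℕ} {a : (κ → Fin n × Fin N) → ℂ} {F : (κ → Fin n × Fin N) → ℚ}
    (hall : ∀ x ∈ Tor Q, Cls x.1 x.2 m a F) (hF : F ≠ 0) : Fintype.card κ = m * 2 := by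
  obtain ⟨I, hI⟩ := Function.ne_iff.1 hF
  rw [Pi.zero_apply] at hI
  have hx : ((fun j => (2 : ℂ) • c j), (4 : ℂ) * lam) ∈ Tor Q := by
    refine ⟨mul_ne_zero (by norm_num) hc.1, fun j => ?_⟩
    have h1 := hc.2 j
    simp only at h1 ⊢
    rw [transpose_smul, Matrix.smul_mul, Matrix.smul_mul, Matrix.mul_smul, h1, smul_smul, smul_smul]
    congr 1
    ring
  have h1 := hall _ hx I
  have h2 := hall _ hc I
  simp only at h1 h2
  have h3 : bd (fun j => (2 : ℂ) • c j) = (2 : ℂ) • bd c := blockDiagonal_smul (2 : ℂ) c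
  rw [h3] at h1
  have h4 : ∀ I' : κ → Fin n × Fin N, (∏ k, ((2 : ℂ) • bd c) (I k) (I' k)) * a I' =
      2 ^ Fintype.card κ * ((∏ k, bd c (I k) (I' k)) * a I') := by
    intro I'
    simp only [Matrix.smul_apply, smul_eq_mul, Finset.prod_mul_distrib, Finset.prod_const, Finset.card_univ]
    ring
  rw [Finset.sum_congr rfl (fun I' _ => h4 I'), ← Finset.mul_sum, ← h2, mul_pow] at h1
  have h5 : lam ^ m * (F I : ℂ) ≠ 0 := mul_ne_zero (pow_ne_zero _ hc.1) (by exact_mod_cast hI)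
  have h6 : (4 : ℂ) ^ m = 2 ^ Fintype.card κ := by
    apply mul_right_cancel₀ h5
    linear_combination h1
  have h7 : (4 : ℕ) ^ m = 2 ^ Fintype.card κ := by exact_mod_cast h6
  have h8 : (2 : ℕ) ^ (2 * m) = 2 ^ Fintype.card κ := by rw [pow_mul]; exact h7
  have h9 := Nat.pow_right_injective (le_refl 2) h8
  omega

/-- the Lie algebra condition -/
theorem lie_of {F : (κ → Fin n × Fin N) → ℚ}
    (h : ∀ g : Fin N → Matrix (Fin n) (Fin n) ℂ, (∀ j, g j ∈ SpS ℂ n) →
      tp κ (bd g) *ᵥ (fun I => (F I : ℂ)) = fun I => (F I : ℂ)) (j : Fin N) (v : Fin n → ℂ) (I : κ → Fin n × Fin N) :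
    ∑ k, ∑ p, bd (Pi.single j (EE v)) (I k) p * (F (Function.update I k p) : ℂ) = 0 := by
  refine tp_deriv (bd (Pi.single j (EE v))) (fun I => (F I : ℂ)) (fun s => ?_) I
  rw [← bd_sg]
  exact h _ (sg_mem j v s)

theorem bd_single (j : Fin N) (M : Matrix (Fin n) (Fin n) ℂ) (x p : Fin n × Fin N) :
    bd (Pi.single j M) x p = if x.2 = j ∧ p.2 = j then M x.1 p.1 else 0 := by
  obtain ⟨x1, x2⟩ := x
  obtain ⟨p1, p2⟩ := p
  show blockDiagonal _ (x1, x2) (p1, p2) = _
  rw [blockDiagonal_apply]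
  simp only
  by_cases h : x2 = p2
  · subst h
    by_cases h' : x2 = j
    · subst h'
      simp
    · rw [if_pos rfl, Pi.single_eq_of_ne h', if_neg (fun hh => h' hh.1)]
      rfl
  · rw [if_neg h, if_neg]
    rintro ⟨h1, h2⟩
    exact h (h1.trans h2.symm)

theorem sum_block (j : Fin N) (q : Fin n) (x : Fin n × Fin N) (y : ℂ) (g : Fin n × Fin N → ℂ) :
    ∑ p : Fin n × Fin N, (if x.2 = j ∧ p.2 = j then y * (if p.1 = q then 1 else 0) else 0) * g p =
      if x.2 = j then y * g (q, j) else 0 := by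
  by_cases h : x.2 = j
  · rw [if_pos h, Finset.sum_eq_single (q, j)]
    · rw [if_pos ⟨h, rfl⟩, if_pos rfl, mul_one]
    · rintro ⟨p1, p2⟩ _ hp
      by_cases h1 : p2 = j
      · have h2 : p1 ≠ q := by
          rintro rfl
          exact hp (by rw [h1])
        rw [if_neg h2, mul_zero, ite_self, zero_mul]
      · rw [if_neg (fun hh => h1 hh.2), zero_mul]
    · intro hh
      exact absurd (Finset.mem_univ _) hh
  · rw [if_neg h]
    refine Finset.sum_eq_zero fun p _ => ?_
    rw [if_neg (fun hh => h hh.1), zero_mul]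

/-- the form of the product -/
noncomputable def QJ (n N : ℕ) : Matrix (Fin n × Fin N) (Fin n × Fin N) ℚ := blockDiagonal fun _ : Fin N => jm ℚ n

theorem QJ_apply (x y : Fin n × Fin N) : QJ n N x y = if x.2 = y.2 then jm ℚ n x.1 y.1 else 0 := by
  obtain ⟨x1, x2⟩ := x
  obtain ⟨y1, y2⟩ := y
  unfold QJ
  rw [blockDiagonal_apply]

theorem EE_pol (u v : Fin n) (x p : Fin n) :
    (EE (Pi.single u 1 + Pi.single v 1) - EE (Pi.single u 1) - EE (Pi.single v 1) : Matrix (Fin n) (Fin n) ℂ) x p =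
      jm ℂ n x u * (if p = v then 1 else 0) + jm ℂ n x v * (if p = u then 1 else 0) := by
  unfold EE
  rw [mulVec_add, mulVec_single_one, mulVec_single_one]
  simp only [Matrix.sub_apply, vecMulVec_apply, Pi.add_apply, Matrix.col_apply, Pi.single_apply]
  ring

theorem Inv_of {F : (κ → Fin n × Fin N) → ℚ}
    (h : ∀ g : Fin N → Matrix (Fin n) (Fin n) ℂ, (∀ j, g j ∈ SpS ℂ n) →
      tp κ (bd g) *ᵥ (fun I => (F I : ℂ)) = fun I => (F I : ℂ)) (u v : Fin n × Fin N) (huv : u.2 = v.2)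
    (I : κ → Fin n × Fin N) :
    ∑ k, (QJ n N v (I k) * F (Function.update I k u) + QJ n N u (I k) * F (Function.update I k v)) = 0 := by
  obtain ⟨u, j⟩ := u
  obtain ⟨v, j'⟩ := v
  simp only at huv
  subst huv
  have h1 := lie_of h j (Pi.single u 1 + Pi.single v 1) I
  have h2 := lie_of h j (Pi.single u 1) I
  have h3 := lie_of h j (Pi.single v 1) I
  have h4 : ∑ k, ∑ p, (bd (Pi.single j (EE (Pi.single u 1 + Pi.single v 1))) (I k) p
      - bd (Pi.single j (EE (Pi.single u 1))) (I k) p - bd (Pi.single j (EE (Pi.single v 1))) (I k) p) *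
        (F (Function.update I k p) : ℂ) = 0 := by
    simp only [sub_mul, Finset.sum_sub_distrib]
    rw [h1, h2, h3]
    ring
  have h5 : ∀ k : κ, ∑ p, (bd (Pi.single j (EE (Pi.single u 1 + Pi.single v 1))) (I k) p
      - bd (Pi.single j (EE (Pi.single u 1))) (I k) p - bd (Pi.single j (EE (Pi.single v 1))) (I k) p) *
        (F (Function.update I k p) : ℂ) =
      -(((QJ n N (v, j) (I k) * F (Function.update I k (u, j)) +
        QJ n N (u, j) (I k) * F (Function.update I k (v, j)) : ℚ)) : ℂ) := by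
    intro k
    have h6 : ∀ p : Fin n × Fin N, (bd (Pi.single j (EE (Pi.single u 1 + Pi.single v 1))) (I k) p
      - bd (Pi.single j (EE (Pi.single u 1))) (I k) p - bd (Pi.single j (EE (Pi.single v 1))) (I k) p) *
        (F (Function.update I k p) : ℂ) =
        (if (I k).2 = j ∧ p.2 = j then jm ℂ n (I k).1 u * (if p.1 = v then 1 else 0) else 0) *
          (F (Function.update I k p) : ℂ) +
        (if (I k).2 = j ∧ p.2 = j then jm ℂ n (I k).1 v * (if p.1 = u then 1 else 0) else 0) *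
          (F (Function.update I k p) : ℂ) := by
      intro p
      rw [bd_single, bd_single, bd_single]
      by_cases hp : (I k).2 = j ∧ p.2 = j
      · rw [if_pos hp, if_pos hp, if_pos hp, if_pos hp, if_pos hp, ← add_mul]
        congr 1
        exact EE_pol u v (I k).1 p.1
      · rw [if_neg hp, if_neg hp, if_neg hp, if_neg hp, if_neg hp]
        ring
    rw [Finset.sum_congr rfl (fun p _ => h6 p), Finset.sum_add_distrib,
      sum_block j v (I k) _ (fun p => (F (Function.update I k p) : ℂ)),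
      sum_block j u (I k) _ (fun p => (F (Function.update I k p) : ℂ)), QJ_apply, QJ_apply]
    have hm : ∀ a b : Fin n, ((jm ℚ n a b : ℚ) : ℂ) = jm ℂ n a b := by
      intro a b
      have := congrFun (congrFun (jm_map (n := n) (algebraMap ℚ ℂ)) a) b
      rw [← this]
      rfl
    by_cases hj : (I k).2 = j
    · rw [if_pos hj, if_pos hj, if_pos hj.symm, if_pos hj.symm]
      push_cast
      rw [hm, hm, jm_symm (K := ℂ) (I k).1 u, jm_symm (K := ℂ) (I k).1 v]
      ring
    · rw [if_neg hj, if_neg hj, if_neg (Ne.symm hj), if_neg (Ne.symm hj)]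
      simp
  rw [Finset.sum_congr rfl (fun k _ => h5 k), Finset.sum_neg_distrib, neg_eq_zero] at h4
  exact_mod_cast h4

end Pool.Agent.Y123.ST
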