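import Pool.Agent.Y123.ST.Cl

/-!
# de Rham-Betti classes are combinations of products of the polarisations (II)
-/

set_option autoImplicit false
set_option linter.unusedSectionVars false

open Matrix

namespace Pool.Agent.Y123.ST

open Pool.Agent.TH127.PT Pool.Agent.Y118.HP

variable {n N : ℕ} {K : Subfield ℂ} {Q c : Fin N → Matrix (Fin n) (Fin n) ℂ} {lam : ℂ}
  {κ : Type} [Fintype κ] [DecidableEq κ] {m : ℕ}

/-- the polarisation of the `j`-th factor -/
def WJ (n : ℕ) {N : ℕ} (j : Fin N) : Matrix (Fin n × Fin N) (Fin n × Fin N) ℚ :=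
  Matrix.of fun x y => if x.2 = j ∧ y.2 = j then jm ℚ n x.1 y.1 else 0

/-- products of polarisations -/
def pr (n : ℕ) {N : ℕ} {κ : Type} {m : ℕ} (e : Fin m × Fin 2 ≃ κ) (b : Fin m → Fin N) : (κ → Fin n × Fin N) → ℚ :=
  fun I => ∏ l, WJ n (b l) (I (e (l, 0))) (I (e (l, 1)))

theorem jm_cast (a b : Fin n) : ((jm ℚ n a b : ℚ) : ℂ) = jm ℂ n a b := by
  have := congrFun (congrFun (jm_map (n := n) (algebraMap ℚ ℂ)) a) b
  rw [← this]
  rfl

theorem WJ_cast (j : Fin N) (x y : Fin n × Fin N) : ((WJ n j x y : ℚ) : ℂ) = bd (Pi.single j (jm ℂ n)) x y := by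
  rw [bd_single]
  unfold WJ
  rw [Matrix.of_apply]
  split_ifs
  · exact jm_cast _ _
  · simp

open Pool.Agent.TH125.Nod in
theorem gen_mem (b : κ → Fin N) {m' : ℕ} (e : Fin m' × Fin 2 ≃ κ) (w : ℚ) (hm : Fintype.card κ = m * 2) :
    gen Prod.snd (QJ n N) b e w ∈ Submodule.span ℚ {G | ∃ (e : Fin m × Fin 2 ≃ κ) (b : Fin m → Fin N), G = pr n e b} := by
  have h1 : m' = m := by
    have := Fintype.card_congr e
    rw [Fintype.card_prod, Fintype.card_fin, Fintype.card_fin, hm] at this
    omega
  subst h1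
  by_cases hb : ∀ l, b (e (l, 0)) = b (e (l, 1))
  · have h2 : gen Prod.snd (QJ n N) b e w = w • pr n e (fun l => b (e (l, 0))) := by
      funext J
      unfold gen
      rw [Pi.smul_apply, smul_eq_mul]
      unfold pr
      by_cases hJ : ∀ k, (J k).2 = b k
      · rw [if_pos hJ, smul_eq_mul, mul_comm]
        congr 1
        refine Finset.prod_congr rfl fun l _ => ?_
        unfold WJ
        rw [QJ_apply, Matrix.of_apply, hJ, hJ, if_pos (hb l), if_pos ⟨rfl, (hb l).symm⟩]
      · rw [if_neg hJ]
        push Not at hJ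
        obtain ⟨k, hk⟩ := hJ
        obtain ⟨⟨l, i⟩, rfl⟩ := e.surjective k
        rw [Finset.prod_eq_zero (Finset.mem_univ l), smul_zero]
        unfold WJ
        rw [Matrix.of_apply, if_neg]
        rintro ⟨h3, h4⟩
        apply hk
        fin_cases i
        · exact h3
        · exact h4.trans (hb l)
    rw [h2]
    exact Submodule.smul_mem _ _ (Submodule.subset_span ⟨e, _, rfl⟩)
  · have h2 : gen Prod.snd (QJ n N) b e w = 0 := by
      funext J
      unfold gen
      by_cases hJ : ∀ k, (J k).2 = b k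
      · rw [if_pos hJ]
        push Not at hb
        obtain ⟨l, hl⟩ := hb
        rw [Finset.prod_eq_zero (Finset.mem_univ l), zero_smul]
        · rfl
        · rw [QJ_apply, hJ, hJ, if_neg hl]
      · rw [if_neg hJ]
        rfl
    rw [h2]
    exact Submodule.zero_mem _

open Pool.Agent.TH125.Nod in
theorem span_of (hn : Even n) {F : (κ → Fin n × Fin N) → ℚ} (hm : Fintype.card κ = m * 2)
    (h : ∀ g : Fin N → Matrix (Fin n) (Fin n) ℂ, (∀ j, g j ∈ SpS ℂ n) →
      tp κ (bd g) *ᵥ (fun I => (F I : ℂ)) = fun I => (F I : ℂ)) :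
    F ∈ Submodule.span ℚ {G | ∃ (e : Fin m × Fin 2 ≃ κ) (b : Fin m → Fin N), G = pr n e b} := by
  classical
  have hF : F = ∑ b : κ → Fin N, fun I => if ∀ k, (I k).2 = b k then F I else 0 := by
    funext I
    rw [Finset.sum_apply, Finset.sum_eq_single (fun k => (I k).2)]
    · rw [if_pos (fun _ => rfl)]
    · intro b _ hb
      rw [if_neg]
      intro h1
      exact hb (funext fun k => (h1 k).symm)
    · intro h1
      exact absurd (Finset.mem_univ _) h1
  rw [hF]
  refine Submodule.sum_mem _ fun b _ => ?_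
  have hgen : (fun I : κ → Fin n × Fin N => if ∀ k, (I k).2 = b k then F I else 0) ∈
      Gen (M := ℚ) Prod.snd (QJ n N) b := by
    have hR : QJ n N * (QJ n N)⁻¹ = 1 := by
      refine mul_nonsing_inv _ ?_
      unfold QJ
      rw [det_blockDiagonal, Finset.prod_const]
      exact (IsUnit.mk0 _ (jm_det (K := ℚ) hn)).pow _
    refine fft (K := ℚ) (M := ℚ) (κ := Prod.snd) (Q := QJ n N) (R := (QJ n N)⁻¹) (s := fun _ => -1) (fun _ => Or.inr rfl)
      ?_ ?_ hR (Fintype.card κ) κ b _ rfl ?_ ?_ ?_
    · intro x y hxy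
      rw [QJ_apply, if_neg hxy]
    · intro x y
      rw [QJ_apply, QJ_apply]
      by_cases hxy : x.2 = y.2
      · rw [if_pos hxy, if_pos hxy.symm, jm_symm (K := ℚ) y.1 x.1]
        push_cast
        ring
      · rw [if_neg hxy, if_neg (Ne.symm hxy), mul_zero]
    · intro J hJ
      exact if_neg hJ
    · intro u v huv J
      by_cases hJ : ∀ k, (J k).2 = b k
      · refine Eq.trans (Finset.sum_congr rfl fun k _ => ?_) (Inv_of h u v huv J)
        have key : ∀ x y : Fin n × Fin N, x.2 = y.2 →
            QJ n N x (J k) * (if ∀ k', (Function.update J k y k').2 = b k' then F (Function.update J k y) else 0) =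
              QJ n N x (J k) * F (Function.update J k y) := by
          intro x y hxy
          by_cases hx : x.2 = (J k).2
          · rw [if_pos]
            intro k'
            by_cases hk : k' = k
            · subst hk
              rw [Function.update_self, ← hxy, hx, hJ]
            · rw [Function.update_of_ne hk, hJ]
          · rw [QJ_apply, if_neg hx, zero_mul, zero_mul]
        simp only [smul_eq_mul]
        rw [key v u huv.symm]
        have h2 := key u v huv
        push_cast
        linear_combination h2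
      · refine Finset.sum_eq_zero fun k _ => ?_
        have key : ∀ x y : Fin n × Fin N, x.2 = y.2 →
            QJ n N x (J k) * (if ∀ k', (Function.update J k y k').2 = b k' then F (Function.update J k y) else 0) = 0 := by
          intro x y hxy
          by_cases hx : x.2 = (J k).2
          · rw [if_neg, mul_zero]
            intro h1
            apply hJ
            intro k'
            by_cases hk : k' = k
            · subst hk
              have := h1 k'
              rwa [Function.update_self, ← hxy, hx] at this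
            · have := h1 k'
              rwa [Function.update_of_ne hk] at this
          · rw [QJ_apply, if_neg hx, zero_mul]
        simp only [smul_eq_mul]
        rw [key v u huv.symm]
        have h2 := key u v huv
        push_cast
        linear_combination h2
    · intro i hi
      exact absurd hi (by norm_num)
  unfold Gen at hgen
  have hle : Submodule.span ℚ {g | ∃ (m : ℕ) (e : Fin m × Fin 2 ≃ κ) (w : ℚ), g = gen Prod.snd (QJ n N) b e w} ≤
      Submodule.span ℚ {G | ∃ (e : Fin m × Fin 2 ≃ κ) (b : Fin m → Fin N), G = pr n e b} := by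
    rw [Submodule.span_le]
    rintro _ ⟨m', e, w, rfl⟩
    exact gen_mem b e w hm
  exact hle hgen

/-- the products of polarisations are classes -/
theorem pr_cls (hc : (c, lam) ∈ Tor Q) (hQ : ∀ j a b, Q j a b ∈ K) (e : Fin m × Fin 2 ≃ κ) (b : Fin m → Fin N) :
    ∃ a : (κ → Fin n × Fin N) → ℂ, (∀ I, a I ∈ K) ∧ Cls c lam m a (pr n e b) := by
  have hB : ∀ j, bd c * bd (Pi.single j (Q j)) * (bd c)ᵀ = lam • bd (Pi.single j (jm ℂ n)) := by
    intro j
    have h1 : (bd c)ᵀ = bd (fun j => (c j)ᵀ) := blockDiagonal_transpose _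
    rw [h1, bd_mul, bd_mul]
    show bd _ = lam • blockDiagonal _
    rw [← blockDiagonal_smul]
    congr 1
    funext k
    by_cases h : k = j
    · subst h
      rw [Pi.single_eq_same, Pi.smul_apply, Pi.single_eq_same]
      exact hc.2 k
    · rw [Pi.single_eq_of_ne h, Pi.smul_apply, Pi.single_eq_of_ne h, mul_zero, zero_mul, smul_zero]
  refine ⟨fun I => ∏ l, bd (Pi.single (b l) (Q (b l))) (I (e (l, 0))) (I (e (l, 1))), fun I => ?_, fun I => ?_⟩
  · refine Subfield.prod_mem _ fun l _ => ?_
    rw [bd_single]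
    split_ifs
    · exact hQ _ _ _
    · exact K.zero_mem
  · have h1 : lam ^ m * ((pr n e b I : ℚ) : ℂ) = ∏ l, (lam • bd (Pi.single (b l) (jm ℂ n))) (I (e (l, 0))) (I (e (l, 1))) := by
      unfold pr
      push_cast
      simp only [Matrix.smul_apply, smul_eq_mul, Finset.prod_mul_distrib, Finset.prod_const, Finset.card_univ,
        Fintype.card_fin, WJ_cast]
    rw [h1]
    have h2 : ∀ l, (lam • bd (Pi.single (b l) (jm ℂ n))) (I (e (l, 0))) (I (e (l, 1))) =
        ∑ y : Fin 2 → Fin n × Fin N, bd c (I (e (l, 0))) (y 0) * bd c (I (e (l, 1))) (y 1) *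
          bd (Pi.single (b l) (Q (b l))) (y 0) (y 1) := by
      intro l
      rw [← hB (b l), Matrix.mul_apply]
      simp only [Matrix.mul_apply, Matrix.transpose_apply, Finset.sum_mul]
      rw [Finset.sum_comm, ← Fintype.sum_prod_type']
      refine Fintype.sum_equiv (finTwoArrowEquiv _).symm _ _ ?_
      rintro ⟨p, q⟩
      simp only [finTwoArrowEquiv_symm_apply, Matrix.cons_val_zero, Matrix.cons_val_one]
      ring
    rw [Finset.prod_congr rfl (fun l _ => h2 l), Finset.prod_univ_sum, Fintype.piFinset_univ]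
    refine Fintype.sum_equiv ((Equiv.curry (Fin m) (Fin 2) (Fin n × Fin N)).symm.trans
      (Equiv.arrowCongr e (Equiv.refl _))) _ _ ?_
    intro y
    have h3 : ∀ l i, ((Equiv.curry (Fin m) (Fin 2) (Fin n × Fin N)).symm.trans
      (Equiv.arrowCongr e (Equiv.refl _))) y (e (l, i)) = y l i := by
      intro l i
      simp [Equiv.arrowCongr]
    rw [← Equiv.prod_comp e, Fintype.prod_prod_type]
    simp only [Fin.prod_univ_two, h3, Finset.prod_mul_distrib]

/-- combinations of products of polarisations are classes -/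
theorem cls_of_span (hc : (c, lam) ∈ Tor Q) (hQ : ∀ j a b, Q j a b ∈ K) {F : (κ → Fin n × Fin N) → ℚ}
    (h : F ∈ Submodule.span ℚ {G | ∃ (e : Fin m × Fin 2 ≃ κ) (b : Fin m → Fin N), G = pr n e b}) :
    ∃ a : (κ → Fin n × Fin N) → ℂ, (∀ I, a I ∈ K) ∧ Cls c lam m a F := by
  induction h using Submodule.span_induction with
  | mem G hG =>
    obtain ⟨e, b, rfl⟩ := hG
    exact pr_cls hc hQ e b
  | zero =>
    refine ⟨0, fun _ => K.zero_mem, fun I => ?_⟩
    simp
  | add x y _ _ hx hy =>
    obtain ⟨a, ha, h1⟩ := hx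
    obtain ⟨a', ha', h2⟩ := hy
    refine ⟨a + a', fun I => K.add_mem (ha I) (ha' I), fun I => ?_⟩
    simp only [Pi.add_apply, mul_add, Finset.sum_add_distrib]
    rw [← h1 I, ← h2 I]
    push_cast
    ring
  | smul r x _ hx =>
    obtain ⟨a, ha, h1⟩ := hx
    refine ⟨(r : ℂ) • a, fun I => K.mul_mem (SubfieldClass.ratCast_mem K r) (ha I), fun I => ?_⟩
    simp only [Pi.smul_apply, smul_eq_mul]
    have : ∀ I', (∏ k, bd c (I k) (I' k)) * ((r : ℂ) * a I') = r * ((∏ k, bd c (I k) (I' k)) * a I') := by
      intro I'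
      ring
    rw [Finset.sum_congr rfl (fun I' _ => this I'), ← Finset.mul_sum, ← h1 I]
    push_cast
    ring

/-- **Main theorem.** The de Rham-Betti classes are the combinations of products of polarisations. -/
theorem cls_iff_span (hn : Even n) (hn0 : 0 < n) (hN : 0 < N) (hK : ∀ x ∈ K, IsAlgebraic ℚ x)
    (hQ : ∀ j a b, Q j a b ∈ K) (hc : (c, lam) ∈ Tor Q) (hlam : Transcendental ℚ lam)
    (hnon : ∀ j, ¬ ∃ (ν : ℂ) (a : Matrix (Fin n) (Fin n) ℂ), (∀ i k, IsAlgebraic ℚ (a i k)) ∧ c j = ν • a)
    (hq : NoQuad K Q c) (F : (κ → Fin n × Fin N) → ℚ) :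
    (∃ a : (κ → Fin n × Fin N) → ℂ, (∀ I, a I ∈ K) ∧ Cls c lam m a F) ↔
      F ∈ Submodule.span ℚ {G | ∃ (e : Fin m × Fin 2 ≃ κ) (b : Fin m → Fin N), G = pr n e b} := by
  constructor
  · rintro ⟨a, ha, hF⟩
    by_cases h0 : F = 0
    · rw [h0]
      exact Submodule.zero_mem _
    · have hall := cls_all hn hn0 hN hK hQ hc hlam hnon hq ha hF
      exact span_of hn (deg_of hc hall h0) (fun g hg => inv_of hc hall hg)
  · intro h
    exact cls_of_span hc hQ h

end Pool.Agent.Y123.ST
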