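import Mathlib
import Pool.Agent.TH119.MX.Gal
import Pool.Agent.H135R2.VS.Der
import Pool.Agent.TH127.PT.Defs

/-!
# Directional derivatives of polynomials, and the Lie algebras of a subtorsor
-/

set_option autoImplicit false
set_option linter.unusedSectionVars false

open Matrix MvPolynomial

namespace Pool.Agent.Y123.ST

open Pool.Agent.TH127.PT Pool.Agent.TH119.MX Pool.Agent.TH119.DR

section dd

variable {B : Type*} [Fintype B]

/-- the derivative of `P` at `x` in the direction `v` -/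
noncomputable def dd (P : MvPolynomial B ℂ) (x v : B → ℂ) : ℂ := ∑ b, eval x (pderiv b P) * v b

theorem dd_C (a : ℂ) (x v : B → ℂ) : dd (C a) x v = 0 := by
  simp [dd]

theorem dd_X (b : B) (x v : B → ℂ) : dd (X b) x v = v b := by
  classical
  unfold dd
  rw [Finset.sum_eq_single b]
  · simp
  · intro k _ hk
    rw [pderiv_X_of_ne hk.symm]
    simp
  · intro h
    exact absurd (Finset.mem_univ _) h

theorem dd_add (P Q : MvPolynomial B ℂ) (x v : B → ℂ) : dd (P + Q) x v = dd P x v + dd Q x v := by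
  unfold dd
  rw [← Finset.sum_add_distrib]
  refine Finset.sum_congr rfl fun b _ => ?_
  rw [map_add, map_add, add_mul]

theorem dd_mul (P Q : MvPolynomial B ℂ) (x v : B → ℂ) :
    dd (P * Q) x v = dd P x v * eval x Q + eval x P * dd Q x v := by
  unfold dd
  rw [Finset.sum_mul, Finset.mul_sum, ← Finset.sum_add_distrib]
  refine Finset.sum_congr rfl fun b _ => ?_
  rw [pderiv_mul, map_add, map_mul, map_mul]
  ring

theorem dd_smul (a : ℂ) (P : MvPolynomial B ℂ) (x v : B → ℂ) : dd (a • P) x v = a * dd P x v := by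
  rw [MvPolynomial.smul_eq_C_mul, dd_mul, dd_C, eval_C, zero_mul, zero_add]

theorem dd_sum {ι : Type*} (s : Finset ι) (P : ι → MvPolynomial B ℂ) (x v : B → ℂ) :
    dd (∑ i ∈ s, P i) x v = ∑ i ∈ s, dd (P i) x v := by
  classical
  induction s using Finset.induction_on with
  | empty => simp [dd]
  | insert a s ha ih => rw [Finset.sum_insert ha, Finset.sum_insert ha, dd_add, ih]

theorem dd_add_right (P : MvPolynomial B ℂ) (x v w : B → ℂ) : dd P x (v + w) = dd P x v + dd P x w := by
  unfold dd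
  rw [← Finset.sum_add_distrib]
  refine Finset.sum_congr rfl fun b _ => ?_
  rw [Pi.add_apply, mul_add]

theorem dd_smul_right (P : MvPolynomial B ℂ) (x v : B → ℂ) (a : ℂ) : dd P x (a • v) = a * dd P x v := by
  unfold dd
  rw [Finset.mul_sum]
  refine Finset.sum_congr rfl fun b _ => ?_
  rw [Pi.smul_apply, smul_eq_mul]
  ring

theorem dd_zero_right (P : MvPolynomial B ℂ) (x : B → ℂ) : dd P x 0 = 0 := by
  simp [dd]

/-- the linear substitution -/
noncomputable def sb (L : (B → ℂ) →ₗ[ℂ] (B → ℂ)) [DecidableEq B] (b : B) : MvPolynomial B ℂ :=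
  ∑ k, C (L (Pi.single k 1) b) * X k

variable [DecidableEq B]

theorem lin_apply (L : (B → ℂ) →ₗ[ℂ] (B → ℂ)) (y : B → ℂ) (b : B) :
    L y b = ∑ k, L (Pi.single k 1) b * y k := by
  conv_lhs => rw [LinearMap.pi_apply_eq_sum_univ L y]
  rw [Finset.sum_apply]
  refine Finset.sum_congr rfl fun k _ => ?_
  have h : (fun j => if k = j then (1 : ℂ) else 0) = Pi.single k 1 := by
    funext j
    simp [Pi.single_apply, eq_comm]
  rw [Pi.smul_apply, smul_eq_mul, mul_comm, h]

theorem eval_sb (L : (B → ℂ) →ₗ[ℂ] (B → ℂ)) (y : B → ℂ) (b : B) : eval y (sb L b) = L y b := by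
  rw [lin_apply L y b]
  simp [sb]

theorem dd_sb (L : (B → ℂ) →ₗ[ℂ] (B → ℂ)) (y v : B → ℂ) (b : B) : dd (sb L b) y v = L v b := by
  rw [lin_apply L v b]
  unfold sb
  rw [dd_sum]
  refine Finset.sum_congr rfl fun k _ => ?_
  rw [dd_mul, dd_C, dd_X, eval_C, zero_mul, zero_add]

/-- the composition with a linear map -/
noncomputable def cp (L : (B → ℂ) →ₗ[ℂ] (B → ℂ)) (P : MvPolynomial B ℂ) : MvPolynomial B ℂ := bind₁ (sb L) P

theorem eval_cp (L : (B → ℂ) →ₗ[ℂ] (B → ℂ)) (P : MvPolynomial B ℂ) (y : B → ℂ) :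
    eval y (cp L P) = eval (L y) P := by
  unfold cp
  induction P using MvPolynomial.induction_on with
  | C a => rw [bind₁_C_right, eval_C, eval_C]
  | add p q hp hq => rw [map_add, map_add, map_add, hp, hq]
  | mul_X p b hp => rw [map_mul, map_mul, map_mul, hp, bind₁_X_right, eval_X, eval_sb]

theorem dd_cp (L : (B → ℂ) →ₗ[ℂ] (B → ℂ)) (P : MvPolynomial B ℂ) (y v : B → ℂ) :
    dd (cp L P) y v = dd P (L y) (L v) := by
  unfold cp
  induction P using MvPolynomial.induction_on with
  | C a => rw [bind₁_C_right, dd_C, dd_C]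
  | add p q hp hq => rw [map_add, dd_add, dd_add, hp, hq]
  | mul_X p b hp =>
    have h := eval_cp L p y
    unfold cp at h
    rw [map_mul, bind₁_X_right, dd_mul, dd_mul, hp, h, dd_sb, dd_X, eval_sb, eval_X]

/-- derivations of the complex numbers over `K` and polynomials over `K` -/
theorem dd_der {K : Subfield ℂ} (D : Derivation K ℂ ℂ) (P : MvPolynomial B K) (x : B → ℂ) :
    dd (P.map (algebraMap K ℂ)) x (fun b => D (x b)) = D (eval x (P.map (algebraMap K ℂ))) := by
  induction P using MvPolynomial.induction_on with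
  | C a => rw [map_C, dd_C, eval_C, D.map_algebraMap]
  | add p q hp hq => rw [map_add, dd_add, hp, hq, map_add, map_add]
  | mul_X p b hp =>
    rw [map_mul, map_X, dd_mul, hp, dd_X, eval_X, map_mul, eval_X, D.leibniz, smul_eq_mul, smul_eq_mul]
    ring

theorem exists_map {K : Subfield ℂ} (P : MvPolynomial B ℂ) (hP : ∀ m, P.coeff m ∈ K) :
    ∃ P0 : MvPolynomial B K, P0.map (algebraMap K ℂ) = P := by
  classical
  refine ⟨∑ m ∈ P.support, monomial m (⟨P.coeff m, hP m⟩ : K), ?_⟩
  rw [map_sum]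
  conv_rhs => rw [P.as_sum]
  refine Finset.sum_congr rfl fun m _ => ?_
  rw [map_monomial]
  rfl

theorem dd_der' {K : Subfield ℂ} (D : Derivation K ℂ ℂ) (P : MvPolynomial B ℂ) (hP : ∀ m, P.coeff m ∈ K)
    (x : B → ℂ) : dd P x (fun b => D (x b)) = D (eval x P) := by
  obtain ⟨P0, rfl⟩ := exists_map P hP
  exact dd_der D P0 x

theorem dd_aut (σ : ℂ ≃+* ℂ) (P : MvPolynomial B ℂ) (x v : B → ℂ) :
    σ (dd P x v) = dd (P.map (σ : ℂ →+* ℂ)) (fun b => σ (x b)) (fun b => σ (v b)) := by
  unfold dd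
  rw [map_sum]
  refine Finset.sum_congr rfl fun b _ => ?_
  rw [map_mul]
  congr 1
  rw [pderiv_map, eval_map, eval₂_eq', eval_eq', map_sum]
  refine Finset.sum_congr rfl fun m _ => ?_
  rw [map_mul, map_prod]
  simp

theorem eval_aut' (σ : ℂ ≃+* ℂ) (P : MvPolynomial B ℂ) (x : B → ℂ) :
    σ (eval x P) = eval (fun b => σ (x b)) (P.map (σ : ℂ →+* ℂ)) := by
  rw [eval_map, eval₂_eq', eval_eq', map_sum]
  refine Finset.sum_congr rfl fun m _ => ?_
  rw [map_mul, map_prod]
  simp

end dd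

end Pool.Agent.Y123.ST
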