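import Pool.Agent.Y123.ST.Lie

/-!
# One-parameter subgroups in a subtorsor
-/

set_option autoImplicit false
set_option linter.unusedSectionVars false

open Matrix MvPolynomial

namespace Pool.Agent.Y123.ST

open Pool.Agent.TH127.PT Pool.Agent.TH119.MX Pool.Agent.TH119.DR

/-- vanishing of infinite order -/
theorem all_zero {Ty : Type*} (S : Ty → Prop) (f : Ty → Polynomial ℂ) (D : Ty → Ty) (a : ℂ) (u : Polynomial ℂ)
    (hu : u.eval a ≠ 0) (hroot : ∀ P, S P → (f P).eval a = 0) (hD : ∀ P, S P → S (D P))
    (hf : ∀ P, S P → f (D P) = u * Polynomial.derivative (f P)) : ∀ P, S P → f P = 0 := by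
  have key : ∀ m : ℕ, ∀ P, S P → f P ≠ 0 → (f P).rootMultiplicity a = m → False := by
    intro m
    induction m with
    | zero =>
      intro P hP h0 hm
      have h1 : 0 < (f P).rootMultiplicity a := (Polynomial.rootMultiplicity_pos h0).2 (hroot P hP)
      omega
    | succ m ih =>
      intro P hP h0 hm
      have h1 : (Polynomial.derivative (f P)).rootMultiplicity a = m := by
        rw [Polynomial.derivative_rootMultiplicity_of_root (hroot P hP), hm]
        rfl
      have h2 : Polynomial.derivative (f P) ≠ 0 := by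
        intro h
        apply h0
        obtain ⟨z, hz⟩ : ∃ z, f P = Polynomial.C z :=
          ⟨_, Polynomial.eq_C_of_natDegree_eq_zero (Polynomial.derivative_eq_zero.1 h)⟩
        have h3 := hroot P hP
        rw [hz, Polynomial.eval_C] at h3
        rw [hz, h3, Polynomial.C_0]
      have hu0 : u ≠ 0 := by
        rintro rfl
        simp at hu
      have h3 : f (D P) ≠ 0 := by
        rw [hf P hP]
        exact mul_ne_zero hu0 h2
      refine ih (D P) (hD P hP) h3 ?_
      rw [hf P hP, Polynomial.rootMultiplicity_mul (mul_ne_zero hu0 h2), h1,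
        Polynomial.rootMultiplicity_eq_zero hu, zero_add]
  intro P hP
  by_contra h0
  exact key _ P hP h0 rfl

variable {N : Type} [Fintype N] [DecidableEq N]

/-- the vector field of `w` -/
noncomputable def DL (w : Matrix N N ℂ) (P : MvPolynomial (N × N) ℂ) : MvPolynomial (N × N) ℂ :=
  ∑ b, pderiv b P * sb (ml w) b

theorem eval_DL (w : Matrix N N ℂ) (P : MvPolynomial (N × N) ℂ) (y : N × N → ℂ) :
    eval y (DL w P) = dd P y (ml w y) := by
  unfold DL dd
  rw [map_sum]
  refine Finset.sum_congr rfl fun b _ => ?_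
  rw [map_mul, eval_sb]

variable {K : Subfield ℂ} {T : Set (Matrix N N ℂ)}

theorem van_DL {w : Matrix N N ℂ} (hw : fl w ∈ LL T) {P : MvPolynomial (N × N) ℂ} (hP : Van T P) :
    Van T (DL w P) := by
  intro x hx
  rw [eval_DL, ml_fl]
  exact hw P hP x hx

theorem deriv_aeval {B : Type*} [Fintype B] (g : B → Polynomial ℂ) (P : MvPolynomial B ℂ) :
    Polynomial.derivative (aeval g P) = ∑ b, aeval g (pderiv b P) * Polynomial.derivative (g b) := by
  classical
  induction P using MvPolynomial.induction_on with
  | C a => simp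
  | add p q hp hq =>
    rw [map_add, map_add, hp, hq, ← Finset.sum_add_distrib]
    refine Finset.sum_congr rfl fun b _ => ?_
    rw [map_add, map_add, add_mul]
  | mul_X p b hp =>
    rw [map_mul, Polynomial.derivative_mul, hp, aeval_X]
    have h1 : ∀ k, aeval g (pderiv k (p * X b)) * Polynomial.derivative (g k) =
        aeval g (pderiv k p) * Polynomial.derivative (g k) * g b +
          (if b = k then aeval g p * Polynomial.derivative (g b) else 0) := by
      intro k
      rw [pderiv_mul, map_add, map_mul, map_mul, aeval_X]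
      by_cases h2 : b = k
      · subst h2
        rw [pderiv_X_self, map_one, if_pos rfl]
        ring
      · rw [pderiv_X_of_ne h2, map_zero, if_neg h2]
        ring
    rw [Finset.sum_congr rfl fun k _ => h1 k, Finset.sum_add_distrib, Finset.sum_ite_eq, if_pos (Finset.mem_univ b),
      Finset.sum_mul]

theorem aeval_sb {B : Type*} [Fintype B] [DecidableEq B] (L : (B → ℂ) →ₗ[ℂ] (B → ℂ)) (y z : B → ℂ) (b : B) :
    aeval (fun k => Polynomial.C (y k) + Polynomial.X * Polynomial.C (z k)) (sb L b) =
      Polynomial.C (L y b) + Polynomial.X * Polynomial.C (L z b) := by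
  unfold sb
  rw [map_sum, lin_apply L y b, lin_apply L z b]
  rw [map_sum, map_sum, Finset.mul_sum, ← Finset.sum_add_distrib]
  refine Finset.sum_congr rfl fun k _ => ?_
  rw [map_mul, aeval_X, aeval_C, map_mul, map_mul]
  have : (algebraMap ℂ (Polynomial ℂ)) (L (Pi.single k 1) b) = Polynomial.C (L (Pi.single k 1) b) := rfl
  rw [this]
  ring

theorem eval_aeval' {B : Type*} [Fintype B] (y z : B → ℂ) (P : MvPolynomial B ℂ) (s : ℂ) :
    Polynomial.eval s (aeval (fun k => Polynomial.C (y k) + Polynomial.X * Polynomial.C (z k)) P) =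
      eval (fun k => y k + s * z k) P := by
  induction P using MvPolynomial.induction_on with
  | C a => simp
  | add p q hp hq => rw [map_add, Polynomial.eval_add, hp, hq, map_add]
  | mul_X p b hp =>
    rw [map_mul, Polynomial.eval_mul, hp, aeval_X, map_mul, eval_X]
    simp only [Polynomial.eval_add, Polynomial.eval_C, Polynomial.eval_mul, Polynomial.eval_X]

/-- nilpotent elements of square zero can be exponentiated -/
theorem exp_nil (hT : IsSubtorsor K T) {E x : Matrix N N ℂ} (hE : E * E = 0) (hEL : fl E ∈ LL T) (hx : x ∈ T)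
    (s : ℂ) : (1 + s • E) * x ∈ T := by
  have hxT := hx
  have hT' := hT
  obtain ⟨I, h1, h2⟩ := hT.algebraic
  have hIV : ∀ p ∈ I, Van T p := fun p hp y hy => ((h2 y).1 hy).2 p hp
  have hz := all_zero (Van T)
    (fun P => aeval (fun k => Polynomial.C (fl x k) + Polynomial.X * Polynomial.C (fl (E * x) k)) P) (DL E) 0 1
    (by simp) (by
      intro P hP
      have h3 := eval_aeval' (fl x) (fl (E * x)) P 0
      simp only [zero_mul, add_zero] at h3
      rw [h3]
      exact hP x hx) (fun P hP => van_DL hEL hP) (by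
      intro P _
      rw [one_mul, deriv_aeval]
      unfold DL
      rw [map_sum]
      refine Finset.sum_congr rfl fun b _ => ?_
      rw [map_mul, aeval_sb, ml_fl, ml_fl, ← Matrix.mul_assoc, hE, Matrix.zero_mul]
      congr 1
      simp [fl])
  rw [h2]
  refine ⟨?_, fun p hp => ?_⟩
  · refine IsUnit.mul ?_ (hT'.isUnit x hxT)
    refine IsUnit.of_mul_eq_one (1 - s • E) ?_
    rw [Matrix.add_mul, Matrix.mul_sub, Matrix.mul_sub, Matrix.one_mul, Matrix.mul_one, Matrix.one_mul,
      Matrix.smul_mul, Matrix.mul_smul, hE]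
    simp
  · have h3 := hz p (hIV p hp)
    have h4 := eval_aeval' (fl x) (fl (E * x)) p s
    rw [h3, Polynomial.eval_zero] at h4
    have h6 : fl ((1 + s • E) * x) = fun k => fl x k + s * fl (E * x) k := by
      funext b
      rw [Matrix.add_mul, Matrix.one_mul, Matrix.smul_mul]
      rfl
    change eval (fl ((1 + s • E) * x)) p = 0
    rw [h6, ← h4]

/-- if the scalars are in the Lie algebra, the subtorsor is stable under homotheties -/
theorem exp_one (hT : IsSubtorsor K T) {x : Matrix N N ℂ} (hEL : fl (1 : Matrix N N ℂ) ∈ LL T) (hx : x ∈ T)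
    {s : ℂ} (hs : s ≠ 0) : s • x ∈ T := by
  have hxT := hx
  have hT' := hT
  obtain ⟨I, h1, h2⟩ := hT.algebraic
  have hIV : ∀ p ∈ I, Van T p := fun p hp y hy => ((h2 y).1 hy).2 p hp
  have hz := all_zero (Van T)
    (fun P => aeval (fun k => Polynomial.C ((0 : N × N → ℂ) k) + Polynomial.X * Polynomial.C (fl x k)) P)
    (DL (1 : Matrix N N ℂ)) 1 Polynomial.X
    (by simp) (by
      intro P hP
      have h3 := eval_aeval' (0 : N × N → ℂ) (fl x) P 1
      simp only [one_mul, Pi.zero_apply, zero_add] at h3
      refine Eq.trans ?_ (hP x hx)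
      rw [← h3]
      simp only [Pi.zero_apply]) (fun P hP => van_DL hEL hP) (by
      intro P _
      rw [deriv_aeval]
      unfold DL
      rw [map_sum, Finset.mul_sum]
      refine Finset.sum_congr rfl fun b _ => ?_
      rw [map_mul, aeval_sb, ml_fl, Matrix.one_mul, map_zero]
      have h5 : ((0 : N × N → ℂ) b) = 0 := rfl
      rw [h5]
      simp
      ring)
  rw [h2]
  refine ⟨?_, fun p hp => ?_⟩
  · have h5 : s • x = (s • (1 : Matrix N N ℂ)) * x := by rw [Matrix.smul_mul, Matrix.one_mul]
    rw [h5]
    refine IsUnit.mul ?_ (hT'.isUnit x hxT)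
    refine IsUnit.of_mul_eq_one (s⁻¹ • (1 : Matrix N N ℂ)) ?_
    rw [Matrix.smul_mul, Matrix.mul_smul, Matrix.one_mul, smul_smul, mul_inv_cancel₀ hs, one_smul]
  · have h3 := hz p (hIV p hp)
    have h4 := eval_aeval' (0 : N × N → ℂ) (fl x) p s
    rw [h3, Polynomial.eval_zero] at h4
    have h6 : fl (s • x) = fun k => (0 : N × N → ℂ) k + s * fl x k := by
      funext b
      simp [fl]
    change eval (fl (s • x)) p = 0
    rw [h6, ← h4]

end Pool.Agent.Y123.ST
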