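import Pool.Agent.Y123.ST.Pt

/-!
# Subtorsors all of whose points have an algebraic block up to scalars: finiteness
-/

set_option autoImplicit false
set_option linter.unusedSectionVars false

open Matrix

namespace Pool.Agent.Y123.ST

open Pool.Agent.TH127.PT Pool.Agent.Y118.HP

variable {B : Type} [Fintype B] [DecidableEq B] {K : Subfield ℂ} {T : Set (Matrix B B ℂ)}

/-- the ideal of the polynomials which vanish on `T` -/
def VI (T : Set (Matrix B B ℂ)) : Ideal (MvPolynomial (B × B) ℂ) where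
  carrier := {P | Van T P}
  zero_mem' := fun x _ => map_zero _
  add_mem' := by
    intro P Q hP hQ x hx
    rw [map_add, hP x hx, hQ x hx, add_zero]
  smul_mem' := by
    intro P Q hQ x hx
    rw [smul_eq_mul, map_mul, hQ x hx, mul_zero]

/-- the determinant of the generic matrix -/
noncomputable def dt (B : Type) [Fintype B] [DecidableEq B] : MvPolynomial (B × B) ℂ :=
  (Matrix.of fun i j : B => (MvPolynomial.X (i, j) : MvPolynomial (B × B) ℂ)).det

theorem eval_dt (x : Matrix B B ℂ) : MvPolynomial.eval (fl x) (dt B) = x.det := by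
  unfold dt
  rw [RingHom.map_det]
  congr 1
  ext i j
  simp [fl]

theorem dt_notMem (hT : IsSubtorsor K T) {P : Ideal (MvPolynomial (B × B) ℂ)} (hP : P ∈ (VI T).minimalPrimes) :
    dt B ∉ P := by
  intro h
  obtain ⟨y, hy, hxy⟩ := Ideal.exists_mul_mem_of_mem_minimalPrimes hP h
  apply hy
  intro x hx
  have h1 : MvPolynomial.eval (fl x) (dt B * y) = 0 := by
    first
      | exact hxy x hx
      | (rw [mul_comm]; exact hxy x hx)
  rw [map_mul, eval_dt] at h1
  exact (mul_eq_zero.1 h1).resolve_left ((Matrix.isUnit_iff_isUnit_det x).1 (hT.isUnit x hx)).ne_zero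

/-- points of the components -/
theorem exists_pt (hT : IsSubtorsor K T) {P : Ideal (MvPolynomial (B × B) ℂ)} (hP : P ∈ (VI T).minimalPrimes)
    {β : Type} [Countable β] (F : β → MvPolynomial (B × B) ℂ) (hF : ∀ i, F i ∉ P) :
    ∃ x ∈ T, ∀ i, MvPolynomial.eval (fl x) (F i) ≠ 0 := by
  have hprime : P.IsPrime := hP.1.1
  have hle : VI T ≤ P := hP.1.2
  obtain ⟨y, hy1, hy2⟩ := exists_point P (fun o : Option β => o.elim (dt B) F) (by
    rintro (_ | i)
    · exact dt_notMem hT hP
    · exact hF i)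
  have hfl : fl (um y) = y := fl_um y
  obtain ⟨I, hI1, hI2⟩ := hT.algebraic
  refine ⟨um y, ?_, fun i => ?_⟩
  · rw [hI2]
    refine ⟨?_, fun p hp => ?_⟩
    · rw [Matrix.isUnit_iff_isUnit_det, isUnit_iff_ne_zero, ← eval_dt, hfl]
      exact hy2 none
    · exact hy1 p (hle fun x hx => ((hI2 x).1 hx).2 p hp)
  · rw [hfl]
    exact hy2 (some i)

theorem finite_class {n N : ℕ} {T : Set (Matrix (Fin n × Fin N) (Fin n × Fin N) ℂ)} (hT : IsSubtorsor K T) (j : Fin N)
    (hTb : ∀ y ∈ T, ∃ X : Fin N → Matrix (Fin n) (Fin n) ℂ, y = bd X ∧ X j ≠ 0 ∧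
      ∃ (ν : ℂ) (a : Matrix (Fin n) (Fin n) ℂ), (∀ i k, IsAlgebraic ℚ (a i k)) ∧ X j = ν • a) :
    ∃ S : Set (Matrix (Fin n) (Fin n) ℂ), S.Finite ∧ ∀ X : Fin N → Matrix (Fin n) (Fin n) ℂ, bd X ∈ T →
      ∃ A ∈ S, ∃ ν : ℂ, X j = ν • A := by
  classical
  have hfin : (VI T).minimalPrimes.Finite := Ideal.finite_minimalPrimes_of_isNoetherianRing _ _
  have hcount : Countable {α : ℂ // IsAlgebraic ℚ α} := (Algebraic.countable ℚ ℂ).to_subtype
  have hbl : ∀ (X : Fin N → Matrix (Fin n) (Fin n) ℂ) (p q : Fin n), fl (bd X) ((p, j), (q, j)) = X j p q := by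
    intro X p q
    show blockDiagonal X (p, j) (q, j) = X j p q
    rw [blockDiagonal_apply_eq]
  -- each component
  have key : ∀ P ∈ (VI T).minimalPrimes, ∃ A : Matrix (Fin n) (Fin n) ℂ, ∀ X : Fin N → Matrix (Fin n) (Fin n) ℂ,
      bd X ∈ T → (∀ f ∈ P, MvPolynomial.eval (fl (bd X)) f = 0) → ∃ ν : ℂ, X j = ν • A := by
    intro P hP
    obtain ⟨x0, hx0, -⟩ := exists_pt hT hP (fun i : Empty => i.elim) (fun i => i.elim)
    -- a coordinate which is not in the ideal
    have h1 : ∃ p q : Fin n, (MvPolynomial.X ((p, j), (q, j)) :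
        MvPolynomial ((Fin n × Fin N) × (Fin n × Fin N)) ℂ) ∉ P := by
      by_contra hcon
      push Not at hcon
      have hprime : P.IsPrime := hP.1.1
      -- a point on the component
      obtain ⟨y, hy1, hy2⟩ := exists_point P (fun _ : Unit => dt (Fin n × Fin N)) (fun _ => dt_notMem hT hP)
      have hle : VI T ≤ P := hP.1.2
      obtain ⟨I, hI1, hI2⟩ := hT.algebraic
      have hyT : um y ∈ T := by
        rw [hI2]
        refine ⟨?_, fun p hp => ?_⟩
        · rw [Matrix.isUnit_iff_isUnit_det, isUnit_iff_ne_zero, ← eval_dt, fl_um]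
          exact hy2 ()
        · exact hy1 p (hle fun x hx => ((hI2 x).1 hx).2 p hp)
      obtain ⟨X, hX, hX0, -⟩ := hTb _ hyT
      apply hX0
      ext p q
      rw [← hbl X p q, ← hX, fl_um]
      have := hy1 _ (hcon p q)
      rwa [MvPolynomial.eval_X] at this
    obtain ⟨p, q, hpq⟩ := h1
    have h2 : ∀ p' q' : Fin n, ∃ α : ℂ, (MvPolynomial.X ((p', j), (q', j)) -
        MvPolynomial.C α * MvPolynomial.X ((p, j), (q, j)) :
        MvPolynomial ((Fin n × Fin N) × (Fin n × Fin N)) ℂ) ∈ P := by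
      intro p' q'
      by_contra hcon
      push Not at hcon
      obtain ⟨x, hx, hx2⟩ := exists_pt hT hP (fun o : Option {α : ℂ // IsAlgebraic ℚ α} =>
        o.elim (MvPolynomial.X ((p, j), (q, j))) (fun α => MvPolynomial.X ((p', j), (q', j)) -
          MvPolynomial.C α.1 * MvPolynomial.X ((p, j), (q, j)))) (by
        rintro (_ | α)
        · exact hpq
        · exact hcon α.1)
      obtain ⟨X, rfl, hX0, ν, a, ha, hXa⟩ := hTb _ hx
      have h3 := hx2 none
      simp only [Option.elim_none, MvPolynomial.eval_X] at h3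
      rw [hbl, hXa, Matrix.smul_apply, smul_eq_mul] at h3
      have hν : ν ≠ 0 := left_ne_zero_of_mul h3
      have hapq : a p q ≠ 0 := right_ne_zero_of_mul h3
      have h4 := hx2 (some ⟨a p' q' / a p q, (ha p' q').mul (ha p q).inv⟩)
      simp only [Option.elim_some, map_sub, map_mul, MvPolynomial.eval_X, MvPolynomial.eval_C] at h4
      rw [hbl, hbl, hXa, Matrix.smul_apply, Matrix.smul_apply, smul_eq_mul, smul_eq_mul] at h4
      apply h4
      field_simp
      ring
    choose α hα using h2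
    refine ⟨Matrix.of α, fun X hX hXP => ⟨X j p q, ?_⟩⟩
    ext p' q'
    have h3 := hXP _ (hα p' q')
    rw [map_sub, map_mul, MvPolynomial.eval_X, MvPolynomial.eval_X, MvPolynomial.eval_C, hbl, hbl, sub_eq_zero] at h3
    rw [h3, Matrix.smul_apply, Matrix.of_apply, smul_eq_mul, mul_comm]
  choose! A hA using key
  refine ⟨A '' (VI T).minimalPrimes, hfin.image _, fun X hX => ?_⟩
  -- a component which contains the point
  have hker : VI T ≤ RingHom.ker (MvPolynomial.eval (fl (bd X)) :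
      MvPolynomial ((Fin n × Fin N) × (Fin n × Fin N)) ℂ →+* ℂ) := by
    intro P hP
    exact hP _ hX
  have hkp : (RingHom.ker (MvPolynomial.eval (fl (bd X)) :
      MvPolynomial ((Fin n × Fin N) × (Fin n × Fin N)) ℂ →+* ℂ)).IsPrime := RingHom.ker_isPrime _
  obtain ⟨P, hP, hPk⟩ := Ideal.exists_minimalPrimes_le hker
  exact ⟨A P, ⟨P, hP, rfl⟩, hA P hP X hX fun f hf => hPk hf⟩

end Pool.Agent.Y123.ST
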