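import Pool.Agent.Y123.ST.Main

/-!
# Subtorsors which contain a point without quadratic relations are full
-/

set_option autoImplicit false
set_option linter.unusedSectionVars false

open Matrix

namespace Pool.Agent.Y123.ST

open Pool.Agent.TH127.PT Pool.Agent.Y118.HP

variable {n N : ℕ} {K : Subfield ℂ} {T : Set (Matrix (Fin n × Fin N) (Fin n × Fin N) ℂ)}
  {Q c : Fin N → Matrix (Fin n) (Fin n) ℂ} {lam : ℂ}

/-- every homogeneous quadratic relation over `K` at `c` holds on the torsor -/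
def NoQuad (K : Subfield ℂ) (Q c : Fin N → Matrix (Fin n) (Fin n) ℂ) : Prop :=
  ∀ P : MvPolynomial (Fin N × Fin n × Fin n) ℂ, (∀ m, P.coeff m ∈ K) → P.IsHomogeneous 2 →
    MvPolynomial.eval (cd c) P = 0 → ∀ x ∈ Tor Q, MvPolynomial.eval (cd x.1) P = 0

theorem bd_mul (X Y : Fin N → Matrix (Fin n) (Fin n) ℂ) : bd X * bd Y = bd (fun j => X j * Y j) :=
  (blockDiagonal_mul X Y).symm

theorem cstab (hn : Even n) (hT : IsSubtorsor K T) (hQ : ∀ j a b, Q j a b ∈ K) (hc : (c, lam) ∈ Tor Q)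
    (hcT : bd c ∈ T) (hq : NoQuad K Q c) : CStab T := by
  intro g h hg hh hgh w hw
  have hbd1 : bd g * bd h = 1 := by
    rw [bd_mul]
    have : (fun j => g j * h j) = 1 := funext hgh
    rw [this]
    exact blockDiagonal_one
  have hbd2 : bd h * bd g = 1 := mul_eq_one_comm.1 hbd1
  set x : Fin N → Matrix (Fin n) (Fin n) ℂ := fun j => h j * c j with hx
  have hxT : (x, lam) ∈ Tor Q := by
    refine ⟨hc.1, fun j => ?_⟩
    have h1 := hc.2 j
    have h2 : h j * jm ℂ n * (h j)ᵀ = jm ℂ n := hh j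
    simp only at h1 ⊢
    rw [hx]
    simp only
    rw [transpose_mul]
    calc h j * c j * Q j * ((c j)ᵀ * (h j)ᵀ) = h j * (c j * Q j * (c j)ᵀ) * (h j)ᵀ := by
          simp only [Matrix.mul_assoc]
      _ = lam • jm ℂ n := by rw [h1, Matrix.mul_smul, Matrix.smul_mul, h2]
  have h3 : fl ((bd x)⁻¹ * w * bd x) ∈ RR T := by
    refine conj_of_rel hT hcT ?_ hw
    intro A u hA hu h4
    have h5 := RP_deg hn hQ hA hu
    have h6 := hq (RP Q A u) (PK_coeff h5.1) h5.2 (by rw [RP_eval hn A u hc, h4, mul_zero]) (x, lam) hxT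
    simp only at h6
    rw [RP_eval hn A u hxT] at h6
    exact (mul_eq_zero.1 h6).resolve_left hc.1
  have h7 := conj_mem' hT hcT h3
  have hxe : bd x = bd h * bd c := (bd_mul h c).symm
  have hxi : (bd x)⁻¹ = (bd c)⁻¹ * bd g := by
    rw [hxe, Matrix.mul_inv_rev]
    congr 1
    exact inv_eq_left_inv hbd1
  rw [hxi, hxe] at h7
  have h8 : bd c * ((bd c)⁻¹ * bd g * w * (bd h * bd c)) * (bd c)⁻¹ = bd g * w * bd h := by
    have h9 := mul_inv' hT hcT
    calc bd c * ((bd c)⁻¹ * bd g * w * (bd h * bd c)) * (bd c)⁻¹ =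
        (bd c * (bd c)⁻¹) * (bd g * w * bd h) * (bd c * (bd c)⁻¹) := by simp only [Matrix.mul_assoc]
      _ = bd g * w * bd h := by rw [h9, Matrix.one_mul, Matrix.mul_one]
  rw [h8] at h7
  exact h7

/-- the logarithmic derivative -/
noncomputable def ld (D : Derivation K ℂ ℂ) (c : Fin N → Matrix (Fin n) (Fin n) ℂ) (j : Fin N) :
    Matrix (Fin n) (Fin n) ℂ := (c j).map D * (c j)⁻¹

theorem bd_inv (hn : Even n) (hc : (c, lam) ∈ Tor Q) : (bd c)⁻¹ = bd (fun j => (c j)⁻¹) := by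
  apply inv_eq_right_inv
  rw [bd_mul]
  have : (fun j => c j * (c j)⁻¹) = 1 := by
    funext j
    exact mul_nonsing_inv _ (tor_det hn hc.1 (hc.2 j)).1
  rw [this]
  exact blockDiagonal_one

theorem ld_mem (hn : Even n) (hT : IsSubtorsor K T) (hc : (c, lam) ∈ Tor Q) (hcT : bd c ∈ T)
    (D : Derivation K ℂ ℂ) : fl (bd (ld D c)) ∈ LL T := by
  have h1 := logder_mem hT D hcT
  rw [bd_inv hn hc] at h1
  have h2 : (bd c).map D = bd (fun j => (c j).map D) := by
    show (blockDiagonal c).map D = blockDiagonal _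
    rw [blockDiagonal_map _ _ (map_zero D)]
  rw [h2, bd_mul] at h1
  exact h1

theorem ld_rel (hn : Even n) (hQ : ∀ j a b, Q j a b ∈ K) (hc : (c, lam) ∈ Tor Q) (D : Derivation K ℂ ℂ)
    (j : Fin N) : ld D c j * jm ℂ n + jm ℂ n * (ld D c j)ᵀ = (D lam / lam) • jm ℂ n := by
  obtain ⟨hl, hc2⟩ := hc
  simp only at hl hc2
  have h1 := hc2 j
  obtain ⟨hdet, hinv⟩ := tor_det hn hl h1
  have h2 := congrArg (fun M => M.map D) h1
  rw [map_der_mul, map_der_mul, map_der_zero D (hQ j), Matrix.mul_zero, add_zero, map_der_smul D lam (jm_mem K),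
    transpose_map_der] at h2
  have hcc : c j * (c j)⁻¹ = 1 := mul_nonsing_inv _ hdet
  have hcc' : (c j)⁻¹ * c j = 1 := nonsing_inv_mul _ hdet
  have h3 : Q j * (c j)ᵀ = lam • ((c j)⁻¹ * jm ℂ n) := by
    calc Q j * (c j)ᵀ = (c j)⁻¹ * (c j * Q j * (c j)ᵀ) := by
          rw [← Matrix.mul_assoc, ← Matrix.mul_assoc, hcc', Matrix.one_mul]
      _ = lam • ((c j)⁻¹ * jm ℂ n) := by rw [h1, Matrix.mul_smul]
  have h4 : c j * Q j = lam • (jm ℂ n * ((c j)⁻¹)ᵀ) := by
    have h5 : (c j)ᵀ * ((c j)⁻¹)ᵀ = 1 := by rw [← transpose_mul, hcc', transpose_one]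
    calc c j * Q j = c j * Q j * (c j)ᵀ * ((c j)⁻¹)ᵀ := by
          rw [Matrix.mul_assoc (c j * Q j), h5, Matrix.mul_one]
      _ = lam • (jm ℂ n * ((c j)⁻¹)ᵀ) := by rw [h1, Matrix.smul_mul]
  rw [Matrix.mul_assoc, h3, h4, Matrix.mul_smul, Matrix.smul_mul] at h2
  unfold ld
  rw [transpose_mul]
  have h6 : lam • ((c j).map D * (c j)⁻¹ * jm ℂ n + jm ℂ n * (((c j)⁻¹)ᵀ * ((c j).map D)ᵀ)) = D lam • jm ℂ n := by
    rw [← h2, smul_add, Matrix.mul_assoc, Matrix.mul_assoc]
  calc (c j).map D * (c j)⁻¹ * jm ℂ n + jm ℂ n * (((c j)⁻¹)ᵀ * ((c j).map D)ᵀ) =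
      lam⁻¹ • (lam • ((c j).map D * (c j)⁻¹ * jm ℂ n + jm ℂ n * (((c j)⁻¹)ᵀ * ((c j).map D)ᵀ))) := by
        rw [smul_smul, inv_mul_cancel₀ hl, one_smul]
    _ = (D lam / lam) • jm ℂ n := by
        rw [h6, smul_smul]
        congr 1
        field_simp

/-- a matrix which is not proportional to a matrix with algebraic entries has a derivation with non scalar logarithmic
derivative -/
theorem exists_ld (hn : Even n) (hK : ∀ x ∈ K, IsAlgebraic ℚ x) (hc : (c, lam) ∈ Tor Q) (j : Fin N)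
    (hnon : ¬ ∃ (ν : ℂ) (a : Matrix (Fin n) (Fin n) ℂ), (∀ i k, IsAlgebraic ℚ (a i k)) ∧ c j = ν • a) :
    ∃ D : Derivation K ℂ ℂ, ∀ z : ℂ, ld D c j ≠ z • (1 : Matrix (Fin n) (Fin n) ℂ) := by
  have hdet := (tor_det hn hc.1 (hc.2 j)).1
  obtain ⟨a0, b0, h0⟩ : ∃ a0 b0, c j a0 b0 ≠ 0 := by
    by_contra hcon
    push Not at hcon
    apply hnon
    refine ⟨0, 0, fun i k => ?_, ?_⟩
    · rw [Matrix.zero_apply]; exact isAlgebraic_zero
    · rw [zero_smul]
      ext a b
      exact hcon a b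
  obtain ⟨a, b, hab⟩ : ∃ a b, Transcendental ℚ (c j a b / c j a0 b0) := by
    by_contra hcon
    push Not at hcon
    apply hnon
    refine ⟨c j a0 b0, Matrix.of fun a b => c j a b / c j a0 b0, fun a b => ?_, ?_⟩
    · have := hcon a b
      rw [Transcendental, not_not] at this
      exact this
    · ext a b
      rw [Matrix.smul_apply, Matrix.of_apply, smul_eq_mul, mul_div_cancel₀ _ h0]
  obtain ⟨D, hD⟩ := exists_der_ne hK hab
  refine ⟨D, fun z hz => hD ?_⟩
  have h1 : (c j).map D = z • c j := by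
    calc (c j).map D = ld D c j * c j := by
          unfold ld
          rw [Matrix.mul_assoc, nonsing_inv_mul _ hdet, Matrix.mul_one]
      _ = z • c j := by rw [hz, Matrix.smul_mul, Matrix.one_mul]
  have h2 : ∀ a b, D (c j a b) = z * c j a b := by
    intro a b
    have := congrFun (congrFun h1 a) b
    rw [Matrix.map_apply, Matrix.smul_apply, smul_eq_mul] at this
    exact this
  rw [Derivation.leibniz_div, h2, h2]
  simp only [smul_eq_mul]
  ring_nf

/-- the scalars are in the Lie algebra -/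
theorem one_LL (hn : Even n) (hT : IsSubtorsor K T) (hQ : ∀ j a b, Q j a b ∈ K) (hc : (c, lam) ∈ Tor Q)
    (hcT : bd c ∈ T) (hE : ∀ j u, EE u ∈ LJ T j) {D : Derivation K ℂ ℂ} (hD : D lam ≠ 0) :
    fl (1 : Matrix (Fin n × Fin N) (Fin n × Fin N) ℂ) ∈ LL T := by
  have hl : lam ≠ 0 := hc.1
  set κ := D lam / lam with hκ
  have hκ0 : κ ≠ 0 := div_ne_zero hD hl
  have h1 : ∀ j, ld D c j - (κ / 2) • (1 : Matrix (Fin n) (Fin n) ℂ) ∈ LJ T j := by
    intro j
    refine sp_LJ hn j (hE j) ?_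
    have h2 := ld_rel hn hQ hc D j
    rw [transpose_sub, transpose_smul, transpose_one, Matrix.sub_mul, Matrix.mul_sub, Matrix.smul_mul,
      Matrix.mul_smul, Matrix.one_mul, Matrix.mul_one]
    have h3 : ld D c j * jm ℂ n - (κ / 2) • jm ℂ n + (jm ℂ n * (ld D c j)ᵀ - (κ / 2) • jm ℂ n) =
        (ld D c j * jm ℂ n + jm ℂ n * (ld D c j)ᵀ) - κ • jm ℂ n := by
      have : κ • jm ℂ n = (κ / 2) • jm ℂ n + (κ / 2) • jm ℂ n := by rw [← add_smul, add_halves]
      rw [this]
      abel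
    rw [h3, h2, sub_self]
  have h2 : bd (ld D c) = ∑ j, bd (Pi.single j (ld D c j - (κ / 2) • (1 : Matrix (Fin n) (Fin n) ℂ))) +
      (κ / 2) • (1 : Matrix (Fin n × Fin N) (Fin n × Fin N) ℂ) := by
    have h3 : ∑ j, bd (Pi.single j (ld D c j - (κ / 2) • (1 : Matrix (Fin n) (Fin n) ℂ))) =
        bd (∑ j, Pi.single j (ld D c j - (κ / 2) • (1 : Matrix (Fin n) (Fin n) ℂ))) := by
      exact (map_sum (blockDiagonalAddMonoidHom (Fin n) (Fin n) (Fin N) ℂ) _ _).symm
    rw [h3, Finset.univ_sum_single]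
    have h4 : (κ / 2) • (1 : Matrix (Fin n × Fin N) (Fin n × Fin N) ℂ) =
        bd ((κ / 2) • (1 : Fin N → Matrix (Fin n) (Fin n) ℂ)) := by
      show _ = blockDiagonal _
      rw [blockDiagonal_smul, blockDiagonal_one]
    rw [h4]
    show blockDiagonal _ = blockDiagonal _ + blockDiagonal _
    rw [← blockDiagonal_add]
    congr 1
    funext j
    simp
  have h3 := ld_mem hn hT hc hcT D
  rw [h2, fl_add, fl_smul] at h3
  have h4 : fl (∑ j, bd (Pi.single j (ld D c j - (κ / 2) • (1 : Matrix (Fin n) (Fin n) ℂ)))) ∈ LL T := by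
    have h5 : ∀ s : Finset (Fin N), fl (∑ j ∈ s, bd (Pi.single j (ld D c j -
        (κ / 2) • (1 : Matrix (Fin n) (Fin n) ℂ)))) ∈ LL T := by
      intro s
      induction s using Finset.induction_on with
      | empty => rw [Finset.sum_empty, fl_zero]; exact Submodule.zero_mem _
      | insert j s hj ih =>
        rw [Finset.sum_insert hj, fl_add]
        exact Submodule.add_mem _ (h1 j) ih
    exact h5 Finset.univ
  have h5 := (Submodule.add_mem_iff_right _ h4).1 h3
  exact (Submodule.smul_mem_iff _ (div_ne_zero hκ0 two_ne_zero)).1 h5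

/-- the subtorsor is stable under symplectic matrices in one block -/
theorem sg_stab (hn : Even n) (hT : IsSubtorsor K T) (hE : ∀ j u, EE u ∈ LJ T j) (j : Fin N)
    {g : Matrix (Fin n) (Fin n) ℂ} (hg : g ∈ SpS ℂ n) {x : Matrix (Fin n × Fin N) (Fin n × Fin N) ℂ} (hx : x ∈ T) :
    bd (sg j g) * x ∈ T := by
  let S : Submonoid (Matrix (Fin n) (Fin n) ℂ) :=
    { carrier := {g | ∀ x ∈ T, bd (sg j g) * x ∈ T}
      one_mem' := by
        intro x hx
        have : sg j (1 : Matrix (Fin n) (Fin n) ℂ) = 1 := by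
          unfold sg
          exact Function.update_eq_self j (1 : Fin N → Matrix (Fin n) (Fin n) ℂ)
        rw [this]
        show blockDiagonal 1 * x ∈ T
        rw [blockDiagonal_one, Matrix.one_mul]
        exact hx
      mul_mem' := by
        intro a b ha hb x hx
        have h1 : bd (sg j (a * b)) = bd (sg j a) * bd (sg j b) := by
          rw [bd_mul]
          congr 1
          funext k
          by_cases h : k = j
          · subst h
            rw [sg_same, sg_same, sg_same]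
          · rw [sg_ne h, sg_ne h, sg_ne h, one_mul]
        rw [h1, Matrix.mul_assoc]
        exact ha _ (hb x hx) }
  have hS : ∀ v s, TV v s ∈ S := by
    intro v s x hx
    have h1 : bd (sg j (TV v s)) = 1 + s • bd (Pi.single j (EE v)) := by
      have h2 : (1 : Matrix (Fin n × Fin N) (Fin n × Fin N) ℂ) = bd (1 : Fin N → Matrix (Fin n) (Fin n) ℂ) :=
        blockDiagonal_one.symm
      have h3 : s • bd (Pi.single j (EE v)) = bd (s • (Pi.single j (EE v) : Fin N → Matrix (Fin n) (Fin n) ℂ)) :=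
        (blockDiagonal_smul _ _).symm
      rw [h2, h3]
      show blockDiagonal _ = blockDiagonal _ + blockDiagonal _
      rw [← blockDiagonal_add]
      congr 1
      funext k
      by_cases h : k = j
      · subst h
        rw [sg_same, Pi.add_apply, Pi.smul_apply, Pi.single_eq_same]
        rfl
      · rw [sg_ne h, Pi.add_apply, Pi.smul_apply, Pi.single_eq_of_ne h, smul_zero, add_zero]
        rfl
    rw [h1]
    refine exp_nil hT ?_ (hE j v) hx s
    rw [bd_mul]
    have h2 : (fun k => (Pi.single j (EE v) : Fin N → Matrix (Fin n) (Fin n) ℂ) k *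
        (Pi.single j (EE v) : Fin N → Matrix (Fin n) (Fin n) ℂ) k) = 0 := by
      funext k
      by_cases h : k = j
      · subst h
        rw [Pi.single_eq_same, EE_sq]
        rfl
      · rw [Pi.single_eq_of_ne h, mul_zero]
        rfl
    rw [h2]
    exact blockDiagonal_zero
  exact sp_gen hn S hS g hg x hx

theorem bd_stab (hn : Even n) (hT : IsSubtorsor K T) (hE : ∀ j u, EE u ∈ LJ T j)
    {g : Fin N → Matrix (Fin n) (Fin n) ℂ} (hg : ∀ j, g j ∈ SpS ℂ n)
    {x : Matrix (Fin n × Fin N) (Fin n × Fin N) ℂ} (hx : x ∈ T) : bd g * x ∈ T := by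
  have key : ∀ s : Finset (Fin N), bd (fun j => if j ∈ s then g j else 1) * x ∈ T := by
    intro s
    induction s using Finset.induction_on with
    | empty =>
      have : (fun j : Fin N => if j ∈ (∅ : Finset (Fin N)) then g j else 1) = 1 := by
        funext j
        simp
      rw [this]
      show blockDiagonal 1 * x ∈ T
      rw [blockDiagonal_one, Matrix.one_mul]
      exact hx
    | insert j s hj ih =>
      have h1 := sg_stab hn hT hE j (hg j) ih
      rw [← Matrix.mul_assoc, bd_mul] at h1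
      convert h1 using 3
      funext k
      by_cases h : k = j
      · subst h
        rw [sg_same, if_pos (Finset.mem_insert_self _ _), if_neg hj, mul_one]
      · rw [sg_ne h, one_mul]
        simp [Finset.mem_insert, h]
  have h1 := key Finset.univ
  simpa using h1

/-- **Main theorem.** A `K`-subtorsor which contains a point of the torsor without quadratic relations, such that `lam` is
transcendental and no block is proportional to an algebraic matrix, contains the whole torsor. -/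
theorem full (hn : Even n) (hK : ∀ x ∈ K, IsAlgebraic ℚ x) (hT : IsSubtorsor K T) (hQ : ∀ j a b, Q j a b ∈ K)
    (hc : (c, lam) ∈ Tor Q) (hcT : bd c ∈ T) (hlam : Transcendental ℚ lam)
    (hnon : ∀ j, ¬ ∃ (ν : ℂ) (a : Matrix (Fin n) (Fin n) ℂ), (∀ i k, IsAlgebraic ℚ (a i k)) ∧ c j = ν • a)
    (hq : NoQuad K Q c) : ∀ x ∈ Tor Q, bd x.1 ∈ T := by
  have hC := cstab hn hT hQ hc hcT hq
  have hE : ∀ j u, EE u ∈ LJ T j := by
    intro j
    obtain ⟨D, hD⟩ := exists_ld hn hK hc j (hnon j)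
    obtain ⟨v, hv⟩ := exists_vec hn (ld_rel hn hQ hc D j) (hD _)
    have hv0 : v ≠ 0 := by
      rintro rfl
      apply hv
      rw [zero_dotProduct]
    exact EE_all hn hC j hv0 (EE_mem_of hC (ld_mem hn hT hc hcT D) j hv)
  obtain ⟨D, hD⟩ := exists_der_ne hK hlam
  have h1 := one_LL hn hT hQ hc hcT hE hD
  rintro ⟨X, mu⟩ ⟨hmu, hX⟩
  simp only at hmu hX ⊢
  have hl : lam ≠ 0 := hc.1
  obtain ⟨μ, hμ⟩ := IsAlgClosed.exists_pow_nat_eq (mu / lam) (by norm_num : 0 < 2)
  have hμ0 : μ ≠ 0 := by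
    rintro rfl
    have : mu / lam = 0 := by rw [← hμ]; norm_num
    exact div_ne_zero hmu hl this
  have hg : ∀ j, μ⁻¹ • (X j * (c j)⁻¹) ∈ SpS ℂ n := by
    intro j
    have h2 := hc.2 j
    simp only at h2
    obtain ⟨hdet, -⟩ := tor_det hn hl h2
    have hcc' : (c j)⁻¹ * c j = 1 := nonsing_inv_mul _ hdet
    have h5 : (c j)ᵀ * ((c j)⁻¹)ᵀ = 1 := by rw [← transpose_mul, hcc', transpose_one]
    have h6 : (c j)⁻¹ * jm ℂ n * ((c j)⁻¹)ᵀ = lam⁻¹ • Q j := by
      have h7 : jm ℂ n = lam⁻¹ • (c j * Q j * (c j)ᵀ) := by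
        rw [h2, smul_smul, inv_mul_cancel₀ hl, one_smul]
      rw [h7, Matrix.mul_smul, Matrix.smul_mul]
      congr 1
      calc (c j)⁻¹ * (c j * Q j * (c j)ᵀ) * ((c j)⁻¹)ᵀ = ((c j)⁻¹ * c j) * Q j * ((c j)ᵀ * ((c j)⁻¹)ᵀ) := by
            simp only [Matrix.mul_assoc]
        _ = Q j := by rw [hcc', h5, Matrix.one_mul, Matrix.mul_one]
    show μ⁻¹ • (X j * (c j)⁻¹) * jm ℂ n * (μ⁻¹ • (X j * (c j)⁻¹))ᵀ = jm ℂ n
    rw [transpose_smul, Matrix.smul_mul, Matrix.mul_smul, Matrix.smul_mul, smul_smul, transpose_mul]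
    have h8 : X j * (c j)⁻¹ * jm ℂ n * (((c j)⁻¹)ᵀ * (X j)ᵀ) = X j * ((c j)⁻¹ * jm ℂ n * ((c j)⁻¹)ᵀ) * (X j)ᵀ := by
      simp only [Matrix.mul_assoc]
    rw [h8, h6, Matrix.mul_smul, Matrix.smul_mul, hX j, smul_smul, smul_smul]
    have h9 : μ⁻¹ * μ⁻¹ * lam⁻¹ * mu = 1 := by
      have : lam⁻¹ * mu = μ ^ 2 := by rw [hμ]; ring
      rw [mul_assoc _ lam⁻¹, this]
      field_simp
    rw [h9, one_smul]
  have h2 := exp_one hT h1 (bd_stab hn hT hE hg hcT) hμ0
  convert h2 using 1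
  rw [bd_mul]
  show bd X = μ • blockDiagonal _
  rw [← blockDiagonal_smul]
  congr 1
  funext j
  have hdet := (tor_det hn hl (hc.2 j)).1
  rw [Pi.smul_apply, Matrix.smul_mul, smul_smul, mul_inv_cancel₀ hμ0, one_smul, Matrix.mul_assoc,
    nonsing_inv_mul _ hdet, Matrix.mul_one]

end Pool.Agent.Y123.ST
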