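import Pool.Agent.Y123.ST.Jor1

/-!
# Finite groups of matrices: powers commute
-/

set_option autoImplicit false

open Matrix
open scoped MatrixOrder ComplexOrder

namespace Pool.Agent.Y123.ST.Jor

/-- for every `n` there is `J` such that for all elements `x`, `y` of a finite group of matrices some powers
`x ^ k`, `y ^ l`, `1 ≤ k, l ≤ J`, commute -/
theorem jordan (n : ℕ) : ∃ J : ℕ, ∀ G : Set (Matrix (Fin n) (Fin n) ℂ), G.Finite → 1 ∈ G →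
    (∀ x ∈ G, ∀ y ∈ G, x * y ∈ G) → (∀ x ∈ G, IsUnit x.det) → (∀ x ∈ G, x⁻¹ ∈ G) →
    ∀ x ∈ G, ∀ y ∈ G, ∃ k l, (1 ≤ k ∧ k ≤ J) ∧ (1 ≤ l ∧ l ≤ J) ∧ x ^ k * y ^ l = y ^ l * x ^ k := by
  classical
  obtain ⟨J, hJ⟩ := exists_J (EuclideanSpace ℂ (Fin n))
  refine ⟨J, fun G hG h1 hmul hdet hinv x hx y hy => ?_⟩
  let S : Matrix (Fin n) (Fin n) ℂ := ∑ g ∈ hG.toFinset, gᴴ * g
  have hSpos : S.PosDef := by
    have h2 : S = 1 + ∑ g ∈ hG.toFinset.erase 1, gᴴ * g := by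
      show ∑ g ∈ hG.toFinset, gᴴ * g = _
      rw [← Finset.add_sum_erase _ _ (hG.mem_toFinset.2 h1), conjTranspose_one, Matrix.one_mul]
    rw [h2]
    exact Matrix.PosDef.one.add_posSemidef (Matrix.posSemidef_sum _ fun g _ => posSemidef_conjTranspose_mul_self g)
  obtain ⟨B, hB⟩ := CStarAlgebra.nonneg_iff_eq_star_mul_self.mp hSpos.posSemidef.nonneg
  have hSdet : S.det ≠ 0 := (hSpos.det_pos).ne'
  have hBdet : IsUnit B.det := by
    rw [isUnit_iff_ne_zero]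
    intro h
    apply hSdet
    rw [hB, det_mul, h, mul_zero]
  have hBB : B * B⁻¹ = 1 := mul_nonsing_inv _ hBdet
  have hBB' : B⁻¹ * B = 1 := nonsing_inv_mul _ hBdet
  have hinvS : ∀ g ∈ G, gᴴ * S * g = S := by
    intro g hg
    show gᴴ * (∑ h ∈ hG.toFinset, hᴴ * h) * g = ∑ h ∈ hG.toFinset, hᴴ * h
    rw [Matrix.mul_sum, Matrix.sum_mul]
    refine Finset.sum_nbij' (fun h => h * g) (fun h => h * g⁻¹) ?_ ?_ ?_ ?_ ?_
    · intro h hh
      rw [hG.mem_toFinset] at hh ⊢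
      exact hmul _ hh _ hg
    · intro h hh
      rw [hG.mem_toFinset] at hh ⊢
      exact hmul _ hh _ (hinv _ hg)
    · intro h _
      rw [Matrix.mul_assoc, mul_nonsing_inv _ (hdet _ hg), Matrix.mul_one]
    · intro h _
      rw [Matrix.mul_assoc, nonsing_inv_mul _ (hdet _ hg), Matrix.mul_one]
    · intro h _
      rw [conjTranspose_mul]
      simp only [Matrix.mul_assoc]
  let u : Matrix (Fin n) (Fin n) ℂ → Matrix (Fin n) (Fin n) ℂ := fun g => B * g * B⁻¹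
  have humul : ∀ g h, u (g * h) = u g * u h := by
    intro g h
    show B * (g * h) * B⁻¹ = B * g * B⁻¹ * (B * h * B⁻¹)
    calc B * (g * h) * B⁻¹ = B * g * 1 * h * B⁻¹ := by noncomm_ring
      _ = B * g * (B⁻¹ * B) * h * B⁻¹ := by rw [hBB']
      _ = B * g * B⁻¹ * (B * h * B⁻¹) := by noncomm_ring
  have hu1 : u 1 = 1 := by
    show B * 1 * B⁻¹ = 1
    rw [Matrix.mul_one, hBB]
  have huinj : ∀ g h, u g = u h → g = h := by
    intro g h hgh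
    have h2 : B⁻¹ * u g * B = B⁻¹ * u h * B := by rw [hgh]
    have h3 : ∀ z, B⁻¹ * u z * B = z := by
      intro z
      show B⁻¹ * (B * z * B⁻¹) * B = z
      calc B⁻¹ * (B * z * B⁻¹) * B = (B⁻¹ * B) * z * (B⁻¹ * B) := by noncomm_ring
        _ = z := by rw [hBB', Matrix.one_mul, Matrix.mul_one]
    rw [h3, h3] at h2
    exact h2
  have huu : ∀ g ∈ G, star (u g) * u g = 1 := by
    intro g hg
    have h2 : (B⁻¹)ᴴ * Bᴴ = 1 := by rw [← conjTranspose_mul, hBB, conjTranspose_one]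
    show (B * g * B⁻¹)ᴴ * (B * g * B⁻¹) = 1
    rw [conjTranspose_mul, conjTranspose_mul]
    have h3 : Bᴴ * B = S := hB.symm
    calc (B⁻¹)ᴴ * (gᴴ * Bᴴ) * (B * g * B⁻¹) = (B⁻¹)ᴴ * (gᴴ * (Bᴴ * B) * g) * B⁻¹ := by noncomm_ring
      _ = (B⁻¹)ᴴ * (Bᴴ * B) * B⁻¹ := by rw [h3, hinvS g hg]
      _ = ((B⁻¹)ᴴ * Bᴴ) * (B * B⁻¹) := by noncomm_ring
      _ = 1 := by rw [h2, hBB, Matrix.one_mul]
  let φ : Matrix (Fin n) (Fin n) ℂ → (EuclideanSpace ℂ (Fin n) →L[ℂ] EuclideanSpace ℂ (Fin n)) :=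
    fun g => toEuclideanCLM (𝕜 := ℂ) (u g)
  have hφmul : ∀ g h, φ (g * h) = φ g * φ h := by
    intro g h
    show toEuclideanCLM (𝕜 := ℂ) (u (g * h)) = _
    rw [humul, map_mul]
  have hφ1 : φ 1 = 1 := by
    show toEuclideanCLM (𝕜 := ℂ) (u 1) = 1
    rw [hu1, map_one]
  have hφpow : ∀ g (k : ℕ), φ (g ^ k) = φ g ^ k := by
    intro g k
    induction k with
    | zero => rw [pow_zero, pow_zero, hφ1]
    | succ k ih => rw [pow_succ, pow_succ, hφmul, ih]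
  have hφinj : ∀ g h, φ g = φ h → g = h := fun g h hgh => huinj g h ((toEuclideanCLM (𝕜 := ℂ)).injective hgh)
  have hφs : ∀ g ∈ G, star (φ g) * φ g = 1 := by
    intro g hg
    show star (toEuclideanCLM (𝕜 := ℂ) (u g)) * toEuclideanCLM (𝕜 := ℂ) (u g) = 1
    rw [← map_star, ← map_mul, huu g hg, map_one]
  have hφinv : ∀ g ∈ G, star (φ g) = φ g⁻¹ := by
    intro g hg
    have h2 : φ g * φ g⁻¹ = 1 := by rw [← hφmul, mul_nonsing_inv _ (hdet _ hg), hφ1]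
    calc star (φ g) = star (φ g) * (φ g * φ g⁻¹) := by rw [h2, mul_one]
      _ = φ g⁻¹ := by rw [← mul_assoc, hφs g hg, one_mul]
  have hφU : ∀ g ∈ G, φ g ∈ unitary (EuclideanSpace ℂ (Fin n) →L[ℂ] EuclideanSpace ℂ (Fin n)) := by
    intro g hg
    rw [Unitary.mem_iff]
    refine ⟨hφs g hg, ?_⟩
    rw [hφinv g hg, ← hφmul, mul_nonsing_inv _ (hdet _ hg), hφ1]
  obtain ⟨k, hk1, hk2, hk3⟩ := hJ (φ x) (hφU x hx)
  obtain ⟨l, hl1, hl2, hl3⟩ := hJ (φ y) (hφU y hy)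
  have hpow : ∀ g ∈ G, ∀ k : ℕ, g ^ k ∈ G := by
    intro g hg k
    induction k with
    | zero => rw [pow_zero]; exact h1
    | succ k ih => rw [pow_succ]; exact hmul _ ih _ hg
  refine ⟨k, l, ⟨hk1, hk2⟩, ⟨hl1, hl2⟩, hφinj _ _ ?_⟩
  rw [hφmul, hφmul]
  refine close_comm (G := φ '' G) (hG.image _) ?_ ?_ ?_ ⟨_, hpow x hx k, rfl⟩ ⟨_, hpow y hy l, rfl⟩ ?_ ?_
  · rintro _ ⟨g, hg, rfl⟩
    exact hφU g hg
  · rintro _ ⟨g, hg, rfl⟩ _ ⟨h, hh, rfl⟩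
    exact ⟨g * h, hmul _ hg _ hh, hφmul _ _⟩
  · rintro _ ⟨g, hg, rfl⟩
    rw [hφinv g hg]
    exact ⟨_, hinv g hg, rfl⟩
  · rw [hφpow]
    exact hk3
  · rw [hφpow]
    exact hl3

end Pool.Agent.Y123.ST.Jor
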