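import Pool.Agent.Y123.ST.Fc
import Pool.Agent.Y123.ST.Jor2
import Pool.Agent.Y123.ST.Tens

/-!
# Bounded degree relations suffice (without transcendence assumptions on the blocks)
-/

set_option autoImplicit false
set_option linter.unusedSectionVars false

open Matrix

namespace Pool.Agent.Y123.ST

open Pool.Agent.TH127.PT Pool.Agent.Y118.HP

variable {n N : ℕ} {K : Subfield ℂ} {T : Set (Matrix (Fin n × Fin N) (Fin n × Fin N) ℂ)}
  {Q c : Fin N → Matrix (Fin n) (Fin n) ℂ} {lam : ℂ}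

/-- the symplectic matrices in the block `j` which are quotients of points of `T`, up to a scalar -/
def Gr (T : Set (Matrix (Fin n × Fin N) (Fin n × Fin N) ℂ)) (j : Fin N) : Set (Matrix (Fin n) (Fin n) ℂ) :=
  {g | g ∈ SpS ℂ n ∧ ∃ X Y : Fin N → Matrix (Fin n) (Fin n) ℂ, bd X ∈ T ∧ bd Y ∈ T ∧ ∃ ν : ℂ, g * Y j = ν • X j}

theorem sp_det (hn : Even n) {g : Matrix (Fin n) (Fin n) ℂ} (hg : g ∈ SpS ℂ n) : IsUnit g.det := by
  have h1 : g * jm ℂ n * gᵀ = (1 : ℂ) • jm ℂ n := by rw [one_smul]; exact hg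
  exact (tor_det hn one_ne_zero h1).1

theorem sp_inv (hn : Even n) {g : Matrix (Fin n) (Fin n) ℂ} (hg : g ∈ SpS ℂ n) : g⁻¹ ∈ SpS ℂ n := by
  have h1 : g * jm ℂ n * gᵀ = jm ℂ n := hg
  have h2 := sp_det hn hg
  have h3 : g⁻¹ * g = 1 := nonsing_inv_mul _ h2
  have h4 : gᵀ * (g⁻¹)ᵀ = 1 := by rw [← transpose_mul, h3, transpose_one]
  show g⁻¹ * jm ℂ n * (g⁻¹)ᵀ = jm ℂ n
  calc g⁻¹ * jm ℂ n * (g⁻¹)ᵀ = g⁻¹ * (g * jm ℂ n * gᵀ) * (g⁻¹)ᵀ := by rw [h1]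
    _ = (g⁻¹ * g) * jm ℂ n * (gᵀ * (g⁻¹)ᵀ) := by simp only [Matrix.mul_assoc]
    _ = jm ℂ n := by rw [h3, h4, Matrix.one_mul, Matrix.mul_one]

theorem mat_ne_zero (hn0 : 0 < n) {A : Matrix (Fin n) (Fin n) ℂ} (h : IsUnit A.det) : A ≠ 0 := by
  rintro rfl
  have : Nonempty (Fin n) := ⟨⟨0, hn0⟩⟩
  rw [Matrix.det_zero] at h
  exact not_isUnit_zero h

theorem sp_pair_finite (hn : Even n) (hn0 : 0 < n) (A A' : Matrix (Fin n) (Fin n) ℂ) (hA' : IsUnit A'.det) :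
    {g : Matrix (Fin n) (Fin n) ℂ | g ∈ SpS ℂ n ∧ ∃ ρ : ℂ, g * A' = ρ • A}.Finite := by
  by_cases hne : {g : Matrix (Fin n) (Fin n) ℂ | g ∈ SpS ℂ n ∧ ∃ ρ : ℂ, g * A' = ρ • A}.Nonempty
  · obtain ⟨g0, hg0, ρ0, h0⟩ := hne
    refine (Set.toFinite {g0, -g0}).subset ?_
    rintro g ⟨hg, ρ, h1⟩
    have hρ0 : ρ0 ≠ 0 := by
      rintro rfl
      rw [zero_smul] at h0
      have h2 : IsUnit (g0 * A').det := by rw [det_mul]; exact (sp_det hn hg0).mul hA'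
      exact mat_ne_zero hn0 h2 h0
    have h2 : g = (ρ / ρ0) • g0 := by
      have h3 : g * A' = ((ρ / ρ0) • g0) * A' := by
        rw [h1, Matrix.smul_mul, h0, smul_smul, div_mul_cancel₀ _ hρ0]
      calc g = g * A' * A'⁻¹ := by rw [Matrix.mul_assoc, mul_nonsing_inv _ hA', Matrix.mul_one]
        _ = (ρ / ρ0) • g0 := by rw [h3, Matrix.mul_assoc, mul_nonsing_inv _ hA', Matrix.mul_one]
    have h3 : ((ρ / ρ0) ^ 2 - 1) • jm ℂ n = 0 := by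
      have h4 : g * jm ℂ n * gᵀ = jm ℂ n := hg
      have h5 : g0 * jm ℂ n * g0ᵀ = jm ℂ n := hg0
      rw [h2, transpose_smul, Matrix.smul_mul, Matrix.smul_mul, Matrix.mul_smul, h5, smul_smul] at h4
      rw [sub_smul, one_smul, pow_two, h4, sub_self]
    have h4 : (ρ / ρ0) ^ 2 = 1 := by
      rcases smul_eq_zero.1 h3 with h | h
      · exact sub_eq_zero.1 h
      · exact absurd h (mat_ne_zero hn0 (jm_det hn).isUnit)
    have h5 : (ρ / ρ0 - 1) * (ρ / ρ0 + 1) = 0 := by linear_combination h4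
    rcases mul_eq_zero.1 h5 with h | h
    · left
      rw [h2, sub_eq_zero.1 h, one_smul]
    · right
      rw [h2, eq_neg_of_add_eq_zero_left h, neg_smul, one_smul]
      rfl
  · rw [Set.not_nonempty_iff_eq_empty] at hne
    rw [hne]
    exact Set.finite_empty

/-- the quotient of two points of the torsor -/
theorem quot_sp (hn : Even n) {X Z : Fin N → Matrix (Fin n) (Fin n) ℂ} {μ1 μ2 : ℂ} (hX : (X, μ1) ∈ Tor Q)
    (hZ : (Z, μ2) ∈ Tor Q) (j : Fin N) : ∃ (g : Matrix (Fin n) (Fin n) ℂ) (ν s : ℂ), g ∈ SpS ℂ n ∧ g * Z j = ν • X j ∧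
      X j * Q j * (Z j)ᵀ * (jm ℂ n)⁻¹ = s • g := by
  have h1 : μ1 ≠ 0 := hX.1
  have h2 : μ2 ≠ 0 := hZ.1
  have hXj := hX.2 j
  have hZj := hZ.2 j
  simp only at hXj hZj
  obtain ⟨ν, hν⟩ := IsAlgClosed.exists_pow_nat_eq (μ2 / μ1) (by norm_num : 0 < 2)
  have hν0 : ν ≠ 0 := by
    rintro rfl
    have : μ2 / μ1 = 0 := by rw [← hν]; norm_num
    exact div_ne_zero h2 h1 this
  obtain ⟨hdet, hinv⟩ := tor_det hn h2 hZj
  have hzz : (Z j)⁻¹ * Z j = 1 := nonsing_inv_mul _ hdet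
  have h5 : (Z j)ᵀ * ((Z j)⁻¹)ᵀ = 1 := by rw [← transpose_mul, hzz, transpose_one]
  have h6 : (Z j)⁻¹ * jm ℂ n * ((Z j)⁻¹)ᵀ = μ2⁻¹ • Q j := by
    have h7 : jm ℂ n = μ2⁻¹ • (Z j * Q j * (Z j)ᵀ) := by
      rw [hZj, smul_smul, inv_mul_cancel₀ h2, one_smul]
    rw [h7, Matrix.mul_smul, Matrix.smul_mul]
    congr 1
    calc (Z j)⁻¹ * (Z j * Q j * (Z j)ᵀ) * ((Z j)⁻¹)ᵀ = ((Z j)⁻¹ * Z j) * Q j * ((Z j)ᵀ * ((Z j)⁻¹)ᵀ) := by
          simp only [Matrix.mul_assoc]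
      _ = Q j := by rw [hzz, h5, Matrix.one_mul, Matrix.mul_one]
  refine ⟨ν • (X j * (Z j)⁻¹), ν, μ2 / ν, ?_, ?_, ?_⟩
  · show ν • (X j * (Z j)⁻¹) * jm ℂ n * (ν • (X j * (Z j)⁻¹))ᵀ = jm ℂ n
    rw [transpose_smul, Matrix.smul_mul, Matrix.mul_smul, Matrix.smul_mul, smul_smul, transpose_mul]
    have h8 : X j * (Z j)⁻¹ * jm ℂ n * (((Z j)⁻¹)ᵀ * (X j)ᵀ) = X j * ((Z j)⁻¹ * jm ℂ n * ((Z j)⁻¹)ᵀ) * (X j)ᵀ := by
      simp only [Matrix.mul_assoc]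
    rw [h8, h6, Matrix.mul_smul, Matrix.smul_mul, hXj, smul_smul, smul_smul]
    have h9 : ν * ν * μ2⁻¹ * μ1 = 1 := by
      rw [← pow_two, hν]
      field_simp
    rw [h9, one_smul]
  · rw [Matrix.smul_mul, Matrix.mul_assoc, hzz, Matrix.mul_one]
  · rw [smul_smul, div_mul_cancel₀ _ hν0, hinv, Matrix.mul_smul, smul_smul, mul_inv_cancel₀ h2, one_smul]
    simp only [Matrix.mul_assoc]

/-- powers of transvections -/
theorem TV_add (v : Fin n → ℂ) (s r : ℂ) : TV v s * TV v r = TV v (s + r) := by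
  rw [TV_EE, TV_EE, TV_EE, mul_add, add_mul, add_mul, mul_one, one_mul, mul_one, smul_mul_smul_comm, EE_sq, smul_zero,
    add_zero, add_smul]
  abel

theorem TV_pow (v : Fin n → ℂ) (k : ℕ) : TV v 1 ^ k = TV v k := by
  induction k with
  | zero =>
    rw [pow_zero, Nat.cast_zero, TV_EE, zero_smul, add_zero]
  | succ k ih => rw [pow_succ, ih, TV_add, Nat.cast_succ]

theorem TV_not_comm {u v : Fin n → ℂ} (huv : om u v ≠ 0) {k l : ℕ} (hk : 1 ≤ k) (hl : 1 ≤ l) :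
    TV u 1 ^ k * TV v 1 ^ l ≠ TV v 1 ^ l * TV u 1 ^ k := by
  intro h
  rw [TV_pow, TV_pow] at h
  have h1 := congrArg (fun M => u ᵥ* M) h
  rw [← vecMul_vecMul, ← vecMul_vecMul, vecMul_TV u, om_self, mul_zero, zero_smul, add_zero, vecMul_TV u,
    vecMul_TV v] at h1
  have h2 : ((k : ℂ) * om (u + ((l : ℂ) * om u v) • v) u) • u = 0 := by
    have h3 := congrArg (fun w => w - (u + ((l : ℂ) * om u v) • v)) h1
    simp only [sub_self, add_sub_cancel_left] at h3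
    exact h3.symm
  have h4 : om u (((l : ℂ) * om u v) • v) = (l : ℂ) * om u v * om u v := by
    unfold om
    rw [mulVec_smul, dotProduct_smul, smul_eq_mul]
  rw [om_skew u, om_add, om_self, zero_add, h4] at h2
  rcases smul_eq_zero.1 h2 with h3 | h3
  · have hk' : (k : ℂ) ≠ 0 := by exact_mod_cast (show k ≠ 0 by omega)
    have hl' : (l : ℂ) ≠ 0 := by exact_mod_cast (show l ≠ 0 by omega)
    exact mul_ne_zero hk' (neg_ne_zero.2 (mul_ne_zero (mul_ne_zero hl' huv) huv)) h3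
  · apply huv
    rw [h3]
    unfold om
    rw [zero_dotProduct]

/-- the matrix `X Q Zᵀ J⁻¹` -/
noncomputable def Mf (Q : Fin N → Matrix (Fin n) (Fin n) ℂ) (j : Fin N) (X Z : Fin N → Matrix (Fin n) (Fin n) ℂ) :
    Matrix (Fin n) (Fin n) ℂ := X j * Q j * (Z j)ᵀ * (jm ℂ n)⁻¹

/-- the commutators -/
noncomputable def Gf (Q : Fin N → Matrix (Fin n) (Fin n) ℂ) (j : Fin N) (en : ℕ × ℕ → Fin n × Fin n)
    (X Y Z : Fin N → Matrix (Fin n) (Fin n) ℂ) (p : ℕ × ℕ) : ℂ :=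
  (Mf Q j X Z ^ p.1 * Mf Q j Y Z ^ p.2 - Mf Q j Y Z ^ p.2 * Mf Q j X Z ^ p.1) (en p).1 (en p).2

theorem Gf_X (j : Fin N) (en : ℕ × ℕ → Fin n × Fin n) (Y Z : Fin N → Matrix (Fin n) (Fin n) ℂ) (p : ℕ × ℕ) {J : ℕ}
    (h1 : p.1 ≤ J) : PF (2 * J) (fun X => Gf Q j en X Y Z p) := by
  have hX : PM 1 (fun X => Mf Q j X Z) :=
    (((PM.coord j).mul (PM.const (Q j))).mul (PM.const (Z j)ᵀ)).mul (PM.const (jm ℂ n)⁻¹)
  have hY : PM 0 (fun _ : Fin N → Matrix (Fin n) (Fin n) ℂ => Mf Q j Y Z ^ p.2) := PM.const _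
  exact (((hX.pow p.1).mul hY).mono (by omega : _ ≤ 2 * J)).sub ((hY.mul (hX.pow p.1)).mono (by omega)) _ _

theorem Gf_Y (j : Fin N) (en : ℕ × ℕ → Fin n × Fin n) (X Z : Fin N → Matrix (Fin n) (Fin n) ℂ) (p : ℕ × ℕ) {J : ℕ}
    (h1 : p.2 ≤ J) : PF (2 * J) (fun Y => Gf Q j en X Y Z p) := by
  have hY : PM 1 (fun Y => Mf Q j Y Z) :=
    (((PM.coord j).mul (PM.const (Q j))).mul (PM.const (Z j)ᵀ)).mul (PM.const (jm ℂ n)⁻¹)
  have hX : PM 0 (fun _ : Fin N → Matrix (Fin n) (Fin n) ℂ => Mf Q j X Z ^ p.1) := PM.const _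
  exact ((hX.mul (hY.pow p.2)).mono (by omega : _ ≤ 2 * J)).sub (((hY.pow p.2).mul hX).mono (by omega)) _ _

theorem Gf_Z (j : Fin N) (en : ℕ × ℕ → Fin n × Fin n) (X Y : Fin N → Matrix (Fin n) (Fin n) ℂ) (p : ℕ × ℕ) {J : ℕ}
    (h1 : p.1 ≤ J) (h2 : p.2 ≤ J) : PF (2 * J) (fun Z => Gf Q j en X Y Z p) := by
  have hX : PM 1 (fun Z => Mf Q j X Z) :=
    (((PM.const (X j * Q j)).mul (PM.coord j).tr).mul (PM.const (jm ℂ n)⁻¹)).mono (by omega)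
  have hY : PM 1 (fun Z => Mf Q j Y Z) :=
    (((PM.const (Y j * Q j)).mul (PM.coord j).tr).mul (PM.const (jm ℂ n)⁻¹)).mono (by omega)
  exact (((hX.pow p.1).mul (hY.pow p.2)).mono (by omega : _ ≤ 2 * J)).sub
    (((hY.pow p.2).mul (hX.pow p.1)).mono (by omega)) _ _

/-- the product of the commutators -/
noncomputable def Pf (Q : Fin N → Matrix (Fin n) (Fin n) ℂ) (j : Fin N) (J : ℕ) (en : ℕ × ℕ → Fin n × Fin n)
    (X Y Z : Fin N → Matrix (Fin n) (Fin n) ℂ) : ℂ :=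
  ∏ p ∈ Finset.Icc 1 J ×ˢ Finset.Icc 1 J, Gf Q j en X Y Z p

theorem sum_le (J : ℕ) : ∑ _p ∈ Finset.Icc 1 J ×ˢ Finset.Icc 1 J, 2 * J ≤ 2 * J * J * J := by
  rw [Finset.sum_const, Finset.card_product, Nat.card_Icc, smul_eq_mul]
  have : J + 1 - 1 = J := by omega
  rw [this]
  exact le_of_eq (by ring)

theorem Pf_X (j : Fin N) (J : ℕ) (en : ℕ × ℕ → Fin n × Fin n) (Y Z : Fin N → Matrix (Fin n) (Fin n) ℂ) :
    PF (2 * J * J * J) (fun X => Pf Q j J en X Y Z) := by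
  refine (PF.prod _ fun p hp => ?_).mono (sum_le J)
  rw [Finset.mem_product, Finset.mem_Icc, Finset.mem_Icc] at hp
  exact Gf_X j en Y Z p hp.1.2

theorem Pf_Y (j : Fin N) (J : ℕ) (en : ℕ × ℕ → Fin n × Fin n) (X Z : Fin N → Matrix (Fin n) (Fin n) ℂ) :
    PF (2 * J * J * J) (fun Y => Pf Q j J en X Y Z) := by
  refine (PF.prod _ fun p hp => ?_).mono (sum_le J)
  rw [Finset.mem_product, Finset.mem_Icc, Finset.mem_Icc] at hp
  exact Gf_Y j en X Z p hp.2.2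

theorem Pf_Z (j : Fin N) (J : ℕ) (en : ℕ × ℕ → Fin n × Fin n) (X Y : Fin N → Matrix (Fin n) (Fin n) ℂ) :
    PF (2 * J * J * J) (fun Z => Pf Q j J en X Y Z) := by
  refine (PF.prod _ fun p hp => ?_).mono (sum_le J)
  rw [Finset.mem_product, Finset.mem_Icc, Finset.mem_Icc] at hp
  exact Gf_Z j en X Y p hp.1.2 hp.2.2

/-- the torsor property in the blocks -/
theorem bd_tor (hn : Even n) (hT : IsSubtorsor K T) {X Y Z : Fin N → Matrix (Fin n) (Fin n) ℂ} {μ : ℂ}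
    (hY' : (Y, μ) ∈ Tor Q) (hX : bd X ∈ T) (hY : bd Y ∈ T) (hZ : bd Z ∈ T) :
    bd (fun j => X j * (Y j)⁻¹ * Z j) ∈ T := by
  have h1 := hT.torsor _ hX _ hY _ hZ
  rwa [bd_inv hn hY', bd_mul, bd_mul] at h1

/-- **no block of the subtorsor consists of algebraic matrices up to scalars**, if there are no relations of bounded
degree -/
theorem no_alg (n : ℕ) (hn : Even n) (hn0 : 0 < n) : ∃ d : ℕ, 2 ≤ d ∧ ∀ (N : ℕ) (K : Subfield ℂ)
    (T : Set (Matrix (Fin n × Fin N) (Fin n × Fin N) ℂ)) (Q c : Fin N → Matrix (Fin n) (Fin n) ℂ) (lam : ℂ) (j : Fin N),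
    IsSubtorsor K T → (∀ y ∈ T, ∃ X mu, y = bd X ∧ (X, mu) ∈ Tor Q) → (c, lam) ∈ Tor Q → bd c ∈ T → NoRel K Q c d →
    (∀ X : Fin N → Matrix (Fin n) (Fin n) ℂ, bd X ∈ T →
      ∃ (ν : ℂ) (a : Matrix (Fin n) (Fin n) ℂ), (∀ i k, IsAlgebraic ℚ (a i k)) ∧ X j = ν • a) → False := by
  classical
  obtain ⟨J, hJ⟩ := Jor.jordan n
  refine ⟨2 * J * J * J + 2, by omega, ?_⟩
  intro N K T Q c lam j hT hTb hc hcT hr halg
  have hr' : NoRel K Q c (2 * J * J * J) := fun P h1 h2 => hr P h1 (by omega)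
  have htor : ∀ X : Fin N → Matrix (Fin n) (Fin n) ℂ, bd X ∈ T → ∃ mu, (X, mu) ∈ Tor Q := by
    intro X hX
    obtain ⟨X', mu, h1, h2⟩ := hTb _ hX
    have h3 : X = X' := bd_inj h1
    subst h3
    exact ⟨mu, h2⟩
  have hdetX : ∀ X : Fin N → Matrix (Fin n) (Fin n) ℂ, bd X ∈ T → IsUnit (X j).det := by
    intro X hX
    obtain ⟨mu, h1⟩ := htor X hX
    exact (tor_det hn h1.1 (h1.2 j)).1
  -- finiteness
  obtain ⟨S, hS, hSX⟩ := finite_class hT j (by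
    intro y hy
    obtain ⟨X, mu, rfl, hX⟩ := hTb y hy
    exact ⟨X, rfl, mat_ne_zero hn0 (hdetX X hy), halg X hy⟩)
  have hfin : (Gr T j).Finite := by
    have h1 : (⋃ A ∈ S, ⋃ A' ∈ {A' | A' ∈ S ∧ IsUnit A'.det},
        {g : Matrix (Fin n) (Fin n) ℂ | g ∈ SpS ℂ n ∧ ∃ ρ : ℂ, g * A' = ρ • A}).Finite := by
      refine hS.biUnion fun A _ => Set.Finite.biUnion (hS.subset fun A' h => h.1) fun A' hA' => ?_
      exact sp_pair_finite hn hn0 A A' hA'.2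
    refine h1.subset ?_
    rintro g ⟨hg, X, Y, hX, hY, ν, hν⟩
    obtain ⟨A, hA, μ, hμ⟩ := hSX X hX
    obtain ⟨A', hA', μ', hμ'⟩ := hSX Y hY
    have hYd := hdetX Y hY
    rw [hμ', det_smul] at hYd
    have hA'd : IsUnit A'.det := isUnit_of_mul_isUnit_right hYd
    have hμ0 : μ' ≠ 0 := by
      rintro rfl
      rw [Fintype.card_fin, zero_pow hn0.ne', zero_mul] at hYd
      exact not_isUnit_zero hYd
    simp only [Set.mem_iUnion]
    refine ⟨A, hA, A', ⟨hA', hA'd⟩, hg, ν * μ / μ', ?_⟩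
    rw [hμ, hμ', Matrix.mul_smul, smul_smul] at hν
    have h2 : g * A' = μ'⁻¹ • (μ' • (g * A')) := by rw [smul_smul, inv_mul_cancel₀ hμ0, one_smul]
    rw [h2, hν, smul_smul]
    congr 1
    field_simp
  -- the group
  have hgroup := hJ (Gr T j) hfin ⟨SpS_one, c, c, hcT, hcT, 1, by rw [Matrix.one_mul, one_smul]⟩ (by
    rintro g ⟨hg, X, Y, hX, hY, ν, hν⟩ h ⟨hh, Z, W, hZ, hW, ν', hν'⟩
    obtain ⟨μ, hYt⟩ := htor Y hY
    refine ⟨SpS_mul hg hh, _, W, bd_tor hn hT hYt hX hY hZ, hW, ν' * ν, ?_⟩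
    have hYY : Y j * (Y j)⁻¹ = 1 := mul_nonsing_inv _ (hdetX Y hY)
    rw [Matrix.mul_assoc, hν', Matrix.mul_smul]
    calc ν' • (g * Z j) = ν' • (g * (Y j * (Y j)⁻¹) * Z j) := by rw [hYY, Matrix.mul_one]
      _ = ν' • ((g * Y j) * (Y j)⁻¹ * Z j) := by simp only [Matrix.mul_assoc]
      _ = (ν' * ν) • (X j * (Y j)⁻¹ * Z j) := by rw [hν, Matrix.smul_mul, Matrix.smul_mul, smul_smul]) (by
    rintro g ⟨hg, -⟩
    exact sp_det hn hg) (by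
    rintro g ⟨hg, X, Y, hX, hY, ν, hν⟩
    have hgd := sp_det hn hg
    have hν0 : ν ≠ 0 := by
      rintro rfl
      rw [zero_smul] at hν
      have h2 : IsUnit (g * Y j).det := by rw [det_mul]; exact hgd.mul (hdetX Y hY)
      exact mat_ne_zero hn0 h2 hν
    refine ⟨sp_inv hn hg, Y, X, hY, hX, ν⁻¹, ?_⟩
    have h1 : X j = ν⁻¹ • (g * Y j) := by rw [hν, smul_smul, inv_mul_cancel₀ hν0, one_smul]
    rw [h1, Matrix.mul_smul, ← Matrix.mul_assoc, nonsing_inv_mul _ hgd, Matrix.one_mul])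
  -- special matrices
  obtain ⟨u, v, huv⟩ : ∃ u v : Fin n → ℂ, om u v ≠ 0 := by
    by_contra hcon
    push Not at hcon
    have h1 := om_nondeg hn (u := Pi.single ⟨0, hn0⟩ 1) (fun x => hcon _ x)
    have h2 := congrFun h1 ⟨0, hn0⟩
    rw [Pi.single_eq_same] at h2
    exact one_ne_zero h2
  have hen : ∀ p : ℕ × ℕ, ∃ e : Fin n × Fin n, 1 ≤ p.1 → 1 ≤ p.2 →
      (TV u 1 ^ p.1 * TV v 1 ^ p.2 - TV v 1 ^ p.2 * TV u 1 ^ p.1) e.1 e.2 ≠ 0 := by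
    intro p
    by_cases hp : 1 ≤ p.1 ∧ 1 ≤ p.2
    · have h1 := TV_not_comm huv hp.1 hp.2
      by_contra hcon
      push Not at hcon
      apply h1
      rw [← sub_eq_zero]
      ext a b
      obtain ⟨-, -, h2⟩ := hcon (a, b)
      exact h2
    · refine ⟨(⟨0, hn0⟩, ⟨0, hn0⟩), fun h1 h2 => absurd ⟨h1, h2⟩ hp⟩
  choose en hen using hen
  -- the relation on `T`
  have step0 : ∀ X Y Z : Fin N → Matrix (Fin n) (Fin n) ℂ, bd X ∈ T → bd Y ∈ T → bd Z ∈ T → Pf Q j J en X Y Z = 0 := by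
    intro X Y Z hX hY hZ
    obtain ⟨μ1, h1⟩ := htor X hX
    obtain ⟨μ2, h2⟩ := htor Y hY
    obtain ⟨μ3, h3⟩ := htor Z hZ
    obtain ⟨g, ν, s, hg, hgZ, hgs⟩ := quot_sp hn h1 h3 j
    obtain ⟨h, ν', s', hh, hhZ, hhs⟩ := quot_sp hn h2 h3 j
    obtain ⟨k, l, hk, hl, hkl⟩ := hgroup g ⟨hg, X, Z, hX, hZ, ν, hgZ⟩ h ⟨hh, Y, Z, hY, hZ, ν', hhZ⟩
    unfold Pf
    refine Finset.prod_eq_zero (i := (k, l)) ?_ ?_
    · rw [Finset.mem_product, Finset.mem_Icc, Finset.mem_Icc]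
      exact ⟨hk, hl⟩
    · unfold Gf Mf
      simp only
      rw [hgs, hhs, smul_pow, smul_pow, smul_mul_smul_comm, smul_mul_smul_comm, hkl, mul_comm (s ^ k), sub_self]
      rfl
  have step1 : ∀ Y Z : Fin N → Matrix (Fin n) (Fin n) ℂ, bd Y ∈ T → bd Z ∈ T → ∀ x ∈ Tor Q, Pf Q j J en x.1 Y Z = 0 :=
    fun Y Z hY hZ => transfer hT hcT hr' (Pf_X j J en Y Z) fun X hX => step0 X Y Z hX hY hZ
  have step2 : ∀ Z : Fin N → Matrix (Fin n) (Fin n) ℂ, bd Z ∈ T → ∀ x ∈ Tor Q, ∀ y ∈ Tor Q,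
      Pf Q j J en x.1 y.1 Z = 0 := by
    intro Z hZ x hx
    exact transfer hT hcT hr' (Pf_Y j J en x.1 Z) fun Y hY => step1 Y Z hY hZ x hx
  -- special points
  have hsp : ∀ g ∈ SpS ℂ n, ((fun i => if i = j then g * c i else c i), lam) ∈ Tor Q := by
    intro g hg
    refine ⟨hc.1, fun i => ?_⟩
    have h1 := hc.2 i
    simp only at h1 ⊢
    by_cases hi : i = j
    · rw [if_pos hi, transpose_mul]
      have h2 : g * jm ℂ n * gᵀ = jm ℂ n := hg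
      calc g * c i * Q i * ((c i)ᵀ * gᵀ) = g * (c i * Q i * (c i)ᵀ) * gᵀ := by simp only [Matrix.mul_assoc]
        _ = lam • jm ℂ n := by rw [h1, Matrix.mul_smul, Matrix.smul_mul, h2]
    · rw [if_neg hi]
      exact h1
  have hMf : ∀ g : Matrix (Fin n) (Fin n) ℂ, Mf Q j (fun i => if i = j then g * c i else c i) c = lam • g := by
    intro g
    unfold Mf
    simp only [if_true]
    have h1 := hc.2 j
    simp only at h1
    calc g * c j * Q j * (c j)ᵀ * (jm ℂ n)⁻¹ = g * (c j * Q j * (c j)ᵀ) * (jm ℂ n)⁻¹ := by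
          simp only [Matrix.mul_assoc]
      _ = lam • g := by
        rw [h1, Matrix.mul_smul, Matrix.smul_mul, Matrix.mul_assoc, mul_nonsing_inv _ (jm_det hn).isUnit, Matrix.mul_one]
  have h0 := step2 c hcT _ (hsp _ (TV_mem u 1)) _ (hsp _ (TV_mem v 1))
  simp only at h0
  unfold Pf at h0
  rw [Finset.prod_eq_zero_iff] at h0
  obtain ⟨p, hp, hp0⟩ := h0
  rw [Finset.mem_product, Finset.mem_Icc, Finset.mem_Icc] at hp
  unfold Gf at hp0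
  rw [hMf, hMf, smul_pow, smul_pow, smul_mul_smul_comm, smul_mul_smul_comm, mul_comm (lam ^ p.2), ← smul_sub,
    Matrix.smul_apply, smul_eq_mul] at hp0
  rcases mul_eq_zero.1 hp0 with h1 | h1
  · exact mul_ne_zero (pow_ne_zero _ hc.1) (pow_ne_zero _ hc.1) h1
  · exact hen p hp.1.1 hp.2.1 h1

end Pool.Agent.Y123.ST
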