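import Pool.Agent.Y123.ST.Full2
import Pool.Agent.Y123.ST.Cl2

/-!
# The criterion: no relations of bounded degree implies that the smallest subtorsor is the torsor
-/

set_option autoImplicit false
set_option linter.unusedSectionVars false

open Matrix

namespace Pool.Agent.Y123.ST

open Pool.Agent.TH127.PT Pool.Agent.Y118.HP

variable {n N : ℕ} {K : Subfield ℂ} {T : Set (Matrix (Fin n × Fin N) (Fin n × Fin N) ℂ)}
  {Q c : Fin N → Matrix (Fin n) (Fin n) ℂ} {lam : ℂ}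

theorem full_of_EE (hn : Even n) (hK : ∀ x ∈ K, IsAlgebraic ℚ x) (hT : IsSubtorsor K T) (hQ : ∀ j a b, Q j a b ∈ K)
    (hc : (c, lam) ∈ Tor Q) (hcT : bd c ∈ T) (hlam : Transcendental ℚ lam)
    (hE : ∀ j u, EE u ∈ LJ T j) : ∀ x ∈ Tor Q, bd x.1 ∈ T := by
  obtain ⟨D, hD⟩ := exists_der_ne hK hlam
  have h1 := one_LL hn hT hQ hc hcT hE hD
  rintro ⟨X, mu⟩ ⟨hmu, hX⟩
  simp only at hmu hX ⊢
  have hl : lam ≠ 0 := hc.1
  obtain ⟨μ, hμ⟩ := IsAlgClosed.exists_pow_nat_eq (mu / lam) (by norm_num : 0 < 2)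
  have hμ0 : μ ≠ 0 := by
    rintro rfl
    have : mu / lam = 0 := by rw [← hμ]; norm_num
    exact div_ne_zero hmu hl this
  have hg : ∀ j, μ⁻¹ • (X j * (c j)⁻¹) ∈ SpS ℂ n := by
    intro j
    have h2 := hc.2 j
    simp only at h2
    obtain ⟨hdet, -⟩ := tor_det hn hl h2
    have hcc' : (c j)⁻¹ * c j = 1 := nonsing_inv_mul _ hdet
    have h5 : (c j)ᵀ * ((c j)⁻¹)ᵀ = 1 := by rw [← transpose_mul, hcc', transpose_one]
    have h6 : (c j)⁻¹ * jm ℂ n * ((c j)⁻¹)ᵀ = lam⁻¹ • Q j := by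
      have h7 : jm ℂ n = lam⁻¹ • (c j * Q j * (c j)ᵀ) := by
        rw [h2, smul_smul, inv_mul_cancel₀ hl, one_smul]
      rw [h7, Matrix.mul_smul, Matrix.smul_mul]
      congr 1
      calc (c j)⁻¹ * (c j * Q j * (c j)ᵀ) * ((c j)⁻¹)ᵀ = ((c j)⁻¹ * c j) * Q j * ((c j)ᵀ * ((c j)⁻¹)ᵀ) := by
            simp only [Matrix.mul_assoc]
        _ = Q j := by rw [hcc', h5, Matrix.one_mul, Matrix.mul_one]
    show μ⁻¹ • (X j * (c j)⁻¹) * jm ℂ n * (μ⁻¹ • (X j * (c j)⁻¹))ᵀ = jm ℂ n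
    rw [transpose_smul, Matrix.smul_mul, Matrix.mul_smul, Matrix.smul_mul, smul_smul, transpose_mul]
    have h8 : X j * (c j)⁻¹ * jm ℂ n * (((c j)⁻¹)ᵀ * (X j)ᵀ) = X j * ((c j)⁻¹ * jm ℂ n * ((c j)⁻¹)ᵀ) * (X j)ᵀ := by
      simp only [Matrix.mul_assoc]
    rw [h8, h6, Matrix.mul_smul, Matrix.smul_mul, hX j, smul_smul, smul_smul]
    have h9 : μ⁻¹ * μ⁻¹ * lam⁻¹ * mu = 1 := by
      have : lam⁻¹ * mu = μ ^ 2 := by rw [hμ]; ring
      rw [mul_assoc _ lam⁻¹, this]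
      field_simp
    rw [h9, one_smul]
  have h2 := exp_one hT h1 (bd_stab hn hT hE hg hcT) hμ0
  convert h2 using 1
  rw [bd_mul]
  show bd X = μ • blockDiagonal _
  rw [← blockDiagonal_smul]
  congr 1
  funext j
  have hdet := (tor_det hn hl (hc.2 j)).1
  rw [Pi.smul_apply, Matrix.smul_mul, smul_smul, mul_inv_cancel₀ hμ0, one_smul, Matrix.mul_assoc,
    nonsing_inv_mul _ hdet, Matrix.mul_one]


/-- the torsor is a subtorsor -/
theorem tor_sub (hn : Even n) (hn0 : 0 < n) (hN : 0 < N) (hQ : ∀ j a b, Q j a b ∈ K) (hc : (c, lam) ∈ Tor Q) :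
    IsSubtorsor K {x : Matrix (Fin n × Fin N) (Fin n × Fin N) ℂ | ∃ X mu, x = bd X ∧ (X, mu) ∈ Tor Q} := by
  have h1 := TF_sub (κ := Empty) (m := 0) (a := fun _ => 1) hn hn0 hN hQ hc (fun _ => K.one_mem) (fun _ => 1)
  convert h1 using 1
  ext x
  constructor
  · rintro ⟨X, mu, h2, h3⟩
    refine ⟨X, mu, h2, h3, fun I => ?_⟩
    simp
  · rintro ⟨X, mu, h2, h3, -⟩
    exact ⟨X, mu, h2, h3⟩

/-- **The criterion.** For every even `n > 0` there is `d` such that: if there are no relations of degree at most `d` over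
`K` other than those of the torsor, then every `K`-subtorsor which contains the point contains the torsor. -/
theorem crit (n : ℕ) (hn : Even n) (hn0 : 0 < n) : ∃ d : ℕ, ∀ (N : ℕ) (K : Subfield ℂ)
    (T : Set (Matrix (Fin n × Fin N) (Fin n × Fin N) ℂ)) (Q c : Fin N → Matrix (Fin n) (Fin n) ℂ) (lam : ℂ), 0 < N →
    (∀ x ∈ K, IsAlgebraic ℚ x) → IsSubtorsor K T → (∀ j a b, Q j a b ∈ K) → (c, lam) ∈ Tor Q → bd c ∈ T →
    Transcendental ℚ lam → NoRel K Q c d → ∀ x ∈ Tor Q, bd x.1 ∈ T := by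
  obtain ⟨d, hd2, hd⟩ := no_alg n hn hn0
  refine ⟨d, ?_⟩
  intro N K T Q c lam hN hK hT hQ hc hcT hlam hr
  set T' := {x : Matrix (Fin n × Fin N) (Fin n × Fin N) ℂ | ∃ X mu, x = bd X ∧ (X, mu) ∈ Tor Q} ∩ T with hT'def
  have hT' : IsSubtorsor K T' := inter_sub (tor_sub hn hn0 hN hQ hc) hT
  have hcT' : bd c ∈ T' := ⟨⟨c, lam, rfl, hc⟩, hcT⟩
  have hC : CStab T' := cstab hn hT' hQ hc hcT' (hr.quad hd2)
  have hE : ∀ j u, EE u ∈ LJ T' j := by
    intro j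
    by_contra hcon
    have hno : ∀ v : Fin n → ℂ, v ≠ 0 → EE v ∉ LJ T' j := by
      intro v hv0 hv
      exact hcon (EE_all hn hC j hv0 hv)
    refine hd N K T' Q c lam j hT' (fun y hy => hy.1) hc hcT' hr ?_
    intro X hX
    by_contra hnon
    obtain ⟨X', mu, hXX, hXt⟩ := hX.1
    have h3 : X = X' := bd_inj hXX
    subst h3
    obtain ⟨D, hD⟩ := exists_ld hn hK hXt j hnon
    obtain ⟨v, hv⟩ := exists_vec hn (ld_rel hn hQ hXt D j) (hD _)
    have hv0 : v ≠ 0 := by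
      rintro rfl
      apply hv
      rw [zero_dotProduct]
    exact hno v hv0 (EE_mem_of hC (ld_mem hn hT' hXt hX D) j hv)
  intro x hx
  exact (full_of_EE hn hK hT' hQ hc hcT' hlam hE x hx).2

/-- the classes: version without transcendence assumptions on the blocks -/
theorem cls_crit (n : ℕ) (hn : Even n) (hn0 : 0 < n) : ∃ d : ℕ, ∀ (N : ℕ) (K : Subfield ℂ)
    (Q c : Fin N → Matrix (Fin n) (Fin n) ℂ) (lam : ℂ), 0 < N →
    (∀ x ∈ K, IsAlgebraic ℚ x) → (∀ j a b, Q j a b ∈ K) → (c, lam) ∈ Tor Q →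
    Transcendental ℚ lam → NoRel K Q c d →
    ∀ (κ : Type) [Fintype κ] [DecidableEq κ] (m : ℕ) (F : (κ → Fin n × Fin N) → ℚ),
    (∃ a : (κ → Fin n × Fin N) → ℂ, (∀ I, a I ∈ K) ∧ Cls c lam m a F) ↔
      F ∈ Submodule.span ℚ {G | ∃ (e : Fin m × Fin 2 ≃ κ) (b : Fin m → Fin N), G = pr n e b} := by
  obtain ⟨d, hd⟩ := crit n hn hn0
  refine ⟨d, ?_⟩
  intro N K Q c lam hN hK hQ hc hlam hr κ _ _ m F
  constructor
  · rintro ⟨a, ha, hF⟩
    by_cases h0 : F = 0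
    · rw [h0]
      exact Submodule.zero_mem _
    · have hall : ∀ x ∈ Tor Q, Cls x.1 x.2 m a F := by
        intro x hx
        obtain ⟨X, mu, h1, h2, h3⟩ := hd N K _ Q c lam hN hK (TF_sub hn hn0 hN hQ hc ha F) hQ hc
          ⟨c, lam, rfl, hc, hF⟩ hlam hr x hx
        have h4 : x.1 = X := bd_inj h1
        subst h4
        have h5 : x.2 = mu := tor_lam hn hn0 hN (show (x.1, x.2) ∈ Tor Q from hx) h2
        rw [h5]
        exact h3
      exact span_of hn (deg_of hc hall h0) (fun g hg => inv_of hc hall hg)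
  · intro h
    exact cls_of_span hc hQ h

end Pool.Agent.Y123.ST
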