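import Mathlib

/-!
# Finite groups of unitary operators: powers commute
-/

set_option autoImplicit false

namespace Pool.Agent.Y123.ST.Jor

variable {E : Type*} [NormedAddCommGroup E] [InnerProductSpace ℂ E] [FiniteDimensional ℂ E] [CompleteSpace E]

/-- the commutator of unitary operators -/
noncomputable def cm (x y : E →L[ℂ] E) : E →L[ℂ] E := x * y * star x * star y

theorem cm_mem {x y : E →L[ℂ] E} (hx : x ∈ unitary (E →L[ℂ] E)) (hy : y ∈ unitary (E →L[ℂ] E)) :
    cm x y ∈ unitary (E →L[ℂ] E) :=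
  mul_mem (mul_mem (mul_mem hx hy) (Unitary.star_mem hx)) (Unitary.star_mem hy)

theorem cm_norm {x y : E →L[ℂ] E} (hx : x ∈ unitary (E →L[ℂ] E)) (hy : y ∈ unitary (E →L[ℂ] E)) :
    ‖cm x y - 1‖ ≤ 2 * ‖x - 1‖ * ‖y - 1‖ := by
  have hx1 : star x * x = 1 := (Unitary.mem_iff.1 hx).1
  have hy1 : star y * y = 1 := (Unitary.mem_iff.1 hy).1
  have h1 : (cm x y - 1) * (y * x) = (x - 1) * (y - 1) - (y - 1) * (x - 1) := by
    have h2 : cm x y * (y * x) = x * y := by
      unfold cm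
      calc x * y * star x * star y * (y * x) = x * y * star x * (star y * y) * x := by noncomm_ring
        _ = x * y * (star x * x) := by rw [hy1]; noncomm_ring
        _ = x * y := by rw [hx1, mul_one]
    rw [sub_mul, h2, one_mul]
    noncomm_ring
  rw [← CStarRing.norm_mul_mem_unitary (cm x y - 1) (mul_mem hy hx), h1]
  refine (norm_sub_le _ _).trans ?_
  have h3 := norm_mul_le (x - 1) (y - 1)
  have h4 := norm_mul_le (y - 1) (x - 1)
  nlinarith

theorem cm_eq_one {x y : E →L[ℂ] E} (hx : x ∈ unitary (E →L[ℂ] E)) (hy : y ∈ unitary (E →L[ℂ] E)) (h : cm x y = 1) :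
    x * y = y * x := by
  have hx1 : star x * x = 1 := (Unitary.mem_iff.1 hx).1
  have hy1 : star y * y = 1 := (Unitary.mem_iff.1 hy).1
  have h2 : cm x y * (y * x) = x * y := by
    unfold cm
    calc x * y * star x * star y * (y * x) = x * y * star x * (star y * y) * x := by noncomm_ring
      _ = x * y * (star x * x) := by rw [hy1]; noncomm_ring
      _ = x * y := by rw [hx1, mul_one]
  rw [← h2, h, one_mul]

/-- joint eigenvectors -/
theorem exists_joint {c x : E →L[ℂ] E} (hcx : c * x = x * c) (hc : c ≠ 1) {m : ℕ} (hm : 0 < m) (hcm : c ^ m = 1) :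
    ∃ (v : E) (ζ lam : ℂ), v ≠ 0 ∧ c v = ζ • v ∧ x v = lam • v ∧ ζ ≠ 1 := by
  -- the range of `c - 1`
  let W : Submodule ℂ E := LinearMap.range ((c - 1 : E →L[ℂ] E) : E →ₗ[ℂ] E)
  have hW : W ≠ ⊥ := by
    intro h
    apply hc
    rw [LinearMap.range_eq_bot] at h
    have h1 : c - 1 = 0 := by
      ext v
      exact LinearMap.congr_fun h v
    exact sub_eq_zero.1 h1
  have hcW : ∀ w ∈ W, c w ∈ W := by
    rintro _ ⟨v, rfl⟩
    refine ⟨c v, ?_⟩
    simp
  have hxW : ∀ w ∈ W, x w ∈ W := by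
    rintro _ ⟨v, rfl⟩
    refine ⟨x v, ?_⟩
    have h1 : c (x v) = x (c v) := congrArg (fun f : E →L[ℂ] E => f v) hcx
    simp [h1]
  have : Nontrivial W := Submodule.nontrivial_iff_ne_bot.2 hW
  let cW : Module.End ℂ W := (c : E →ₗ[ℂ] E).restrict hcW
  let xW : Module.End ℂ W := (x : E →ₗ[ℂ] E).restrict hxW
  obtain ⟨ζ, hζ⟩ := Module.End.exists_eigenvalue cW
  let V := Module.End.eigenspace cW ζ
  have hV : V ≠ ⊥ := hζ
  have hcom : ∀ w : W, cW (xW w) = xW (cW w) := by
    intro w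
    apply Subtype.ext
    show c (x w) = x (c w)
    exact congrArg (fun f : E →L[ℂ] E => f w) hcx
  have hxV : ∀ w ∈ V, xW w ∈ V := by
    intro w hw
    rw [Module.End.mem_eigenspace_iff] at hw ⊢
    rw [hcom, hw, map_smul]
  have : Nontrivial V := Submodule.nontrivial_iff_ne_bot.2 hV
  obtain ⟨lam, hlam⟩ := Module.End.exists_eigenvalue (xW.restrict hxV)
  obtain ⟨v, hv⟩ := hlam.exists_hasEigenvector
  have hv0 : v ≠ 0 := hv.2
  have hv1 := hv.apply_eq_smul
  have hxv : x ((v : W) : E) = lam • ((v : W) : E) := by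
    exact congrArg (fun w : V => ((w : W) : E)) hv1
  have hcv : c ((v : W) : E) = ζ • ((v : W) : E) := by
    have h1 := v.2
    rw [Module.End.mem_eigenspace_iff] at h1
    exact congrArg (fun w : W => (w : E)) h1
  have hvE : ((v : W) : E) ≠ 0 := by
    intro h
    apply hv0
    apply Subtype.ext
    apply Subtype.ext
    exact h
  refine ⟨((v : W) : E), ζ, lam, hvE, hcv, hxv, ?_⟩
  rintro rfl
  -- the sum of the powers kills the range of `c - 1`
  have h1 : (∑ i ∈ Finset.range m, c ^ i) * (c - 1) = 0 := by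
    rw [geom_sum_mul, hcm, sub_self]
  obtain ⟨u, hu⟩ := (v : W).2
  have h2 : (∑ i ∈ Finset.range m, c ^ i) ((v : W) : E) = 0 := by
    rw [← hu]
    exact congrArg (fun f : E →L[ℂ] E => f u) h1
  have h3 : ∀ i : ℕ, (c ^ i) ((v : W) : E) = ((v : W) : E) := by
    intro i
    induction i with
    | zero => simp
    | succ i ih =>
      rw [pow_succ]
      show (c ^ i) (c ((v : W) : E)) = _
      rw [hcv, one_smul, ih]
  rw [sum_apply, Finset.sum_congr rfl (fun i _ => h3 i), Finset.sum_const, Finset.card_range] at h2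
  have h4 : (m : ℂ) • ((v : W) : E) = 0 := by
    rw [← h2]
    exact Nat.cast_smul_eq_nsmul ℂ m _
  rcases smul_eq_zero.1 h4 with h5 | h5
  · exact hm.ne' (by exact_mod_cast h5)
  · exact hvE h5

theorem key {x y : E →L[ℂ] E} (hx : x ∈ unitary (E →L[ℂ] E)) (hy : y ∈ unitary (E →L[ℂ] E))
    (hxc : x * cm x y = cm x y * x) (hy1 : ‖y - 1‖ < 1) {m : ℕ} (hm : 0 < m) (hcm : cm x y ^ m = 1) : cm x y = 1 := by
  by_contra hne
  obtain ⟨v, ζ, lam, hv, hcv, hxv, hζ⟩ := exists_joint hxc.symm hne hm hcm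
  have hsx : star x ∈ unitary (E →L[ℂ] E) := Unitary.star_mem hx
  have hsy : star y ∈ unitary (E →L[ℂ] E) := Unitary.star_mem hy
  have hx2 : x * star x = 1 := (Unitary.mem_iff.1 hx).2
  have hx1 : star x * x = 1 := (Unitary.mem_iff.1 hx).1
  have hy2 : star y * y = 1 := (Unitary.mem_iff.1 hy).1
  have hlam : (starRingEnd ℂ) lam * lam = 1 := by
    have h1 := ContinuousLinearMap.inner_map_map_of_mem_unitary hx v v
    rw [hxv, inner_smul_left, inner_smul_right, ← mul_assoc] at h1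
    have h2 : inner ℂ v v ≠ 0 := inner_self_ne_zero.2 hv
    exact mul_right_cancel₀ h2 (by rw [h1, one_mul])
  have hlam0 : lam ≠ 0 := by
    rintro rfl
    rw [mul_zero] at hlam
    exact zero_ne_one hlam
  have hζ0 : ζ ≠ 0 := by
    rintro rfl
    rw [zero_smul] at hcv
    have h1 := ContinuousLinearMap.norm_map_of_mem_unitary (cm_mem hx hy) v
    rw [hcv, norm_zero] at h1
    exact hv (norm_eq_zero.1 h1.symm)
  set w : E := star y v with hw
  -- `x* v = lam⁻¹ v`
  have h1 : star x v = lam⁻¹ • v := by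
    have h2 : star x (x v) = v := congrArg (fun f : E →L[ℂ] E => f v) hx1
    rw [hxv, map_smul] at h2
    rw [← h2, smul_smul, inv_mul_cancel₀ hlam0, one_smul]
    rw [h2]
  -- `x* w = ζ lam⁻¹ w`
  have h3 : star x w = (ζ * lam⁻¹) • w := by
    have h4 : x (y (star x w)) = ζ • v := by
      rw [← hcv]
      rfl
    have h5 : y (star x w) = (ζ * lam⁻¹) • v := by
      have h6 : star x (x (y (star x w))) = y (star x w) := congrArg (fun f : E →L[ℂ] E => f (y (star x w))) hx1
      rw [← h6, h4, map_smul, h1, smul_smul]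
    have h7 : star y (y (star x w)) = star x w := congrArg (fun f : E →L[ℂ] E => f (star x w)) hy2
    rw [← h7, h5, map_smul]
  have horth : inner ℂ v w = (0 : ℂ) := by
    have h4 := ContinuousLinearMap.inner_map_map_of_mem_unitary hsx v w
    rw [h1, h3, inner_smul_left, inner_smul_right, ← mul_assoc] at h4
    have h5 : (starRingEnd ℂ) lam⁻¹ * (ζ * lam⁻¹) = ζ := by
      have h6 : (starRingEnd ℂ) lam⁻¹ * lam⁻¹ = 1 := by
        rw [map_inv₀, ← mul_inv, hlam, inv_one]
      calc (starRingEnd ℂ) lam⁻¹ * (ζ * lam⁻¹) = ζ * ((starRingEnd ℂ) lam⁻¹ * lam⁻¹) := by ring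
        _ = ζ := by rw [h6, mul_one]
    rw [h5] at h4
    by_contra h0
    exact hζ (mul_right_cancel₀ h0 (by rw [h4, one_mul]))
  have hnw : ‖w‖ = ‖v‖ := ContinuousLinearMap.norm_map_of_mem_unitary hsy v
  have h4 : ‖v - w‖ * ‖v - w‖ = ‖v‖ * ‖v‖ + ‖w‖ * ‖w‖ := by
    have h5 := norm_add_sq_eq_norm_sq_add_norm_sq_of_inner_eq_zero (𝕜 := ℂ) v (-w) (by rw [inner_neg_right, horth, neg_zero])
    rwa [← sub_eq_add_neg, norm_neg] at h5
  have h5 : ‖v - w‖ ≤ ‖y - 1‖ * ‖v‖ := by
    have h6 : v - w = -((star (y - 1)) v) := by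
      rw [star_sub, star_one]
      simp [hw]
    rw [h6, norm_neg, ← norm_star (y - 1)]
    exact ContinuousLinearMap.le_opNorm _ _
  have h6 : 0 < ‖v‖ := norm_pos_iff.2 hv
  have h7 : ‖v - w‖ < ‖v‖ := lt_of_le_of_lt h5 (by nlinarith)
  rw [hnw] at h4
  nlinarith [norm_nonneg (v - w)]

/-- unitary operators close to one in a finite group commute -/
theorem close_comm {G : Set (E →L[ℂ] E)} (hG : G.Finite) (hU : ∀ x ∈ G, x ∈ unitary (E →L[ℂ] E))
    (hmul : ∀ x ∈ G, ∀ y ∈ G, x * y ∈ G) (hst : ∀ x ∈ G, star x ∈ G) {x y : E →L[ℂ] E} (hx : x ∈ G) (hy : y ∈ G)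
    (hx1 : ‖x - 1‖ ≤ 1 / 4) (hy1 : ‖y - 1‖ ≤ 1 / 4) : x * y = y * x := by
  obtain ⟨s, s0, ss⟩ : ∃ s : ℕ → (E →L[ℂ] E), s 0 = y ∧ ∀ k, s (k + 1) = cm x (s k) :=
    ⟨fun k => Nat.rec y (fun _ z => cm x z) k, rfl, fun _ => rfl⟩
  have hs : ∀ k, s k ∈ G := by
    intro k
    induction k with
    | zero => rw [s0]; exact hy
    | succ k ih =>
      rw [ss]
      exact hmul _ (hmul _ (hmul _ hx _ ih) _ (hst _ hx)) _ (hst _ ih)
  have hn : ∀ k, ‖s k - 1‖ ≤ (1 / 2) ^ k * (1 / 4) := by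
    intro k
    induction k with
    | zero => rw [s0, pow_zero, one_mul]; exact hy1
    | succ k ih =>
      rw [ss]
      refine (cm_norm (hU _ hx) (hU _ (hs k))).trans ?_
      have h1 : (0 : ℝ) ≤ ‖s k - 1‖ := norm_nonneg _
      rw [pow_succ]
      nlinarith [norm_nonneg (x - 1)]
  have hn' : ∀ k, ‖s k - 1‖ ≤ 1 / 4 := by
    intro k
    refine (hn k).trans ?_
    have : ((1 : ℝ) / 2) ^ k ≤ 1 := pow_le_one₀ (by norm_num) (by norm_num)
    nlinarith
  -- some `s k` is one
  have hex : ∃ k, s k = 1 := by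
    by_contra hcon
    push Not at hcon
    have hfin : ((fun z : E →L[ℂ] E => ‖z - 1‖) '' (G \ {1})).Finite := (hG.subset Set.sdiff_subset).image _
    have hne : ((fun z : E →L[ℂ] E => ‖z - 1‖) '' (G \ {1})).Nonempty := ⟨_, s 0, ⟨hs 0, hcon 0⟩, rfl⟩
    obtain ⟨b, hb, hmin⟩ := hfin.exists_minimal hne
    obtain ⟨z, hz, rfl⟩ := hb
    have hzpos : 0 < ‖z - 1‖ := norm_pos_iff.2 (sub_ne_zero.2 hz.2)
    obtain ⟨k, hk⟩ := exists_pow_lt_of_lt_one hzpos (by norm_num : (1 : ℝ) / 2 < 1)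
    have h1 : ‖s k - 1‖ < ‖z - 1‖ := by
      refine lt_of_le_of_lt (hn k) ?_
      have : (0 : ℝ) < (1 / 2) ^ k := by positivity
      nlinarith
    have h2 := hmin ⟨s k, ⟨hs k, hcon k⟩, rfl⟩ h1.le
    exact absurd h1 (not_lt.2 h2)
  have hex' : ∃ k, s k = 1 ∧ ∀ j < k, s j ≠ 1 := by
    classical
    exact ⟨Nat.find hex, Nat.find_spec hex, fun j hj => Nat.find_min hex hj⟩
  obtain ⟨k, hk, hmin⟩ := hex'
  rcases k with _ | _ | k
  · rw [s0] at hk
    rw [hk, mul_one, one_mul]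
  · rw [ss, s0] at hk
    exact cm_eq_one (hU _ hx) (hU _ hy) hk
  · exfalso
    apply hmin (k + 1) (by omega)
    rw [ss]
    have h1 : x * s (k + 1) = s (k + 1) * x := cm_eq_one (hU _ hx) (hU _ (hs (k + 1))) (by rw [← ss (k + 1)]; exact hk)
    rw [ss] at h1
    -- finite order
    obtain ⟨m, hm, hcm⟩ : ∃ m : ℕ, 0 < m ∧ cm x (s k) ^ m = 1 := by
      have hpow : ∀ i : ℕ, cm x (s k) ^ (i + 1) ∈ G := by
        intro i
        induction i with
        | zero => rw [zero_add, pow_one, ← ss]; exact hs _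
        | succ i ih =>
          rw [pow_succ]
          exact hmul _ ih _ (by rw [← ss]; exact hs _)
      obtain ⟨a, b, hab, hne⟩ : ∃ a b : ℕ, a < b ∧ cm x (s k) ^ (a + 1) = cm x (s k) ^ (b + 1) := by
        by_contra hcon
        push Not at hcon
        have hinj : Function.Injective (fun i : ℕ => cm x (s k) ^ (i + 1)) := by
          intro a b hab
          rcases lt_trichotomy a b with h | h | h
          · exact absurd hab (hcon a b h)
          · exact h
          · exact absurd hab.symm (hcon b a h)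
        exact Set.infinite_of_injective_forall_mem hinj hpow hG
      refine ⟨b - a, by omega, ?_⟩
      have hu := cm_mem (hU _ hx) (hU _ (hs k))
      have hsu : star (cm x (s k) ^ (a + 1)) * cm x (s k) ^ (a + 1) = 1 :=
        (Unitary.mem_iff.1 (pow_mem hu (a + 1))).1
      have h2 : cm x (s k) ^ (b + 1) = cm x (s k) ^ (a + 1) * cm x (s k) ^ (b - a) := by
        rw [← pow_add]
        congr 1
        omega
      have h3 : cm x (s k) ^ (a + 1) * cm x (s k) ^ (b - a) = cm x (s k) ^ (a + 1) := by rw [← h2, hne]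
      calc cm x (s k) ^ (b - a) = star (cm x (s k) ^ (a + 1)) * (cm x (s k) ^ (a + 1) * cm x (s k) ^ (b - a)) := by
            rw [← mul_assoc, hsu, one_mul]
        _ = 1 := by rw [h3, hsu]
    exact key (hU _ hx) (hU _ (hs k)) h1 (lt_of_le_of_lt (hn' k) (by norm_num)) hm hcm

/-- powers of unitary operators are close to one -/
theorem exists_J (E : Type*) [NormedAddCommGroup E] [InnerProductSpace ℂ E] [FiniteDimensional ℂ E] [CompleteSpace E] :
    ∃ J : ℕ, ∀ x ∈ unitary (E →L[ℂ] E), ∃ k, 1 ≤ k ∧ k ≤ J ∧ ‖x ^ k - 1‖ ≤ 1 / 4 := by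
  have hcomp : IsCompact (Metric.closedBall (0 : E →L[ℂ] E) 1) := by
    have : ProperSpace (E →L[ℂ] E) := FiniteDimensional.proper ℂ _
    exact isCompact_closedBall _ _
  obtain ⟨t, -, ht, hcov⟩ := hcomp.finite_cover_balls (by norm_num : (0 : ℝ) < 1 / 8)
  refine ⟨ht.toFinset.card, fun x hx => ?_⟩
  have hb : ∀ k : ℕ, ∃ z ∈ t, x ^ k ∈ Metric.ball z (1 / 8) := by
    intro k
    have h1 : x ^ k ∈ Metric.closedBall (0 : E →L[ℂ] E) 1 := by
      rw [mem_closedBall_zero_iff]
      have h2 : x ^ k ∈ unitary (E →L[ℂ] E) := pow_mem hx k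
      have h3 := ContinuousLinearMap.norm_map_of_mem_unitary h2
      refine ContinuousLinearMap.opNorm_le_bound _ zero_le_one fun v => ?_
      rw [h3, one_mul]
    have h2 := hcov h1
    simpa using h2
  choose f hf hf' using hb
  obtain ⟨a, ha, b, hb', hab, hfab⟩ := Finset.exists_ne_map_eq_of_card_lt_of_maps_to
    (s := Finset.range (ht.toFinset.card + 1)) (t := ht.toFinset) (by rw [Finset.card_range]; omega)
    (f := f) (fun k _ => by simpa using hf k)
  rw [Finset.mem_range] at ha hb'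
  have main : ∀ a b : ℕ, a < b → b < ht.toFinset.card + 1 → f a = f b →
      ∃ k, 1 ≤ k ∧ k ≤ ht.toFinset.card ∧ ‖x ^ k - 1‖ ≤ 1 / 4 := by
    intro a b hab hb hfab
    refine ⟨b - a, by omega, by omega, ?_⟩
    have h1 := hf' a
    have h2 := hf' b
    rw [Metric.mem_ball, dist_eq_norm] at h1 h2
    rw [hfab] at h1
    have h3 : ‖x ^ b - x ^ a‖ ≤ 1 / 4 := by
      have h4 : x ^ b - x ^ a = (x ^ b - f b) - (x ^ a - f b) := by abel
      rw [h4]
      refine (norm_sub_le _ _).trans ?_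
      linarith
    have h4 : x ^ a * (x ^ (b - a) - 1) = x ^ b - x ^ a := by
      rw [mul_sub, mul_one, ← pow_add]
      congr 2
      omega
    rw [← CStarRing.norm_mem_unitary_mul (x ^ (b - a) - 1) (pow_mem hx a), h4]
    exact h3
  rcases lt_or_gt_of_ne hab with h | h
  · exact main a b h hb' hfab
  · exact main b a h ha hfab.symm

end Pool.Agent.Y123.ST.Jor
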