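import Pool.Agent.Y123.ST.Dd

/-!
# The Lie algebras of a subtorsor
-/

set_option autoImplicit false
set_option linter.unusedSectionVars false

open Matrix MvPolynomial

namespace Pool.Agent.Y123.ST

open Pool.Agent.TH127.PT Pool.Agent.TH119.MX Pool.Agent.TH119.DR

variable {N : Type} [Fintype N] [DecidableEq N]

/-- a matrix as a function -/
def fl (x : Matrix N N ℂ) : N × N → ℂ := fun b => x b.1 b.2

/-- a function as a matrix -/
def um (y : N × N → ℂ) : Matrix N N ℂ := Matrix.of fun i j => y (i, j)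

@[simp] theorem fl_um (y : N × N → ℂ) : fl (um y) = y := rfl
@[simp] theorem um_fl (x : Matrix N N ℂ) : um (fl x) = x := rfl

theorem fl_add (x y : Matrix N N ℂ) : fl (x + y) = fl x + fl y := rfl
theorem fl_smul (a : ℂ) (x : Matrix N N ℂ) : fl (a • x) = a • fl x := rfl
theorem um_add (x y : N × N → ℂ) : um (x + y) = um x + um y := rfl
theorem um_smul (a : ℂ) (x : N × N → ℂ) : um (a • x) = a • um x := rfl
theorem um_zero : um (0 : N × N → ℂ) = 0 := rfl
theorem fl_zero : fl (0 : Matrix N N ℂ) = 0 := rfl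

/-- left multiplication -/
def ml (g : Matrix N N ℂ) : (N × N → ℂ) →ₗ[ℂ] (N × N → ℂ) where
  toFun y := fl (g * um y)
  map_add' x y := by rw [um_add, Matrix.mul_add, fl_add]
  map_smul' a x := by rw [um_smul, Matrix.mul_smul, fl_smul]; rfl

/-- right multiplication -/
def mr (g : Matrix N N ℂ) : (N × N → ℂ) →ₗ[ℂ] (N × N → ℂ) where
  toFun y := fl (um y * g)
  map_add' x y := by rw [um_add, Matrix.add_mul, fl_add]
  map_smul' a x := by rw [um_smul, Matrix.smul_mul, fl_smul]; rfl

theorem ml_fl (g x : Matrix N N ℂ) : ml g (fl x) = fl (g * x) := rfl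
theorem mr_fl (g x : Matrix N N ℂ) : mr g (fl x) = fl (x * g) := rfl

/-- `P` vanishes on `T` -/
def Van (T : Set (Matrix N N ℂ)) (P : MvPolynomial (N × N) ℂ) : Prop := ∀ x ∈ T, eval (fl x) P = 0

/-- the left Lie algebra -/
def LL (T : Set (Matrix N N ℂ)) : Submodule ℂ (N × N → ℂ) where
  carrier := {w | ∀ P, Van T P → ∀ x ∈ T, dd P (fl x) (fl (um w * x)) = 0}
  zero_mem' := by
    intro P _ x _
    rw [um_zero, Matrix.zero_mul, fl_zero, dd_zero_right]
  add_mem' := by
    intro v w hv hw P hP x hx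
    rw [um_add, Matrix.add_mul, fl_add, dd_add_right, hv P hP x hx, hw P hP x hx, add_zero]
  smul_mem' := by
    intro a v hv P hP x hx
    rw [um_smul, Matrix.smul_mul, fl_smul, dd_smul_right, hv P hP x hx, mul_zero]

/-- the right Lie algebra -/
def RR (T : Set (Matrix N N ℂ)) : Submodule ℂ (N × N → ℂ) where
  carrier := {w | ∀ P, Van T P → ∀ x ∈ T, dd P (fl x) (fl (x * um w)) = 0}
  zero_mem' := by
    intro P _ x _
    rw [um_zero, Matrix.mul_zero, fl_zero, dd_zero_right]
  add_mem' := by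
    intro v w hv hw P hP x hx
    rw [um_add, Matrix.mul_add, fl_add, dd_add_right, hv P hP x hx, hw P hP x hx, add_zero]
  smul_mem' := by
    intro a v hv P hP x hx
    rw [um_smul, Matrix.mul_smul, fl_smul, dd_smul_right, hv P hP x hx, mul_zero]

theorem mem_LL {T : Set (Matrix N N ℂ)} {w : N × N → ℂ} :
    w ∈ LL T ↔ ∀ P, Van T P → ∀ x ∈ T, dd P (fl x) (fl (um w * x)) = 0 := Iff.rfl

theorem mem_RR {T : Set (Matrix N N ℂ)} {w : N × N → ℂ} :
    w ∈ RR T ↔ ∀ P, Van T P → ∀ x ∈ T, dd P (fl x) (fl (x * um w)) = 0 := Iff.rfl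

variable {K : Subfield ℂ} {T : Set (Matrix N N ℂ)}

theorem aut_mem (hT : IsSubtorsor K T) {σ : ℂ ≃+* ℂ} (hσ : ∀ x ∈ K, σ x = x) {x : Matrix N N ℂ}
    (hx : x ∈ T) : x.map σ ∈ T := by
  obtain ⟨I, h1, h2⟩ := hT.algebraic
  rw [h2]
  refine ⟨?_, fun p hp => ?_⟩
  · exact (hT.isUnit x hx).map ((σ : ℂ →+* ℂ).mapMatrix (m := N))
  · have h3 := ((h2 x).1 hx).2 p hp
    have h4 := eval_aut' σ p (fun b : N × N => x b.1 b.2)
    have h5 : p.map (σ : ℂ →+* ℂ) = p := by
      ext m
      rw [coeff_map]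
      exact hσ _ (h1 p hp m)
    rw [h3, map_zero, h5] at h4
    exact h4.symm

theorem symm_fix {σ : ℂ ≃+* ℂ} (hσ : ∀ x ∈ K, σ x = x) : ∀ x ∈ K, σ.symm x = x := by
  intro x hx
  rw [RingEquiv.symm_apply_eq, hσ x hx]

theorem van_aut (hT : IsSubtorsor K T) {σ : ℂ ≃+* ℂ} (hσ : ∀ x ∈ K, σ x = x) {P : MvPolynomial (N × N) ℂ}
    (hP : Van T P) : Van T (P.map (σ : ℂ →+* ℂ)) := by
  intro x hx
  have h1 := hP _ (aut_mem hT (symm_fix hσ) hx)
  have h2 := eval_aut' σ P (fl (x.map σ.symm))
  rw [h1, map_zero] at h2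
  rw [h2]
  congr 2
  funext b
  simp [fl]

theorem fl_map_mul (σ : ℂ ≃+* ℂ) (x y : Matrix N N ℂ) : fl ((x * y).map σ) = fl (x.map σ * y.map σ) := by
  have := Matrix.map_mul (f := (σ : ℂ →+* ℂ)) (L := x) (M := y)
  exact congrArg fl this

theorem LL_aut (hT : IsSubtorsor K T) (σ : ℂ ≃+* ℂ) (hσ : ∀ x ∈ K, σ x = x) (w : N × N → ℂ) (hw : w ∈ LL T) :
    (fun i => σ (w i)) ∈ LL T := by
  intro P hP x hx
  have h1 := hw _ (van_aut hT (symm_fix hσ) hP) _ (aut_mem hT (symm_fix hσ) hx)
  have h2 := dd_aut σ (P.map (σ.symm : ℂ →+* ℂ)) (fl (x.map σ.symm)) (fl (um w * x.map σ.symm))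
  rw [h1, map_zero, MvPolynomial.map_map] at h2
  have h3 : (σ : ℂ →+* ℂ).comp (σ.symm : ℂ →+* ℂ) = RingHom.id ℂ := by
    ext z
    simp
  rw [h3, MvPolynomial.map_id] at h2
  have h4 : (fun b => σ (fl (x.map σ.symm) b)) = fl x := by
    funext b
    simp [fl]
  have h5 : (fun b => σ (fl (um w * x.map σ.symm) b)) = fl (um (fun i => σ (w i)) * x) := by
    have h6 := fl_map_mul σ (um w) (x.map σ.symm)
    have h7 : (x.map σ.symm).map σ = x := by
      ext i j
      simp
    rw [h7] at h6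
    exact h6
  rw [h4, h5] at h2
  exact h2.symm

theorem RR_aut (hT : IsSubtorsor K T) (σ : ℂ ≃+* ℂ) (hσ : ∀ x ∈ K, σ x = x) (w : N × N → ℂ) (hw : w ∈ RR T) :
    (fun i => σ (w i)) ∈ RR T := by
  intro P hP x hx
  have h1 := hw _ (van_aut hT (symm_fix hσ) hP) _ (aut_mem hT (symm_fix hσ) hx)
  have h2 := dd_aut σ (P.map (σ.symm : ℂ →+* ℂ)) (fl (x.map σ.symm)) (fl (x.map σ.symm * um w))
  rw [h1, map_zero, MvPolynomial.map_map] at h2
  have h3 : (σ : ℂ →+* ℂ).comp (σ.symm : ℂ →+* ℂ) = RingHom.id ℂ := by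
    ext z
    simp
  rw [h3, MvPolynomial.map_id] at h2
  have h4 : (fun b => σ (fl (x.map σ.symm) b)) = fl x := by
    funext b
    simp [fl]
  have h5 : (fun b => σ (fl (x.map σ.symm * um w) b)) = fl (x * um (fun i => σ (w i))) := by
    have h6 := fl_map_mul σ (x.map σ.symm) (um w)
    have h7 : (x.map σ.symm).map σ = x := by
      ext i j
      simp
    rw [h7] at h6
    exact h6
  rw [h4, h5] at h2
  exact h2.symm

theorem LL_def (hT : IsSubtorsor K T) : DefOver K (LL T) :=
  defOver_of_aut (LL T) (LL_aut hT)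

theorem RR_def (hT : IsSubtorsor K T) : DefOver K (RR T) :=
  defOver_of_aut (RR T) (RR_aut hT)

/-- the translates of a polynomial which vanishes on `T` -/
theorem van_left (hT : IsSubtorsor K T) {P : MvPolynomial (N × N) ℂ} (hP : Van T P) {x y : Matrix N N ℂ}
    (hx : x ∈ T) (hy : y ∈ T) : Van T (cp (ml (y * x⁻¹)) P) := by
  intro z hz
  rw [eval_cp, ml_fl]
  exact hP _ (hT.torsor y hy x hx z hz)

theorem van_right (hT : IsSubtorsor K T) {P : MvPolynomial (N × N) ℂ} (hP : Van T P) {x y : Matrix N N ℂ}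
    (hx : x ∈ T) (hy : y ∈ T) : Van T (cp (mr (x⁻¹ * y)) P) := by
  intro z hz
  rw [eval_cp, mr_fl, ← Matrix.mul_assoc]
  exact hP _ (hT.torsor z hz x hx y hy)

theorem inv_mul' (hT : IsSubtorsor K T) {x : Matrix N N ℂ} (hx : x ∈ T) : x⁻¹ * x = 1 :=
  Matrix.nonsing_inv_mul x ((Matrix.isUnit_iff_isUnit_det x).1 (hT.isUnit x hx))

theorem mul_inv' (hT : IsSubtorsor K T) {x : Matrix N N ℂ} (hx : x ∈ T) : x * x⁻¹ = 1 :=
  Matrix.mul_nonsing_inv x ((Matrix.isUnit_iff_isUnit_det x).1 (hT.isUnit x hx))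

/-- from the left to the right Lie algebra -/
theorem conj_mem (hT : IsSubtorsor K T) {x w : Matrix N N ℂ} (hx : x ∈ T) (hw : fl w ∈ LL T) :
    fl (x⁻¹ * w * x) ∈ RR T := by
  intro P hP y hy
  have h1 := hw _ (van_left hT hP hx hy) x hx
  rw [dd_cp, ml_fl, ml_fl, um_fl, Matrix.mul_assoc, inv_mul' hT hx, Matrix.mul_one] at h1
  have h2 : y * x⁻¹ * (w * x) = y * (x⁻¹ * w * x) := by simp only [Matrix.mul_assoc]
  rw [h2] at h1
  exact h1

theorem conj_mem' (hT : IsSubtorsor K T) {x w : Matrix N N ℂ} (hx : x ∈ T) (hw : fl w ∈ RR T) :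
    fl (x * w * x⁻¹) ∈ LL T := by
  intro P hP y hy
  have h1 := hw _ (van_right hT hP hx hy) x hx
  rw [dd_cp, mr_fl, mr_fl, um_fl, ← Matrix.mul_assoc x, mul_inv' hT hx, Matrix.one_mul] at h1
  have h2 : x * w * (x⁻¹ * y) = x * w * x⁻¹ * y := by simp only [Matrix.mul_assoc]
  rw [h2] at h1
  exact h1

/-- the derivative of a point along a derivation over `K` is tangent -/
theorem der_tangent (hT : IsSubtorsor K T) (D : Derivation K ℂ ℂ) {c : Matrix N N ℂ} (hc : c ∈ T)
    {P : MvPolynomial (N × N) ℂ} (hP : Van T P) : dd P (fl c) (fl (c.map D)) = 0 := by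
  classical
  -- the space of the coefficients of the polynomials with the given support
  let S := P.support
  let F : (S → ℂ) → MvPolynomial (N × N) ℂ := fun v => ∑ m : S, monomial (m : (N × N) →₀ ℕ) (v m)
  have Fadd : ∀ v w, F (v + w) = F v + F w := by
    intro v w
    simp only [F, Pi.add_apply, map_add, Finset.sum_add_distrib]
  have Fsmul : ∀ (a : ℂ) v, F (a • v) = a • F v := by
    intro a v
    simp only [F, Pi.smul_apply, Finset.smul_sum, smul_monomial]
  let W : Submodule ℂ (S → ℂ) :=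
    { carrier := {v | Van T (F v)}
      zero_mem' := by
        intro x _
        have : F 0 = 0 := by simp [F]
        rw [this, map_zero]
      add_mem' := by
        intro v w hv hw x hx
        rw [Fadd, map_add, hv x hx, hw x hx, add_zero]
      smul_mem' := by
        intro a v hv x hx
        rw [Fsmul, smul_eval, hv x hx, mul_zero] }
  have hW : DefOver K W := by
    refine defOver_of_aut W fun σ hσ v hv => ?_
    have h1 := van_aut hT hσ hv
    have h2 : (F v).map (σ : ℂ →+* ℂ) = F (fun i => σ (v i)) := by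
      simp only [F, map_sum, map_monomial]
      rfl
    rw [h2] at h1
    exact h1
  have hPF : F (fun m => P.coeff m) = P := by
    simp only [F]
    rw [Finset.sum_coe_sort S (fun m => monomial m (P.coeff m))]
    exact P.support_sum_monomial_coeff
  have hmem : (fun m : S => P.coeff m) ∈ W := by
    show Van T (F _)
    rw [hPF]
    exact hP
  have key : ∀ v ∈ Submodule.span ℂ {w : S → ℂ | w ∈ W ∧ ∀ a, w a ∈ K}, dd (F v) (fl c) (fl (c.map D)) = 0 := by
    intro v hv
    induction hv using Submodule.span_induction with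
    | mem w hw =>
      obtain ⟨hw1, hw2⟩ := hw
      have hcoef : ∀ m, (F w).coeff m ∈ K := by
        intro m
        simp only [F, coeff_sum, coeff_monomial]
        refine sum_mem fun i _ => ?_
        split_ifs
        · exact hw2 i
        · exact K.zero_mem
      have h1 := dd_der' D (F w) hcoef (fl c)
      rw [hw1 c hc, map_zero] at h1
      exact h1
    | zero =>
      have : F 0 = 0 := by simp [F]
      rw [this]
      simp [dd]
    | add v w _ _ hv hw => rw [Fadd, dd_add, hv, hw, add_zero]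
    | smul a v _ hv => rw [Fsmul, dd_smul, hv, mul_zero]
  have h1 := key _ (hW hmem)
  rw [hPF] at h1
  exact h1

/-- the logarithmic derivatives of a point are in the left Lie algebra -/
theorem logder_mem (hT : IsSubtorsor K T) (D : Derivation K ℂ ℂ) {c : Matrix N N ℂ} (hc : c ∈ T) :
    fl (c.map D * c⁻¹) ∈ LL T := by
  intro P hP x hx
  have h1 := der_tangent hT D hc (van_right hT hP hc hx)
  rw [dd_cp, mr_fl, mr_fl, ← Matrix.mul_assoc, mul_inv' hT hc, Matrix.one_mul] at h1
  rw [um_fl, Matrix.mul_assoc]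
  exact h1

/-- **The main step**: if the relations over `K` between `c` and `c⁻¹` which say that `c⁻¹ 𝔥 c = 𝔥'` hold at `x` then
`x⁻¹ 𝔥 x ⊆ 𝔥'`. -/
theorem conj_of_rel (hT : IsSubtorsor K T) {c x : Matrix N N ℂ} (hc : c ∈ T)
    (hx : ∀ (A : Matrix N N ℂ) (u : N × N → ℂ), (∀ i j, A i j ∈ K) → (∀ b, u b ∈ K) →
      ∑ b, u b * fl (c⁻¹ * A * c) b = 0 → ∑ b, u b * fl (x⁻¹ * A * x) b = 0)
    {w : Matrix N N ℂ} (hw : fl w ∈ LL T) : fl (x⁻¹ * w * x) ∈ RR T := by
  classical
  -- the annihilator of the right Lie algebra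
  let An : Submodule ℂ (N × N → ℂ) :=
    { carrier := {u | ∀ a ∈ RR T, ∑ b, u b * a b = 0}
      zero_mem' := by intro a _; simp
      add_mem' := by
        intro u v hu hv a ha
        simp only [Pi.add_apply, add_mul, Finset.sum_add_distrib]
        rw [hu a ha, hv a ha, add_zero]
      smul_mem' := by
        intro z u hu a ha
        simp only [Pi.smul_apply, smul_eq_mul, mul_assoc, ← Finset.mul_sum]
        rw [hu a ha, mul_zero] }
  have hAn : DefOver K An := by
    refine defOver_of_aut An fun σ hσ u hu a ha => ?_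
    have h1 := hu _ (RR_aut hT σ.symm (symm_fix hσ) a ha)
    have h2 := congrArg σ h1
    rw [map_zero, map_sum] at h2
    rw [← h2]
    refine Finset.sum_congr rfl fun b _ => ?_
    rw [map_mul]
    simp
  -- rational matrices
  have step1 : ∀ v ∈ Submodule.span ℂ {w : N × N → ℂ | w ∈ LL T ∧ ∀ a, w a ∈ K}, ∀ u ∈ An,
      ∑ b, u b * fl (x⁻¹ * um v * x) b = 0 := by
    intro v hv
    induction hv using Submodule.span_induction with
    | mem w hw =>
      obtain ⟨hw1, hw2⟩ := hw
      intro u hu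
      have h3 : u ∈ Submodule.span ℂ {u : N × N → ℂ | u ∈ An ∧ ∀ a, u a ∈ K} := hAn hu
      clear hu
      induction h3 using Submodule.span_induction with
      | mem u hu =>
        obtain ⟨hu1, hu2⟩ := hu
        refine hx (um w) u (fun i j => hw2 (i, j)) hu2 ?_
        exact hu1 _ (conj_mem hT hc (by rw [fl_um]; exact hw1))
      | zero => simp
      | add u v _ _ hu hv =>
        simp only [Pi.add_apply, add_mul, Finset.sum_add_distrib]
        rw [hu, hv, add_zero]
      | smul z u _ hu =>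
        simp only [Pi.smul_apply, smul_eq_mul, mul_assoc z, ← Finset.mul_sum]
        rw [hu, mul_zero]
    | zero =>
      intro u _
      rw [um_zero, Matrix.mul_zero, Matrix.zero_mul, fl_zero]
      simp
    | add v w _ _ hv hw =>
      intro u hu
      rw [um_add, Matrix.mul_add, Matrix.add_mul, fl_add]
      simp only [Pi.add_apply, mul_add, Finset.sum_add_distrib]
      rw [hv u hu, hw u hu, add_zero]
    | smul z v _ hv =>
      intro u hu
      rw [um_smul, Matrix.mul_smul, Matrix.smul_mul, fl_smul]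
      have h4 : ∀ b, u b * (z • fl (x⁻¹ * um v * x)) b = z * (u b * fl (x⁻¹ * um v * x) b) := by
        intro b
        rw [Pi.smul_apply, smul_eq_mul]
        ring
      rw [Finset.sum_congr rfl fun b _ => h4 b, ← Finset.mul_sum, hv u hu, mul_zero]
  have h5 := step1 (fl w) (LL_def hT hw)
  rw [um_fl] at h5
  by_contra hcon
  obtain ⟨f, hf1, hf2⟩ := Submodule.exists_le_ker_of_notMem hcon
  have hf3 : ∀ a : N × N → ℂ, f a = ∑ b, f (Pi.single b 1) * a b := by
    intro a
    conv_lhs => rw [LinearMap.pi_apply_eq_sum_univ f a]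
    refine Finset.sum_congr rfl fun b _ => ?_
    have h : (fun j => if b = j then (1 : ℂ) else 0) = Pi.single b 1 := by
      funext j
      simp [Pi.single_apply, eq_comm]
    rw [h, smul_eq_mul, mul_comm]
  apply hf1
  rw [hf3]
  refine h5 (fun b => f (Pi.single b 1)) ?_
  intro a ha
  rw [← hf3]
  exact hf2 ha

end Pool.Agent.Y123.ST
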