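import Pool.Agent.Y123.ST.Block

/-!
# Subtorsors which contain a point without quadratic relations
-/

set_option autoImplicit false
set_option linter.unusedSectionVars false

open Matrix

namespace Pool.Agent.Y123.ST

open Pool.Agent.TH127.PT Pool.Agent.Y118.HP

variable {n N : ℕ} {K : Subfield ℂ}

section der

variable {m : Type*} [Fintype m] [DecidableEq m]

theorem map_der_mul (D : Derivation K ℂ ℂ) (A B : Matrix m m ℂ) :
    (A * B).map D = A.map D * B + A * B.map D := by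
  ext i j
  simp only [Matrix.map_apply, Matrix.mul_apply, Matrix.add_apply, map_sum, D.leibniz, smul_eq_mul,
    Finset.sum_add_distrib]
  rw [add_comm]
  congr 1
  exact Finset.sum_congr rfl fun k _ => by ring

theorem map_der_zero (D : Derivation K ℂ ℂ) {A : Matrix m m ℂ} (hA : ∀ i j, A i j ∈ K) : A.map D = 0 := by
  ext i j
  rw [Matrix.map_apply, Matrix.zero_apply]
  exact D.map_algebraMap (⟨A i j, hA i j⟩ : K)

theorem map_der_smul (D : Derivation K ℂ ℂ) (z : ℂ) {A : Matrix m m ℂ} (hA : ∀ i j, A i j ∈ K) :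
    (z • A).map D = D z • A := by
  ext i j
  rw [Matrix.map_apply, Matrix.smul_apply, Matrix.smul_apply, smul_eq_mul, D.leibniz]
  have : D (A i j) = 0 := D.map_algebraMap (⟨A i j, hA i j⟩ : K)
  rw [this, smul_zero, zero_add, smul_eq_mul, smul_eq_mul, mul_comm]

theorem transpose_map_der (D : Derivation K ℂ ℂ) (A : Matrix m m ℂ) : Aᵀ.map D = (A.map D)ᵀ := rfl

end der

/-- derivations over `K` detect transcendental numbers -/
theorem exists_der_ne (hK : ∀ x ∈ K, IsAlgebraic ℚ x) {z : ℂ} (hz : Transcendental ℚ z) :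
    ∃ D : Derivation K ℂ ℂ, D z ≠ 0 := by
  have _ : Algebra.IsAlgebraic ℚ K := ⟨fun x => by
    have h1 := hK x x.2
    exact (isAlgebraic_algebraMap_iff (A := ℂ) (algebraMap K ℂ).injective).1 h1⟩
  have hzK : Transcendental K z := by
    intro h
    exact hz (h.restrictScalars ℚ)
  have hind : AlgebraicIndependent K (fun _ : Unit => z) := (algebraicIndependent_unique_type_iff).2 hzK
  obtain ⟨D, hD⟩ := Pool.Agent.H135R2.VS.exists_der hind (fun _ => (1 : ℂ))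
  refine ⟨D, ?_⟩
  have h1 := hD ()
  rw [h1]
  exact one_ne_zero

theorem jm_mem (K : Subfield ℂ) (a b : Fin n) : jm ℂ n a b ∈ K := by
  unfold jm
  rw [Matrix.of_apply]
  split_ifs
  · exact K.neg_mem (K.pow_mem (K.neg_mem K.one_mem) _)
  · exact K.zero_mem

theorem jm_inv_mem (hn : Even n) (K : Subfield ℂ) (a b : Fin n) : (jm ℂ n)⁻¹ a b ∈ K := by
  have h1 : ((jm ℚ n)⁻¹).map (algebraMap ℚ ℂ) * jm ℂ n = 1 := by
    rw [← jm_map (algebraMap ℚ ℂ) (n := n), ← Matrix.map_mul, nonsing_inv_mul _ (jm_det hn).isUnit,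
      Matrix.map_one _ (map_zero _) (map_one _)]
  rw [inv_eq_left_inv h1, Matrix.map_apply]
  exact SubfieldClass.ratCast_mem K _

/-- points of the torsor are invertible -/
theorem tor_det (hn : Even n) {Q X : Matrix (Fin n) (Fin n) ℂ} {lam : ℂ} (hl : lam ≠ 0)
    (h : X * Q * Xᵀ = lam • jm ℂ n) : IsUnit X.det ∧ X⁻¹ = lam⁻¹ • (Q * Xᵀ * (jm ℂ n)⁻¹) := by
  have hdet : IsUnit (jm ℂ n).det := (jm_det hn).isUnit
  have h1 : X * (lam⁻¹ • (Q * Xᵀ * (jm ℂ n)⁻¹)) = 1 := by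
    rw [Matrix.mul_smul, ← Matrix.mul_assoc, ← Matrix.mul_assoc, h, Matrix.smul_mul, mul_nonsing_inv _ hdet,
      smul_smul, inv_mul_cancel₀ hl, one_smul]
  refine ⟨(Matrix.isUnit_iff_isUnit_det X).1 (IsUnit.of_mul_eq_one _ h1), inv_eq_right_inv h1⟩

section quad

variable (K)

/-- polynomials over `K` -/
noncomputable def PK (σ : Type*) : Subring (MvPolynomial σ ℂ) := (MvPolynomial.map (σ := σ) (algebraMap K ℂ)).range

variable {K}

theorem PK_C {σ : Type*} {a : ℂ} (ha : a ∈ K) : (MvPolynomial.C a : MvPolynomial σ ℂ) ∈ PK K σ :=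
  ⟨MvPolynomial.C ⟨a, ha⟩, by rw [MvPolynomial.map_C]; rfl⟩

theorem PK_X {σ : Type*} (s : σ) : (MvPolynomial.X s : MvPolynomial σ ℂ) ∈ PK K σ :=
  ⟨MvPolynomial.X s, by rw [MvPolynomial.map_X]⟩

theorem PK_coeff {σ : Type*} {P : MvPolynomial σ ℂ} (hP : P ∈ PK K σ) (m : σ →₀ ℕ) : P.coeff m ∈ K := by
  obtain ⟨P0, rfl⟩ := hP
  rw [MvPolynomial.coeff_map]
  exact (P0.coeff m).2

/-- all entries are homogeneous polynomials over `K` of degree `d` -/
def Dg (K : Subfield ℂ) {σ m : Type*} (d : ℕ) (M : Matrix m m (MvPolynomial σ ℂ)) : Prop :=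
  ∀ i j, M i j ∈ PK K σ ∧ (M i j).IsHomogeneous d

theorem Dg.mul {σ m : Type*} [Fintype m] {d e : ℕ} {M M' : Matrix m m (MvPolynomial σ ℂ)} (h : Dg K d M)
    (h' : Dg K e M') : Dg K (d + e) (M * M') := by
  intro i j
  rw [Matrix.mul_apply]
  refine ⟨Subring.sum_mem _ fun k _ => Subring.mul_mem _ (h i k).1 (h' k j).1, ?_⟩
  exact MvPolynomial.IsHomogeneous.sum _ _ _ fun k _ => (h i k).2.mul (h' k j).2

theorem Dg.mapC {σ m : Type*} {A : Matrix m m ℂ} (hA : ∀ i j, A i j ∈ K) :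
    Dg K 0 (A.map (MvPolynomial.C : ℂ →+* MvPolynomial σ ℂ)) := by
  intro i j
  rw [Matrix.map_apply]
  exact ⟨PK_C (hA i j), MvPolynomial.isHomogeneous_C _ _⟩

theorem Dg.blockDiag {σ m o : Type*} [DecidableEq o] {d : ℕ} {M : o → Matrix m m (MvPolynomial σ ℂ)}
    (h : ∀ k, Dg K d (M k)) : Dg K d (blockDiagonal M) := by
  intro i j
  rw [blockDiagonal_apply]
  split_ifs
  · exact h _ _ _
  · exact ⟨Subring.zero_mem _, MvPolynomial.isHomogeneous_zero _ _ _⟩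

/-- the generic matrices -/
noncomputable def XX (j : Fin N) : Matrix (Fin n) (Fin n) (MvPolynomial (Fin N × Fin n × Fin n) ℂ) :=
  Matrix.of fun l i => MvPolynomial.X (j, l, i)

theorem Dg.XX (j : Fin N) : Dg K 1 (XX (n := n) j) := by
  intro l i
  exact ⟨PK_X _, MvPolynomial.isHomogeneous_X _ _⟩

theorem Dg.transpose {σ m : Type*} {d : ℕ} {M : Matrix m m (MvPolynomial σ ℂ)} (h : Dg K d M) : Dg K d Mᵀ :=
  fun i j => h j i

/-- the coordinates -/
def cd (X : Fin N → Matrix (Fin n) (Fin n) ℂ) (s : Fin N × Fin n × Fin n) : ℂ := X s.1 s.2.1 s.2.2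

/-- the matrix of the quadratic polynomials -/
noncomputable def RM (Q : Fin N → Matrix (Fin n) (Fin n) ℂ) (A : Matrix (Fin n × Fin N) (Fin n × Fin N) ℂ) :
    Matrix (Fin n × Fin N) (Fin n × Fin N) (MvPolynomial (Fin N × Fin n × Fin n) ℂ) :=
  blockDiagonal (fun j => (Q j).map (MvPolynomial.C : ℂ →+* MvPolynomial (Fin N × Fin n × Fin n) ℂ) *
    (XX j)ᵀ * ((jm ℂ n)⁻¹).map (MvPolynomial.C : ℂ →+* MvPolynomial (Fin N × Fin n × Fin n) ℂ)) *
    A.map (MvPolynomial.C : ℂ →+* MvPolynomial (Fin N × Fin n × Fin n) ℂ) * blockDiagonal XX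

/-- the quadratic polynomials -/
noncomputable def RP (Q : Fin N → Matrix (Fin n) (Fin n) ℂ) (A : Matrix (Fin n × Fin N) (Fin n × Fin N) ℂ)
    (u : (Fin n × Fin N) × (Fin n × Fin N) → ℂ) : MvPolynomial (Fin N × Fin n × Fin n) ℂ :=
  ∑ b, MvPolynomial.C (u b) * RM Q A b.1 b.2

theorem RP_deg (hn : Even n) {Q : Fin N → Matrix (Fin n) (Fin n) ℂ} (hQ : ∀ j a b, Q j a b ∈ K)
    {A : Matrix (Fin n × Fin N) (Fin n × Fin N) ℂ} (hA : ∀ i j, A i j ∈ K)
    {u : (Fin n × Fin N) × (Fin n × Fin N) → ℂ} (hu : ∀ b, u b ∈ K) :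
    RP Q A u ∈ PK K _ ∧ (RP Q A u).IsHomogeneous 2 := by
  have h1 : Dg K (0 + 1 + 0 + 0 + 1) (RM Q A) := by
    refine Dg.mul (Dg.mul (Dg.blockDiag fun j => Dg.mul (Dg.mul (Dg.mapC (hQ j)) (Dg.XX j).transpose)
      (Dg.mapC (jm_inv_mem hn K))) (Dg.mapC hA)) (Dg.blockDiag fun j => Dg.XX j)
  unfold RP
  refine ⟨Subring.sum_mem _ fun b _ => Subring.mul_mem _ (PK_C (hu b)) (h1 _ _).1, ?_⟩
  refine MvPolynomial.IsHomogeneous.sum _ _ _ fun b _ => ?_
  have h2 := (MvPolynomial.isHomogeneous_C (Fin N × Fin n × Fin n) (u b)).mul (h1 b.1 b.2).2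
  simpa using h2

theorem RP_eval (hn : Even n) {Q : Fin N → Matrix (Fin n) (Fin n) ℂ}
    (A : Matrix (Fin n × Fin N) (Fin n × Fin N) ℂ) (u : (Fin n × Fin N) × (Fin n × Fin N) → ℂ)
    {X : Fin N → Matrix (Fin n) (Fin n) ℂ} {lam : ℂ} (hX : (X, lam) ∈ Tor Q) :
    MvPolynomial.eval (cd X) (RP Q A u) = lam * ∑ b, u b * fl ((bd X)⁻¹ * A * bd X) b := by
  obtain ⟨hl, hX⟩ := hX
  have hinv : (bd X)⁻¹ = bd (fun j => lam⁻¹ • (Q j * (X j)ᵀ * (jm ℂ n)⁻¹)) := by
    apply inv_eq_right_inv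
    show blockDiagonal X * blockDiagonal _ = 1
    rw [← blockDiagonal_mul]
    have : (fun k => X k * lam⁻¹ • (Q k * (X k)ᵀ * (jm ℂ n)⁻¹)) = 1 := by
      funext j
      obtain ⟨h1, h2⟩ := tor_det hn hl (hX j)
      rw [← h2, mul_nonsing_inv _ h1]
      rfl
    rw [this, blockDiagonal_one]
  have hXX : ∀ j, (XX (N := N) (n := n) j).map (MvPolynomial.eval (cd X)) = X j := by
    intro j
    ext a b
    rw [Matrix.map_apply]
    show MvPolynomial.eval (cd X) (MvPolynomial.X (j, a, b)) = X j a b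
    rw [MvPolynomial.eval_X]
    rfl
  have hCC : ∀ {m : Type} (M : Matrix m m ℂ), (M.map (MvPolynomial.C : ℂ →+* MvPolynomial
      (Fin N × Fin n × Fin n) ℂ)).map (MvPolynomial.eval (cd X)) = M := by
    intro m M
    ext a b
    simp
  have hev : (RM Q A).map (MvPolynomial.eval (cd X)) =
      bd (fun j => Q j * (X j)ᵀ * (jm ℂ n)⁻¹) * A * bd X := by
    unfold RM
    rw [Matrix.map_mul, Matrix.map_mul, blockDiagonal_map _ _ (map_zero _), blockDiagonal_map _ _ (map_zero _), hCC]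
    congr 2
    · congr 1
      funext j
      rw [Matrix.map_mul, Matrix.map_mul, hCC, hCC, Matrix.transpose_map, hXX]
    · funext j
      exact hXX j
  unfold RP
  rw [map_sum, Finset.mul_sum]
  refine Finset.sum_congr rfl fun b _ => ?_
  rw [map_mul, MvPolynomial.eval_C]
  have h3 := congrFun (congrFun hev b.1) b.2
  rw [Matrix.map_apply] at h3
  rw [h3, hinv]
  have h4 : (bd fun j => lam⁻¹ • (Q j * (X j)ᵀ * (jm ℂ n)⁻¹)) = lam⁻¹ • bd (fun j => Q j * (X j)ᵀ * (jm ℂ n)⁻¹) :=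
    blockDiagonal_smul lam⁻¹ (fun j => Q j * (X j)ᵀ * (jm ℂ n)⁻¹)
  rw [h4, Matrix.smul_mul, Matrix.smul_mul, fl_smul, Pi.smul_apply, smul_eq_mul]
  unfold fl
  field_simp

end quad

end Pool.Agent.Y123.ST
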