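import Pool.Agent.Y123.ST.Rel

/-!
# Subtorsors all of whose points are proportional to algebraic matrices

The first two lemmas are copied from the starting file `Pool/Agent/W466/CI.lean`.
-/

set_option autoImplicit false
set_option linter.unusedSectionVars false

open Function MvPolynomial Cardinal

namespace Pool.Agent.Y123.ST

/-- A field extension of `ℂ` of countable dimension is trivial. -/
theorem surj_of_rank {F : Type} [Field F] [Algebra ℂ F] (h : Module.rank ℂ F ≤ ℵ₀) :
    Function.Surjective (algebraMap ℂ F) := by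
  have halg : Algebra.IsAlgebraic ℂ F := by
    refine ⟨fun x => ?_⟩
    by_contra hx
    have h1 := (show Transcendental ℂ x from hx).linearIndependent_sub_inv.cardinal_le_rank
    have h2 := h1.trans h
    rw [Cardinal.mk_complex] at h2
    exact absurd h2 (not_le.2 Cardinal.aleph0_lt_continuum)
  have : Algebra.IsIntegral ℂ F := inferInstance
  exact (IsAlgClosed.algebraMap_bijective_of_isIntegral (k := ℂ) (K := F)).2

/-- A countable set of polynomials outside a prime ideal: there is a zero of the ideal at which all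
these polynomials are different from zero. -/
theorem exists_point {σ : Type} [Countable σ] (P : Ideal (MvPolynomial σ ℂ)) [P.IsPrime]
    {β : Type} [Countable β] (F : β → MvPolynomial σ ℂ) (hF : ∀ i, F i ∉ P) :
    ∃ x : σ → ℂ, (∀ f ∈ P, eval x f = 0) ∧ ∀ i, eval x (F i) ≠ 0 := by
  classical
  let R := MvPolynomial σ ℂ ⧸ P
  let Ω := FractionRing R
  let ev : MvPolynomial σ ℂ →ₐ[ℂ] Ω :=
    (IsScalarTower.toAlgHom ℂ R Ω).comp (Ideal.Quotient.mkₐ ℂ P)
  have hev : ∀ f, ev f = 0 ↔ f ∈ P := by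
    intro f
    change algebraMap R Ω (Ideal.Quotient.mk P f) = 0 ↔ _
    rw [← Ideal.Quotient.eq_zero_iff_mem]
    exact map_eq_zero_iff _ (IsFractionRing.injective R Ω)
  let ι := σ ⊕ β
  let J : Ideal (MvPolynomial ι ℂ) := Ideal.map (rename (Sum.inl : σ → ι)).toRingHom P ⊔
    Ideal.span (Set.range fun i : β => X (Sum.inr i) * rename (Sum.inl : σ → ι) (F i) - 1)
  let z : ι → Ω := Sum.elim (fun j => ev (X j)) (fun i => (ev (F i))⁻¹)
  have hz : ∀ f : MvPolynomial σ ℂ, aeval z (rename (Sum.inl : σ → ι) f) = ev f := by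
    intro f
    rw [aeval_rename]
    have h1 : ev = aeval (z ∘ Sum.inl) := by
      ext j
      simp [z]
    rw [h1]
  have hJ : J ≤ RingHom.ker (aeval z : MvPolynomial ι ℂ →ₐ[ℂ] Ω) := by
    refine sup_le ?_ ?_
    · rw [Ideal.map_le_iff_le_comap]
      intro f hf
      rw [Ideal.mem_comap, RingHom.mem_ker]
      exact (hz f).trans ((hev f).2 hf)
    · rw [Ideal.span_le]
      rintro _ ⟨i, rfl⟩
      rw [SetLike.mem_coe, RingHom.mem_ker, map_sub, map_mul, hz, aeval_X, map_one]
      have h2 : ev (F i) ≠ 0 := fun h => hF i ((hev _).1 h)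
      show (ev (F i))⁻¹ * ev (F i) - 1 = 0
      rw [inv_mul_cancel₀ h2, sub_self]
  have hJtop : J ≠ ⊤ := by
    intro h
    rw [Ideal.eq_top_iff_one] at h
    have h1 := hJ h
    rw [RingHom.mem_ker, map_one] at h1
    exact one_ne_zero h1
  obtain ⟨𝔪, hm, hJm⟩ := Ideal.exists_le_maximal J hJtop
  let Q := MvPolynomial ι ℂ ⧸ 𝔪
  let _ : Field Q := Ideal.Quotient.field 𝔪
  have hrank : Module.rank ℂ Q ≤ ℵ₀ := by
    have h1 : Module.rank ℂ Q ≤ Module.rank ℂ (MvPolynomial ι ℂ) :=
      LinearMap.rank_le_of_surjective (Ideal.Quotient.mkₐ ℂ 𝔪).toLinearMap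
        (Ideal.Quotient.mkₐ_surjective ℂ 𝔪)
    refine h1.trans ?_
    rw [MvPolynomial.rank_eq]
    exact Cardinal.mk_le_aleph0
  have hsurj := surj_of_rank hrank
  choose x hx using fun j : ι => hsurj (Ideal.Quotient.mkₐ ℂ 𝔪 (X j))
  have hev2 : ∀ f : MvPolynomial ι ℂ, Ideal.Quotient.mkₐ ℂ 𝔪 f = algebraMap ℂ Q (eval x f) := by
    intro f
    have h1 : Ideal.Quotient.mkₐ ℂ 𝔪 = (Algebra.ofId ℂ Q).comp (aeval x) := by
      apply MvPolynomial.algHom_ext
      intro j
      rw [AlgHom.comp_apply, aeval_X]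
      exact (hx j).symm
    rw [h1, AlgHom.comp_apply, aeval_eq_eval]
    rfl
  have hker : ∀ f ∈ J, eval x f = 0 := by
    intro f hf
    have h1 : Ideal.Quotient.mkₐ ℂ 𝔪 f = 0 := Ideal.Quotient.eq_zero_iff_mem.2 (hJm hf)
    rw [hev2] at h1
    exact (map_eq_zero _).1 h1
  refine ⟨fun j => x (Sum.inl j), ?_, ?_⟩
  · intro f hf
    have h1 := hker _ (Ideal.mem_sup_left (Ideal.mem_map_of_mem
      (rename (Sum.inl : σ → ι)).toRingHom hf))
    change eval x (rename (Sum.inl : σ → ι) f) = 0 at h1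
    rw [eval_rename] at h1
    exact h1
  · intro i h0
    have h1 := hker _ (Ideal.mem_sup_right (Ideal.subset_span ⟨i, rfl⟩))
    rw [map_sub, map_mul, eval_rename, map_one] at h1
    have h2 : eval (x ∘ Sum.inl) (F i) = 0 := h0
    rw [h2, mul_zero, zero_sub, neg_eq_zero] at h1
    exact one_ne_zero h1


end Pool.Agent.Y123.ST
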