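import Pool.Agent.Y123.ST.Full

/-!
# Transfer of relations of bounded degree from a subtorsor to the torsor
-/

set_option autoImplicit false
set_option linter.unusedSectionVars false

open Matrix

namespace Pool.Agent.Y123.ST

open Pool.Agent.TH127.PT Pool.Agent.Y118.HP Pool.Agent.TH119.DR

variable {n N : ℕ} {K : Subfield ℂ} {T : Set (Matrix (Fin n × Fin N) (Fin n × Fin N) ℂ)}
  {Q c : Fin N → Matrix (Fin n) (Fin n) ℂ} {lam : ℂ}

/-- every relation over `K` of degree at most `d` at `c` holds on the torsor -/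
def NoRel (K : Subfield ℂ) (Q c : Fin N → Matrix (Fin n) (Fin n) ℂ) (d : ℕ) : Prop :=
  ∀ P : MvPolynomial (Fin N × Fin n × Fin n) ℂ, (∀ m, P.coeff m ∈ K) → P.totalDegree ≤ d →
    MvPolynomial.eval (cd c) P = 0 → ∀ x ∈ Tor Q, MvPolynomial.eval (cd x.1) P = 0

theorem NoRel.quad {d : ℕ} (h : NoRel K Q c d) (hd : 2 ≤ d) : NoQuad K Q c :=
  fun P h1 h2 h3 => h P h1 (h2.totalDegree_le.trans hd) h3

/-- functions given by polynomials of degree at most `d` -/
def PF {n N : ℕ} (d : ℕ) (F : (Fin N → Matrix (Fin n) (Fin n) ℂ) → ℂ) : Prop :=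
  ∃ P : MvPolynomial (Fin N × Fin n × Fin n) ℂ, P.totalDegree ≤ d ∧ ∀ X, F X = MvPolynomial.eval (cd X) P

theorem PF.const (a : ℂ) : PF (n := n) (N := N) 0 (fun _ => a) :=
  ⟨MvPolynomial.C a, by rw [MvPolynomial.totalDegree_C], fun X => by rw [MvPolynomial.eval_C]⟩

theorem PF.coord (j : Fin N) (a b : Fin n) : PF (n := n) (N := N) 1 (fun X => X j a b) :=
  ⟨MvPolynomial.X (j, a, b), by rw [MvPolynomial.totalDegree_X], fun X => by rw [MvPolynomial.eval_X]; rfl⟩

theorem PF.mono {d e : ℕ} (h : d ≤ e) {F : (Fin N → Matrix (Fin n) (Fin n) ℂ) → ℂ} (hF : PF d F) : PF e F := by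
  obtain ⟨P, h1, h2⟩ := hF
  exact ⟨P, h1.trans h, h2⟩

theorem PF.mul {d e : ℕ} {F G : (Fin N → Matrix (Fin n) (Fin n) ℂ) → ℂ} (hF : PF d F) (hG : PF e G) :
    PF (d + e) (fun X => F X * G X) := by
  obtain ⟨P, h1, h2⟩ := hF
  obtain ⟨P', h1', h2'⟩ := hG
  refine ⟨P * P', (MvPolynomial.totalDegree_mul _ _).trans (add_le_add h1 h1'), fun X => ?_⟩
  rw [map_mul, ← h2, ← h2']

theorem PF.add {d : ℕ} {F G : (Fin N → Matrix (Fin n) (Fin n) ℂ) → ℂ} (hF : PF d F) (hG : PF d G) :
    PF d (fun X => F X + G X) := by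
  obtain ⟨P, h1, h2⟩ := hF
  obtain ⟨P', h1', h2'⟩ := hG
  refine ⟨P + P', (MvPolynomial.totalDegree_add _ _).trans (max_le h1 h1'), fun X => ?_⟩
  rw [map_add, ← h2, ← h2']

theorem PF.sub {d : ℕ} {F G : (Fin N → Matrix (Fin n) (Fin n) ℂ) → ℂ} (hF : PF d F) (hG : PF d G) :
    PF d (fun X => F X - G X) := by
  obtain ⟨P, h1, h2⟩ := hF
  obtain ⟨P', h1', h2'⟩ := hG
  refine ⟨P - P', (MvPolynomial.totalDegree_sub _ _).trans (max_le h1 h1'), fun X => ?_⟩
  rw [map_sub, ← h2, ← h2']

theorem PF.sum {d : ℕ} {ι : Type*} (s : Finset ι) {F : ι → (Fin N → Matrix (Fin n) (Fin n) ℂ) → ℂ}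
    (hF : ∀ i ∈ s, PF d (F i)) : PF d (fun X => ∑ i ∈ s, F i X) := by
  classical
  induction s using Finset.induction_on with
  | empty =>
    simp only [Finset.sum_empty]
    exact (PF.const 0).mono (Nat.zero_le _)
  | insert i s hi ih =>
    simp only [Finset.sum_insert hi]
    exact (hF i (Finset.mem_insert_self _ _)).add (ih fun k hk => hF k (Finset.mem_insert_of_mem hk))

theorem PF.prod {ι : Type*} (s : Finset ι) {d : ι → ℕ} {F : ι → (Fin N → Matrix (Fin n) (Fin n) ℂ) → ℂ}
    (hF : ∀ i ∈ s, PF (d i) (F i)) : PF (∑ i ∈ s, d i) (fun X => ∏ i ∈ s, F i X) := by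
  classical
  induction s using Finset.induction_on with
  | empty =>
    simp only [Finset.prod_empty, Finset.sum_empty]
    exact PF.const 1
  | insert i s hi ih =>
    simp only [Finset.prod_insert hi, Finset.sum_insert hi]
    exact (hF i (Finset.mem_insert_self _ _)).mul (ih fun k hk => hF k (Finset.mem_insert_of_mem hk))

/-- matrices of polynomial functions -/
def PM {n N : ℕ} (d : ℕ) (M : (Fin N → Matrix (Fin n) (Fin n) ℂ) → Matrix (Fin n) (Fin n) ℂ) : Prop :=
  ∀ a b, PF d (fun X => M X a b)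

theorem PM.const (A : Matrix (Fin n) (Fin n) ℂ) : PM (N := N) 0 (fun _ => A) := fun _ _ => PF.const _

theorem PM.coord (j : Fin N) : PM (n := n) 1 (fun X => X j) := fun a b => PF.coord j a b

theorem PM.tr {d : ℕ} {M : (Fin N → Matrix (Fin n) (Fin n) ℂ) → Matrix (Fin n) (Fin n) ℂ} (h : PM d M) :
    PM d (fun X => (M X)ᵀ) := fun a b => h b a

theorem PM.mono {d e : ℕ} (h : d ≤ e) {M : (Fin N → Matrix (Fin n) (Fin n) ℂ) → Matrix (Fin n) (Fin n) ℂ}
    (hM : PM d M) : PM e M := fun a b => (hM a b).mono h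

theorem PM.mul {d e : ℕ} {M M' : (Fin N → Matrix (Fin n) (Fin n) ℂ) → Matrix (Fin n) (Fin n) ℂ} (h : PM d M)
    (h' : PM e M') : PM (d + e) (fun X => M X * M' X) := by
  intro a b
  simp only [Matrix.mul_apply]
  exact PF.sum _ fun k _ => (h a k).mul (h' k b)

theorem PM.sub {d : ℕ} {M M' : (Fin N → Matrix (Fin n) (Fin n) ℂ) → Matrix (Fin n) (Fin n) ℂ} (h : PM d M)
    (h' : PM d M') : PM d (fun X => M X - M' X) := by
  intro a b
  simp only [Matrix.sub_apply]
  exact (h a b).sub (h' a b)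

theorem PM.pow {d : ℕ} {M : (Fin N → Matrix (Fin n) (Fin n) ℂ) → Matrix (Fin n) (Fin n) ℂ} (h : PM d M) (k : ℕ) :
    PM (k * d) (fun X => M X ^ k) := by
  induction k with
  | zero =>
    simp only [pow_zero, zero_mul]
    exact PM.const 1
  | succ k ih =>
    simp only [pow_succ]
    exact (ih.mul h).mono (by rw [Nat.succ_mul])

theorem bd_map (X : Fin N → Matrix (Fin n) (Fin n) ℂ) (σ : ℂ ≃+* ℂ) :
    (bd X).map σ = bd (fun j => (X j).map σ) :=
  blockDiagonal_map X σ (map_zero σ)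

/-- relations of bounded degree on the subtorsor hold on the torsor -/
theorem transfer (hT : IsSubtorsor K T) (hcT : bd c ∈ T) {d : ℕ} (hr : NoRel K Q c d)
    {F : (Fin N → Matrix (Fin n) (Fin n) ℂ) → ℂ} (hF : PF d F) (hv : ∀ X, bd X ∈ T → F X = 0) :
    ∀ x ∈ Tor Q, F x.1 = 0 := by
  classical
  obtain ⟨P, hP, hPF⟩ := hF
  intro x hx
  rw [hPF]
  -- polynomials with the monomials of `P`
  let poly : (P.support → ℂ) →ₗ[ℂ] MvPolynomial (Fin N × Fin n × Fin n) ℂ :=
    { toFun := fun a => ∑ m : P.support, MvPolynomial.monomial m.1 (a m)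
      map_add' := by
        intro a b
        simp only [Pi.add_apply, map_add, Finset.sum_add_distrib]
      map_smul' := by
        intro z a
        simp only [Pi.smul_apply, smul_eq_mul, RingHom.id_apply, Finset.smul_sum, MvPolynomial.smul_monomial] }
  have hpoly : ∀ a, poly a = ∑ m : P.support, MvPolynomial.monomial m.1 (a m) := fun a => rfl
  have hev : ∀ a (y : Fin N × Fin n × Fin n → ℂ), MvPolynomial.eval y (poly a) =
      ∑ m : P.support, a m * m.1.prod fun i e => y i ^ e := by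
    intro a y
    rw [hpoly, map_sum]
    refine Finset.sum_congr rfl fun m _ => ?_
    rw [MvPolynomial.eval_monomial]
  let W : Submodule ℂ (P.support → ℂ) :=
    { carrier := {a | ∀ X, bd X ∈ T → MvPolynomial.eval (cd X) (poly a) = 0}
      zero_mem' := by
        intro X _
        rw [map_zero, map_zero]
      add_mem' := by
        intro a b ha hb X hX
        rw [map_add, map_add, ha X hX, hb X hX, add_zero]
      smul_mem' := by
        intro z a ha X hX
        rw [map_smul, MvPolynomial.smul_eval, ha X hX, mul_zero] }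
  have hW : DefOver K W := by
    refine Pool.Agent.TH119.MX.defOver_of_aut W fun σ hσ a ha X hX => ?_
    have h1 : bd (fun j => (X j).map σ.symm) ∈ T := by
      rw [← bd_map]
      exact aut_mem hT (symm_fix hσ) hX
    have h2 := congrArg σ (ha _ h1)
    rw [map_zero, hev, map_sum] at h2
    rw [hev, ← h2]
    refine Finset.sum_congr rfl fun m _ => ?_
    rw [map_mul]
    congr 1
    rw [Finsupp.prod, Finsupp.prod, map_prod]
    refine Finset.prod_congr rfl fun i _ => ?_
    rw [map_pow]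
    congr 1
    show X i.1 i.2.1 i.2.2 = σ (((X i.1).map σ.symm) i.2.1 i.2.2)
    simp
  have hPP : poly (fun m => P.coeff m.1) = P := by
    rw [hpoly]
    conv_rhs => rw [P.as_sum]
    exact Finset.sum_coe_sort P.support (fun m => MvPolynomial.monomial m (P.coeff m))
  have hPW : (fun m : P.support => P.coeff m.1) ∈ W := by
    intro X hX
    rw [hPP, ← hPF]
    exact hv X hX
  have key : ∀ a ∈ Submodule.span ℂ {w | w ∈ W ∧ ∀ a, w a ∈ K}, MvPolynomial.eval (cd x.1) (poly a) = 0 := by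
    intro a ha
    induction ha using Submodule.span_induction with
    | mem a ha =>
      obtain ⟨h1, h2⟩ := ha
      refine hr (poly a) ?_ ?_ (h1 c hcT) x hx
      · intro m
        rw [hpoly, MvPolynomial.coeff_sum]
        refine Subfield.sum_mem _ fun m' _ => ?_
        rw [MvPolynomial.coeff_monomial]
        split_ifs
        · exact h2 _
        · exact K.zero_mem
      · rw [hpoly]
        refine (MvPolynomial.totalDegree_finset_sum _ _).trans (Finset.sup_le fun m _ => ?_)
        refine (MvPolynomial.totalDegree_monomial_le _ _).trans ?_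
        exact (MvPolynomial.le_totalDegree m.2).trans hP
    | zero => rw [map_zero, map_zero]
    | add a b _ _ ha hb => rw [map_add, map_add, ha, hb, add_zero]
    | smul z a _ ha => rw [map_smul, MvPolynomial.smul_eval, ha, mul_zero]
  have := key _ (hW hPW)
  rwa [hPP] at this

/-- intersections of subtorsors -/
theorem inter_sub {M : Type} [Fintype M] [DecidableEq M] {S S' : Set (Matrix M M ℂ)} (hS : IsSubtorsor K S)
    (hS' : IsSubtorsor K S') : IsSubtorsor K (S ∩ S') := by
  refine ⟨fun x hx => hS.isUnit x hx.1, fun x hx y hy z hz => ⟨hS.torsor x hx.1 y hy.1 z hz.1,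
    hS'.torsor x hx.2 y hy.2 z hz.2⟩, ?_⟩
  obtain ⟨I, h1, h2⟩ := hS.algebraic
  obtain ⟨I', h1', h2'⟩ := hS'.algebraic
  refine ⟨I ∪ I', ?_, fun x => ?_⟩
  · rintro p (hp | hp) m
    · exact h1 p hp m
    · exact h1' p hp m
  · rw [Set.mem_inter_iff, h2, h2']
    constructor
    · rintro ⟨⟨h3, h4⟩, -, h5⟩
      refine ⟨h3, ?_⟩
      rintro p (hp | hp)
      · exact h4 p hp
      · exact h5 p hp
    · rintro ⟨h3, h4⟩
      exact ⟨⟨h3, fun p hp => h4 p (Or.inl hp)⟩, h3, fun p hp => h4 p (Or.inr hp)⟩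

end Pool.Agent.Y123.ST
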